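import Pool.Agent.H577.QR.Stm
import Pool.Graph.R_seed8.Y122.PSP.Bad
import Pool.Graph.R_seed8.Erdos456.LDich
import Pool.Graph.R_seed8.H370R2.NT

/-!
Project QR (helper577), task A1: `L(1, χ)` is close to the Euler product over the primes up to `x⁴`
for all but few primitive characters of conductor at most `x`.
-/

set_option autoImplicit false

namespace Pool.Agent.H650.QR577

open Finset Filter
open Pool.Agent.H577.QR (pr S_A1)
open Pool.Agent.H262R3.Lk (Lj fz)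
open Pool.Agent.H318R2.Cr (Rgh)
open Pool.Agent.Y122.PSP (g g_hasSum sum_range_g Bl sum_Bl block geo)

/-- the large sieve bound -/
theorem lsb {z Q : ℕ} (hz2 : 2 ≤ z) (hQ : Q ^ 4 ≤ z) {σ δ : ℝ} (hσ0 : 0 < σ) (hσ1 : σ ≤ 1)
    (hδ : 0 < δ) (B : Finset ℕ) (hBf : ∀ f ∈ B, 1 ≤ f ∧ f ≤ Q)
    (χ : ∀ f : ℕ, DirichletCharacter ℂ f)
    (hχ : ∀ f ∈ B, (χ f).IsPrimitive ∧ δ < ‖Lj z (χ f) 0 σ - 1‖) :
    (B.card : ℝ) ≤ 72 / (σ ^ 2 * δ ^ 2) := by
  classical
  -- the partial sums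
  have hlim : ∀ᶠ J : ℕ in atTop, ∀ f ∈ B, δ < ‖∑ n ∈ Ioc z (z * 2 ^ J), g z σ (χ f) n‖ := by
    rw [Filter.eventually_all_finset]
    intro f hf
    have h1 := (g_hasSum z hσ0 (χ f)).tendsto_sum_nat
    have h2 : Tendsto (fun J : ℕ => z * 2 ^ J + 1) atTop atTop := by
      refine tendsto_atTop_mono (fun J => ?_) tendsto_id
      have : J < 2 ^ J := Nat.lt_two_pow_self
      simp only [id]
      nlinarith
    have h3 := h1.comp h2
    have h4 : Tendsto (fun J : ℕ => ‖∑ n ∈ Ioc z (z * 2 ^ J), g z σ (χ f) n‖) atTop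
        (nhds ‖Lj z (χ f) 0 σ - 1‖) := by
      refine ((h3.sub_const 1).norm).congr fun J => ?_
      simp only [Function.comp]
      rw [sum_range_g hz2 σ (χ f) (Nat.le_mul_of_pos_right _ (by positivity))]
      congr 1; ring
    exact h4.eventually_const_lt (hχ f hf).2
  obtain ⟨J, hJ⟩ := hlim.exists
  set r : ℝ := (2 : ℝ) ^ (-σ) with hr
  have hr0 : 0 < r := by positivity
  have h1 : ∀ j, ∑ f ∈ B, ‖Bl z σ (χ f) j‖ ≤ Real.sqrt (B.card * 18) * r ^ j := by
    intro j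
    have h2 := block hz2 hQ hσ0 j B hBf χ (fun f hf => (hχ f hf).1)
    have h3 := sq_sum_le_card_mul_sum_sq (s := B) (f := fun f => ‖Bl z σ (χ f) j‖)
    have h4 : (∑ f ∈ B, ‖Bl z σ (χ f) j‖) ^ 2 ≤ (B.card * 18) * (r ^ j) ^ 2 := by
      calc _ ≤ (B.card : ℝ) * ∑ f ∈ B, ‖Bl z σ (χ f) j‖ ^ 2 := h3
        _ ≤ (B.card : ℝ) * (18 * (r ^ j) ^ 2) := mul_le_mul_of_nonneg_left h2 (by positivity)
        _ = _ := by ring
    have h5 := Real.sqrt_le_sqrt h4
    rw [Real.sqrt_sq (sum_nonneg fun _ _ => norm_nonneg _), Real.sqrt_mul (by positivity),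
      Real.sqrt_sq (by positivity)] at h5
    exact h5
  have h2 : (B.card : ℝ) * δ ≤ Real.sqrt (B.card * 18) * (2 / σ) := by
    calc (B.card : ℝ) * δ = ∑ f ∈ B, δ := by rw [sum_const, nsmul_eq_mul]
      _ ≤ ∑ f ∈ B, ∑ j ∈ range J, ‖Bl z σ (χ f) j‖ := by
          refine sum_le_sum fun f hf => ?_
          have h3 := hJ f hf
          rw [sum_Bl] at h3
          exact h3.le.trans (norm_sum_le _ _)
      _ = ∑ j ∈ range J, ∑ f ∈ B, ‖Bl z σ (χ f) j‖ := sum_comm
      _ ≤ ∑ j ∈ range J, Real.sqrt (B.card * 18) * r ^ j := sum_le_sum fun j _ => h1 j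
      _ = Real.sqrt (B.card * 18) * ∑ j ∈ range J, r ^ j := by rw [mul_sum]
      _ ≤ _ := mul_le_mul_of_nonneg_left (geo hσ0 hσ1 J) (Real.sqrt_nonneg _)
  rcases (Nat.cast_nonneg (α := ℝ) B.card).eq_or_lt with h | h
  · rw [← h]; positivity
  · have h4 := pow_le_pow_left₀ (by positivity) h2 2
    rw [mul_pow, mul_pow, Real.sq_sqrt (by positivity)] at h4
    have h5 : (B.card : ℝ) * ((B.card : ℝ) * δ ^ 2) ≤ (B.card : ℝ) * (18 * (4 / σ ^ 2)) := by
      calc _ = (B.card : ℝ) ^ 2 * δ ^ 2 := by ring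
        _ ≤ _ := h4
        _ = _ := by ring
    have h6 := le_of_mul_le_mul_left h5 h
    rw [le_div_iff₀ (by positivity)]
    have h7 : (B.card : ℝ) * (σ ^ 2 * δ ^ 2) = ((B.card : ℝ) * δ ^ 2) * σ ^ 2 := by ring
    have h8 : 18 * (4 / σ ^ 2) * σ ^ 2 = 72 := by field_simp; norm_num
    rw [h7, ← h8]
    exact mul_le_mul_of_nonneg_right h6 (by positivity)

theorem mem_pr0 {z l : ℕ} : l ∈ pr 0 z ↔ l.Prime ∧ l ≤ z := by
  unfold pr
  rw [mem_filter, mem_Ioc]
  constructor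
  · rintro ⟨h1, h2⟩; exact ⟨h2, h1.2⟩
  · rintro ⟨h1, h2⟩; exact ⟨⟨h1.pos, h2⟩, h1⟩

/-- the sum over the rough numbers and the `L`-function -/
theorem Lj_eq {z f : ℕ} [NeZero f] (hf : f ≤ z) (χ : DirichletCharacter ℂ f) {σ : ℝ}
    (hσ : 0 < σ) : Lj z χ 0 σ = DirichletCharacter.LFunction χ ((1 + σ : ℝ) : ℂ) *
      ∏ l ∈ pr 0 z, (1 - χ (l : ZMod f) * (l : ℂ) ^ (-((1 + σ : ℝ) : ℂ))) := by
  have hf0 : f ≠ 0 := NeZero.ne f
  set N := f * z.factorial with hN
  have hN0 : N ≠ 0 := by rw [hN]; exact Nat.mul_ne_zero hf0 (Nat.factorial_ne_zero z)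
  have : NeZero N := ⟨hN0⟩
  have hd : f ∣ N := Dvd.intro _ rfl
  have hpf : N.primeFactors = pr 0 z := by
    ext p
    rw [Nat.mem_primeFactors, mem_pr0]
    constructor
    · rintro ⟨hp, hpN, -⟩
      refine ⟨hp, ?_⟩
      rw [hN, hp.dvd_mul] at hpN
      rcases hpN with h | h
      · exact (Nat.le_of_dvd (Nat.pos_of_ne_zero hf0) h).trans hf
      · exact (hp.dvd_factorial).mp h
    · rintro ⟨hp, hpz⟩
      exact ⟨hp, Dvd.dvd.mul_left (hp.dvd_factorial.mpr hpz) f, hN0⟩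
  have hs : ((1 + σ : ℝ) : ℂ) ≠ 1 := by
    intro h
    have h' : (1 + σ : ℝ) = 1 := by exact_mod_cast h
    linarith
  have h1 := DirichletCharacter.LFunction_changeLevel hd χ (s := ((1 + σ : ℝ) : ℂ)) (Or.inr hs)
  rw [hpf] at h1
  rw [← h1, Pool.Agent.Erdos456.LFun_eq _ (by linarith : (1 : ℝ) < 1 + σ)]
  unfold Lj
  refine tsum_congr fun n => ?_
  have hfz : fz z χ n = (DirichletCharacter.changeLevel hd χ) (n : ZMod N) := by
    unfold fz
    split_ifs with h
    · have hc : Nat.Coprime n N := by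
        rw [Nat.coprime_iff_gcd_eq_one]
        by_contra hne
        obtain ⟨p, hp, hpd⟩ := Nat.exists_prime_and_dvd hne
        have hpn := hpd.trans (Nat.gcd_dvd_left n N)
        have hpN := hpd.trans (Nat.gcd_dvd_right n N)
        have hmem : p ∈ N.primeFactors := Nat.mem_primeFactors.mpr ⟨hp, hpN, hN0⟩
        rw [hpf, mem_pr0] at hmem
        exact h p hp hmem.2 hpn
      have hc' : IsCoprime (n : ℤ) ((N : ℕ) : ℤ) := Nat.isCoprime_iff_coprime.mpr hc
      have e1 := DirichletCharacter.changeLevel_eq_cast_of_dvd' χ hd hc'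
      simp only [Int.cast_natCast] at e1
      exact e1.symm
    · have hnu : ¬ IsUnit (n : ZMod N) := by
        rw [ZMod.isUnit_iff_coprime]
        intro hc
        apply h
        intro p hp hpz hpn
        have hpN : p ∣ N := Dvd.dvd.mul_left (hp.dvd_factorial.mpr hpz) f
        exact Nat.not_coprime_of_dvd_of_dvd hp.one_lt hpn hpN hc
      exact (MulChar.map_nonunit _ hnu).symm
  rw [hfz]
  congr 2
  rw [Real.rpow_neg (by positivity)]
  rw [div_eq_mul_inv]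

/-- difference of products -/
theorem prod_diff (s : Finset ℕ) (a b : ℕ → ℂ) (c : ℕ → ℝ) (hc : ∀ i ∈ s, 1 ≤ c i)
    (ha : ∀ i ∈ s, ‖a i‖ ≤ c i) (hb : ∀ i ∈ s, ‖b i‖ ≤ c i) :
    ‖∏ i ∈ s, a i - ∏ i ∈ s, b i‖ ≤ (∏ i ∈ s, c i) * ∑ i ∈ s, ‖a i - b i‖ := by
  classical
  induction s using Finset.induction_on with
  | empty => simp
  | insert i s hi ih =>
    have ih' := ih (fun j hj => hc j (mem_insert_of_mem hj)) (fun j hj => ha j (mem_insert_of_mem hj))
      (fun j hj => hb j (mem_insert_of_mem hj))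
    rw [prod_insert hi, prod_insert hi, prod_insert hi, sum_insert hi]
    have hci := hc i (mem_insert_self _ _)
    have hai := ha i (mem_insert_self _ _)
    have hP : 0 ≤ ∏ j ∈ s, c j := prod_nonneg fun j hj => by
      have := hc j (mem_insert_of_mem hj); linarith
    have hbP : ‖∏ j ∈ s, b j‖ ≤ ∏ j ∈ s, c j := by
      rw [norm_prod]
      exact prod_le_prod (fun _ _ => norm_nonneg _) fun j hj => hb j (mem_insert_of_mem hj)
    have e : a i * ∏ j ∈ s, a j - b i * ∏ j ∈ s, b j =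
        a i * (∏ j ∈ s, a j - ∏ j ∈ s, b j) + (a i - b i) * ∏ j ∈ s, b j := by ring
    rw [e]
    calc _ ≤ ‖a i * (∏ j ∈ s, a j - ∏ j ∈ s, b j)‖ + ‖(a i - b i) * ∏ j ∈ s, b j‖ := norm_add_le _ _
      _ = ‖a i‖ * ‖∏ j ∈ s, a j - ∏ j ∈ s, b j‖ + ‖a i - b i‖ * ‖∏ j ∈ s, b j‖ := by
          rw [norm_mul, norm_mul]
      _ ≤ c i * ((∏ j ∈ s, c j) * ∑ j ∈ s, ‖a j - b j‖) + ‖a i - b i‖ * ∏ j ∈ s, c j := by
          refine add_le_add (mul_le_mul hai ih' (norm_nonneg _) (by linarith)) ?_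
          exact mul_le_mul_of_nonneg_left hbP (norm_nonneg _)
      _ ≤ c i * ((∏ j ∈ s, c j) * ∑ j ∈ s, ‖a j - b j‖) + c i * (‖a i - b i‖ * ∏ j ∈ s, c j) := by
          have : 0 ≤ ‖a i - b i‖ * ∏ j ∈ s, c j := by positivity
          nlinarith
      _ = _ := by ring

theorem sum_log {z : ℕ} (hz : 1 ≤ z) : ∑ l ∈ pr 0 z, Real.log l / l ≤ Real.log z + 6 := by
  refine le_trans ?_ (H370.nt_mertens_upper z hz)
  have hsub : pr 0 z ⊆ Icc 1 z := by
    intro l hl
    rw [mem_pr0] at hl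
    rw [mem_Icc]; exact ⟨hl.1.pos, hl.2⟩
  refine le_trans ?_ (sum_le_sum_of_subset_of_nonneg hsub fun d _ _ =>
    div_nonneg ArithmeticFunction.vonMangoldt_nonneg (Nat.cast_nonneg d))
  refine sum_le_sum fun l hl => ?_
  rw [ArithmeticFunction.vonMangoldt_apply_prime (mem_pr0.mp hl).1]

theorem prod_le {z Y : ℕ} (hz : 1 ≤ z) (hY : 2 ≤ Y) :
    ∏ l ∈ pr 0 z, (1 + 1 / (l : ℝ)) ≤ Real.exp (Y + (Real.log z + 6) / Real.log Y) := by
  have hlY : 0 < Real.log Y := Real.log_pos (by exact_mod_cast hY)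
  calc ∏ l ∈ pr 0 z, (1 + 1 / (l : ℝ)) ≤ ∏ l ∈ pr 0 z, Real.exp (1 / (l : ℝ)) := by
        refine prod_le_prod (fun l _ => by positivity) fun l _ => ?_
        have := Real.add_one_le_exp (1 / (l : ℝ))
        linarith
    _ = Real.exp (∑ l ∈ pr 0 z, 1 / (l : ℝ)) := (Real.exp_sum _ _).symm
    _ ≤ _ := by
        apply Real.exp_le_exp.mpr
        have h1 : ∀ l ∈ pr 0 z, 1 / (l : ℝ) ≤ (if l ∈ Icc 1 Y then (1 : ℝ) else 0) +
            (Real.log l / l) / Real.log Y := by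
          intro l hl
          rw [mem_pr0] at hl
          have hl1 : (1 : ℝ) ≤ l := by exact_mod_cast hl.1.pos
          have hlog : 0 ≤ Real.log l := Real.log_nonneg hl1
          split_ifs with h
          · have : 1 / (l : ℝ) ≤ 1 := by
              rw [div_le_one (by linarith)]; exact hl1
            have : 0 ≤ (Real.log l / l) / Real.log Y := by positivity
            linarith
          · rw [mem_Icc] at h
            have hYl : Y ≤ l := by have := hl.1.pos; omega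
            have : Real.log Y ≤ Real.log l := Real.log_le_log (by positivity) (by exact_mod_cast hYl)
            rw [zero_add, le_div_iff₀ hlY, div_mul_eq_mul_div, one_mul]
            exact div_le_div_of_nonneg_right this (by linarith)
        calc ∑ l ∈ pr 0 z, 1 / (l : ℝ) ≤ ∑ l ∈ pr 0 z, ((if l ∈ Icc 1 Y then (1 : ℝ) else 0) +
            (Real.log l / l) / Real.log Y) := sum_le_sum h1
          _ = ∑ l ∈ pr 0 z, (if l ∈ Icc 1 Y then (1 : ℝ) else 0) +
            (∑ l ∈ pr 0 z, Real.log l / l) / Real.log Y := by rw [sum_add_distrib, sum_div]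
          _ ≤ Y + (Real.log z + 6) / Real.log Y := by
              refine add_le_add ?_ (div_le_div_of_nonneg_right (sum_log hz) hlY.le)
              rw [← sum_filter, sum_const, nsmul_eq_mul, mul_one]
              have : ((pr 0 z).filter (fun l => l ∈ Icc 1 Y)).card ≤ (Icc 1 Y).card :=
                card_le_card fun l hl => (mem_filter.mp hl).2
              rw [Nat.card_Icc] at this
              exact_mod_cast this.trans (by omega)

/-- comparison of the two Euler products -/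
theorem euler_diff {z f : ℕ} (hz : 1 ≤ z) (χ : DirichletCharacter ℂ f) {σ : ℝ} (hσ : 0 < σ) :
    ‖∏ l ∈ pr 0 z, (1 - χ (l : ZMod f) / l) -
      ∏ l ∈ pr 0 z, (1 - χ (l : ZMod f) * (l : ℂ) ^ (-((1 + σ : ℝ) : ℂ)))‖ ≤
      (∏ l ∈ pr 0 z, (1 + 1 / (l : ℝ))) * (σ * (Real.log z + 6)) := by
  have key : ∀ l ∈ pr 0 z, (l : ℂ) ^ (-((1 + σ : ℝ) : ℂ)) = (((l : ℝ) ^ (-(1 + σ)) : ℝ) : ℂ) := by
    intro l _
    rw [Complex.ofReal_cpow (Nat.cast_nonneg l)]
    push_cast
    rfl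
  have hle : ∀ l ∈ pr 0 z, (l : ℝ) ^ (-(1 + σ)) ≤ 1 / l := by
    intro l hl
    have hl1 : (1 : ℝ) ≤ l := by exact_mod_cast (mem_pr0.mp hl).1.pos
    rw [one_div, ← Real.rpow_neg_one]
    exact Real.rpow_le_rpow_of_exponent_le hl1 (by linarith)
  refine (prod_diff (pr 0 z) _ _ (fun l => 1 + 1 / (l : ℝ)) ?_ ?_ ?_).trans ?_
  · intro l _
    have : 0 ≤ 1 / (l : ℝ) := by positivity
    linarith
  · intro l _
    refine (norm_sub_le _ _).trans ?_
    rw [norm_one, norm_div, Complex.norm_natCast]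
    have := χ.norm_le_one (l : ZMod f)
    gcongr
  · intro l hl
    refine (norm_sub_le _ _).trans ?_
    rw [norm_one, norm_mul, key l hl, Complex.norm_real, Real.norm_of_nonneg (by positivity)]
    have h1 := χ.norm_le_one (l : ZMod f)
    have h2 := hle l hl
    have h3 : (0 : ℝ) ≤ (l : ℝ) ^ (-(1 + σ)) := by positivity
    nlinarith [norm_nonneg (χ (l : ZMod f))]
  · refine mul_le_mul_of_nonneg_left ?_ (prod_nonneg fun l _ => by positivity)
    calc _ ≤ ∑ l ∈ pr 0 z, σ * (Real.log l / l) := by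
          refine sum_le_sum fun l hl => ?_
          have hl1 : (1 : ℝ) ≤ l := by exact_mod_cast (mem_pr0.mp hl).1.pos
          have hl0 : (0 : ℝ) < l := by linarith
          have e : (1 - χ (l : ZMod f) / l) - (1 - χ (l : ZMod f) * (l : ℂ) ^ (-((1 + σ : ℝ) : ℂ))) =
              χ (l : ZMod f) * (((l : ℝ) ^ (-(1 + σ)) - 1 / l : ℝ) : ℂ) := by
            rw [key l hl]; push_cast; ring
          rw [e, norm_mul, Complex.norm_real, Real.norm_eq_abs, abs_sub_comm,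
            abs_of_nonneg (by have := hle l hl; linarith)]
          have h1 := χ.norm_le_one (l : ZMod f)
          have h4 : 1 - σ * Real.log l ≤ (l : ℝ) ^ (-σ) := by
            rw [Real.rpow_def_of_pos hl0]
            have := Real.add_one_le_exp (Real.log l * -σ)
            linarith
          have h5 : (l : ℝ) ^ (-(1 + σ)) = (1 / l) * (l : ℝ) ^ (-σ) := by
            rw [show -(1 + σ) = -1 + -σ by ring, Real.rpow_add hl0, Real.rpow_neg_one, one_div]
          have h6 : 1 / (l : ℝ) - (l : ℝ) ^ (-(1 + σ)) ≤ σ * (Real.log l / l) := by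
            rw [h5]
            have : (1 / (l : ℝ)) * (1 - σ * Real.log l) ≤ (1 / l) * (l : ℝ) ^ (-σ) :=
              mul_le_mul_of_nonneg_left h4 (by positivity)
            have e2 : σ * (Real.log l / l) = 1 / (l : ℝ) - (1 / (l : ℝ)) * (1 - σ * Real.log l) := by
              ring
            linarith
          have h7 : 0 ≤ 1 / (l : ℝ) - (l : ℝ) ^ (-(1 + σ)) := by have := hle l hl; linarith
          calc _ ≤ 1 * (1 / (l : ℝ) - (l : ℝ) ^ (-(1 + σ))) := mul_le_mul_of_nonneg_right h1 h7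
            _ ≤ _ := by rw [one_mul]; exact h6
      _ = σ * ∑ l ∈ pr 0 z, Real.log l / l := by rw [mul_sum]
      _ ≤ _ := mul_le_mul_of_nonneg_left (sum_log hz) hσ.le

/-- the difference of the values at `1` and `1 + σ` -/
theorem L_diff {C : ℝ} {f : ℕ} [NeZero f] {χ : DirichletCharacter ℂ f} (hχ : χ ≠ 1)
    (h3 : ∀ s t : ℝ, 1 < s → s ≤ 2 → 1 < t → t ≤ 2 →
      ‖DirichletCharacter.LFunction χ (s : ℂ) - DirichletCharacter.LFunction χ (t : ℂ)‖ ≤
        C * |s - t| * Real.log (f + 2) ^ 2) {σ : ℝ} (hσ : 0 < σ) (hσ1 : σ ≤ 1) :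
    ‖DirichletCharacter.LFunction χ ((1 + σ : ℝ) : ℂ) - DirichletCharacter.LFunction χ 1‖ ≤
      C * σ * Real.log (f + 2) ^ 2 := by
  have hcont : Continuous (fun t : ℝ => DirichletCharacter.LFunction χ (t : ℂ)) :=
    (DirichletCharacter.differentiable_LFunction hχ).continuous.comp Complex.continuous_ofReal
  have hl : Tendsto (fun t : ℝ => ‖DirichletCharacter.LFunction χ ((1 + σ : ℝ) : ℂ) -
      DirichletCharacter.LFunction χ (t : ℂ)‖) (nhdsWithin 1 (Set.Ioi 1))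
      (nhds ‖DirichletCharacter.LFunction χ ((1 + σ : ℝ) : ℂ) -
        DirichletCharacter.LFunction χ ((1 : ℝ) : ℂ)‖) :=
    ((continuous_const.sub hcont).norm.tendsto 1).mono_left nhdsWithin_le_nhds
  have hr : Tendsto (fun t : ℝ => C * |(1 + σ) - t| * Real.log (f + 2) ^ 2)
      (nhdsWithin 1 (Set.Ioi 1)) (nhds (C * |(1 + σ) - 1| * Real.log (f + 2) ^ 2)) := by
    have : Continuous (fun t : ℝ => C * |(1 + σ) - t| * Real.log (f + 2) ^ 2) := by fun_prop
    exact (this.tendsto 1).mono_left nhdsWithin_le_nhds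
  have hev : ∀ᶠ t : ℝ in nhdsWithin 1 (Set.Ioi 1),
      ‖DirichletCharacter.LFunction χ ((1 + σ : ℝ) : ℂ) -
      DirichletCharacter.LFunction χ (t : ℂ)‖ ≤ C * |(1 + σ) - t| * Real.log (f + 2) ^ 2 := by
    have : Set.Ioc (1 : ℝ) 2 ∈ nhdsWithin (1 : ℝ) (Set.Ioi 1) := Ioc_mem_nhdsGT (by norm_num)
    filter_upwards [this] with t ht
    exact h3 (1 + σ) t (by linarith) (by linarith) ht.1 ht.2
  have := le_of_tendsto_of_tendsto hl hr hev
  rw [show (1 + σ) - 1 = σ by ring, abs_of_pos hσ, Complex.ofReal_one] at this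
  exact this

/-- comparison of the points `1` and `1 + σ` -/
theorem cmp {C : ℝ} (hC : 0 ≤ C) {z f : ℕ} (hz : 1 ≤ z) [NeZero f] (hf : f ≤ z)
    {χ : DirichletCharacter ℂ f} (hχ : χ ≠ 1)
    (h1 : ∀ s : ℝ, 1 < s → s ≤ 2 →
      ‖DirichletCharacter.LFunction χ (s : ℂ)‖ ≤ C * Real.log (f + 2))
    (h3 : ∀ s t : ℝ, 1 < s → s ≤ 2 → 1 < t → t ≤ 2 →
      ‖DirichletCharacter.LFunction χ (s : ℂ) - DirichletCharacter.LFunction χ (t : ℂ)‖ ≤
        C * |s - t| * Real.log (f + 2) ^ 2) {σ : ℝ} (hσ : 0 < σ) (hσ1 : σ ≤ 1) :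
    ‖DirichletCharacter.LFunction χ 1 * ∏ l ∈ pr 0 z, (1 - χ (l : ZMod f) / l) - Lj z χ 0 σ‖ ≤
      (∏ l ∈ pr 0 z, (1 + 1 / (l : ℝ))) * (C * σ * Real.log (f + 2) ^ 2 +
        C * Real.log (f + 2) * (σ * (Real.log z + 6))) := by
  have hlz : 0 ≤ Real.log z := Real.log_nonneg (by exact_mod_cast hz)
  rw [Lj_eq hf χ hσ]
  set M := ∏ l ∈ pr 0 z, (1 + 1 / (l : ℝ)) with hM
  have hM0 : 0 ≤ M := prod_nonneg fun l _ => by positivity
  set P := ∏ l ∈ pr 0 z, (1 - χ (l : ZMod f) / l) with hP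
  set P' := ∏ l ∈ pr 0 z, (1 - χ (l : ZMod f) * (l : ℂ) ^ (-((1 + σ : ℝ) : ℂ))) with hP'
  have hPM : ‖P‖ ≤ M := by
    rw [hP, norm_prod]
    refine prod_le_prod (fun _ _ => norm_nonneg _) fun l _ => ?_
    refine (norm_sub_le _ _).trans ?_
    rw [norm_one, norm_div, Complex.norm_natCast]
    have := χ.norm_le_one (l : ZMod f)
    gcongr
  have hPP : ‖P - P'‖ ≤ M * (σ * (Real.log z + 6)) := euler_diff hz χ hσ
  have hLd := L_diff hχ h3 hσ hσ1
  have hL := h1 (1 + σ) (by linarith) (by linarith)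
  have hlf : 0 ≤ Real.log ((f : ℝ) + 2) := Real.log_nonneg (by
    have : (0 : ℝ) ≤ f := Nat.cast_nonneg f
    linarith)
  set A := DirichletCharacter.LFunction χ ((1 + σ : ℝ) : ℂ) with hA
  have e : DirichletCharacter.LFunction χ 1 * P - A * P' =
      A * (P - P') - (A - DirichletCharacter.LFunction χ 1) * P := by ring
  rw [e]
  calc _ ≤ ‖A * (P - P')‖ + ‖(A - DirichletCharacter.LFunction χ 1) * P‖ := norm_sub_le _ _
    _ = ‖A‖ * ‖P - P'‖ + ‖A - DirichletCharacter.LFunction χ 1‖ * ‖P‖ := by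
        rw [norm_mul, norm_mul]
    _ ≤ (C * Real.log (f + 2)) * (M * (σ * (Real.log z + 6))) +
        (C * σ * Real.log (f + 2) ^ 2) * M := by
        refine add_le_add (mul_le_mul hL hPP (norm_nonneg _) (by positivity)) ?_
        exact mul_le_mul hLd hPM (norm_nonneg _) (by positivity)
    _ = _ := by ring

theorem log_add_two {f x : ℕ} (hf : f ≤ x) (hx : 3 ≤ x) :
    Real.log ((f : ℝ) + 2) ≤ 2 * Real.log x := by
  have hx3 : (3 : ℝ) ≤ x := by exact_mod_cast hx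
  have hfx : (f : ℝ) ≤ x := by exact_mod_cast hf
  have hf0 : (0 : ℝ) ≤ f := Nat.cast_nonneg f
  have h1 : Real.log ((f : ℝ) + 2) ≤ Real.log ((x : ℝ) ^ 2) :=
    Real.log_le_log (by linarith) (by nlinarith)
  rw [Real.log_pow] at h1
  exact_mod_cast h1

/-- (A1) -/
theorem a1 : S_A1 := by
  classical
  obtain ⟨C, hC, hL1, -, hL3, -⟩ := Pool.Agent.Erdos456.Lf_bound
  intro ε hε
  set Y : ℕ := ⌈Real.exp 128⌉₊ with hY
  have hYe : Real.exp 128 ≤ Y := Nat.le_ceil _
  have hY2 : 2 ≤ Y := by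
    have h1 : (2 : ℝ) ≤ Y := by
      have := Real.add_one_le_exp (128 : ℝ); linarith
    exact_mod_cast h1
  have hlY : 128 ≤ Real.log Y := by
    rw [Real.le_log_iff_exp_le (lt_of_lt_of_le (Real.exp_pos _) hYe)]; exact hYe
  set K : ℝ := Real.exp (Y + 6) with hK
  have hK0 : 0 < K := Real.exp_pos _
  have hev1 : ∀ᶠ x : ℝ in atTop, Real.log x ^ (2 : ℝ) ≤ (ε / 2 / (36 * (C * K))) * x ^ (1 / 32 : ℝ) := by
    have h := (isLittleO_log_rpow_rpow_atTop 2 (by norm_num : (0 : ℝ) < 1 / 32)).bound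
      (show 0 < ε / 2 / (36 * (C * K)) by positivity)
    filter_upwards [h, eventually_ge_atTop (1 : ℝ)] with x hx hx1
    rwa [Real.norm_of_nonneg (Real.rpow_nonneg (Real.log_nonneg hx1) _),
      Real.norm_of_nonneg (by positivity)] at hx
  have hev2 : ∀ᶠ x : ℝ in atTop, 72 / (ε / 2) ^ 2 ≤ x ^ (1 / 8 : ℝ) :=
    (tendsto_rpow_atTop (by norm_num : (0 : ℝ) < 1 / 8)).eventually_ge_atTop _
  have hev := (hev1.and (hev2.and (eventually_ge_atTop (3 : ℝ))))
  obtain ⟨x₀, hx₀⟩ := (tendsto_natCast_atTop_atTop (R := ℝ)).eventually hev |>.exists_forall_of_atTop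
  refine ⟨x₀, fun x hx => ?_⟩
  obtain ⟨h1, h2, h3⟩ := hx₀ x hx
  have hx3 : 3 ≤ x := by exact_mod_cast h3
  have hx0 : (0 : ℝ) < x := by linarith
  have hx1 : (1 : ℝ) ≤ x := by linarith
  have hL1' : 1 ≤ Real.log x := by
    rw [Real.le_log_iff_exp_le hx0]
    exact (Real.exp_one_lt_d9.le.trans (by norm_num)).trans h3
  set L := Real.log x with hLdef
  set σ : ℝ := (x : ℝ) ^ (-(1 / 16) : ℝ) with hσdef
  have hσ0 : 0 < σ := by positivity
  have hσ1 : σ ≤ 1 := Real.rpow_le_one_of_one_le_of_nonpos hx1 (by norm_num)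
  set z := x ^ 4 with hz
  have hxz : x ≤ z := by rw [hz]; exact Nat.le_self_pow (by norm_num) x
  have hz2 : 2 ≤ z := by omega
  have hz1 : 1 ≤ z := by omega
  have hlz : Real.log z = 4 * L := by
    rw [hz]; push_cast; rw [Real.log_pow]; norm_num; exact hLdef.symm
  have hMle : ∏ l ∈ pr 0 z, (1 + 1 / (l : ℝ)) ≤ K * (x : ℝ) ^ (1 / 32 : ℝ) := by
    refine (prod_le hz1 hY2).trans ?_
    rw [hlz, Real.rpow_def_of_pos hx0, hK, ← Real.exp_add]
    apply Real.exp_le_exp.mpr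
    have h4 : (4 * L + 6) / Real.log Y ≤ (4 * L + 6) / 128 :=
      div_le_div_of_nonneg_left (by linarith) (by norm_num) hlY
    have h5 : Real.log x = L := rfl
    rw [h5]
    linarith
  set B := (Icc 3 x).filter (fun f => ∃ (_ : NeZero f) (χ : DirichletCharacter ℂ f), χ.IsPrimitive ∧
    ε < ‖DirichletCharacter.LFunction χ 1 *
      ∏ l ∈ pr 0 z, (1 - χ (l : ZMod f) / l) - 1‖) with hB
  have hBf : ∀ f ∈ B, 1 ≤ f ∧ f ≤ x := by
    intro f hf
    rw [hB, mem_filter, mem_Icc] at hf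
    omega
  have hex : ∀ f : ℕ, ∃ χ : DirichletCharacter ℂ f, f ∈ B →
      χ.IsPrimitive ∧ ε / 2 < ‖Lj z χ 0 σ - 1‖ := by
    intro f
    by_cases hf : f ∈ B
    · obtain ⟨hf1, hne, χ, hprim, hbig⟩ := mem_filter.mp hf
      rw [mem_Icc] at hf1
      refine ⟨χ, fun _ => ⟨hprim, ?_⟩⟩
      have hχ : χ ≠ 1 := by
        intro h
        have hc : χ.conductor = f := hprim
        rw [h, DirichletCharacter.conductor_one] at hc
        omega
      have hc := cmp (by linarith : (0 : ℝ) ≤ C) hz1 (hf1.2.trans hxz) hχ (hL1 f χ hχ) (hL3 f χ hχ)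
        hσ0 hσ1
      have hlf := log_add_two hf1.2 hx3
      have hlf0 : 0 ≤ Real.log ((f : ℝ) + 2) := Real.log_nonneg (by
        have : (0 : ℝ) ≤ f := Nat.cast_nonneg f
        linarith)
      have hb : (∏ l ∈ pr 0 z, (1 + 1 / (l : ℝ))) * (C * σ * Real.log (f + 2) ^ 2 +
        C * Real.log (f + 2) * (σ * (Real.log z + 6))) ≤ ε / 2 := by
        rw [hlz]
        have e1 : C * σ * Real.log (f + 2) ^ 2 + C * Real.log (f + 2) * (σ * (4 * L + 6)) ≤
            C * σ * (36 * L ^ 2) := by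
          have h6 : Real.log ((f : ℝ) + 2) ^ 2 ≤ (2 * L) ^ 2 := pow_le_pow_left₀ hlf0 hlf 2
          have h7 : Real.log ((f : ℝ) + 2) * (4 * L + 6) ≤ (2 * L) * (4 * L + 6) :=
            mul_le_mul_of_nonneg_right hlf (by linarith)
          have h8 : Real.log ((f : ℝ) + 2) ^ 2 + Real.log ((f : ℝ) + 2) * (4 * L + 6) ≤
              36 * L ^ 2 := by nlinarith
          calc _ = C * σ * (Real.log ((f : ℝ) + 2) ^ 2 + Real.log ((f : ℝ) + 2) * (4 * L + 6)) := by
                ring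
            _ ≤ _ := mul_le_mul_of_nonneg_left h8 (by positivity)
        calc _ ≤ (K * (x : ℝ) ^ (1 / 32 : ℝ)) * (C * σ * (36 * L ^ 2)) :=
              mul_le_mul hMle e1 (by positivity) (by positivity)
          _ = (36 * (C * K)) * (x : ℝ) ^ (-(1 / 32) : ℝ) * L ^ 2 := by
              have : σ * (x : ℝ) ^ (1 / 32 : ℝ) = (x : ℝ) ^ (-(1 / 32) : ℝ) := by
                rw [hσdef, ← Real.rpow_add hx0]; norm_num
              rw [← this]; ring
          _ ≤ (36 * (C * K)) * (x : ℝ) ^ (-(1 / 32) : ℝ) *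
              ((ε / 2 / (36 * (C * K))) * (x : ℝ) ^ (1 / 32 : ℝ)) := by
              refine mul_le_mul_of_nonneg_left ?_ (by positivity)
              have := h1
              rw [Real.rpow_two] at this
              exact this
          _ = (ε / 2) * ((x : ℝ) ^ (-(1 / 32) : ℝ) * (x : ℝ) ^ (1 / 32 : ℝ)) := by
              field_simp
          _ = ε / 2 := by
              rw [← Real.rpow_add hx0]; norm_num
      have htri : ‖DirichletCharacter.LFunction χ 1 *
          ∏ l ∈ pr 0 z, (1 - χ (l : ZMod f) / l) - 1‖ ≤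
          ‖DirichletCharacter.LFunction χ 1 * ∏ l ∈ pr 0 z, (1 - χ (l : ZMod f) / l) - Lj z χ 0 σ‖ +
          ‖Lj z χ 0 σ - 1‖ := by
        have := norm_add_le (DirichletCharacter.LFunction χ 1 *
          ∏ l ∈ pr 0 z, (1 - χ (l : ZMod f) / l) - Lj z χ 0 σ) (Lj z χ 0 σ - 1)
        rwa [sub_add_sub_cancel] at this
      linarith
    · exact ⟨1, fun h => absurd h hf⟩
  choose χ hχ using hex
  have hcard := lsb hz2 (le_of_eq hz.symm) hσ0 hσ1 (by positivity : 0 < ε / 2) B hBf χ hχ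
  refine hcard.trans ?_
  have hσ2 : σ ^ 2 * (x : ℝ) ^ (1 / 8 : ℝ) = 1 := by
    rw [hσdef, ← Real.rpow_natCast, ← Real.rpow_mul hx0.le, ← Real.rpow_add hx0]
    norm_num
  have e2 : (x : ℝ) ^ (1 / 4 : ℝ) = (x : ℝ) ^ (1 / 8 : ℝ) * (x : ℝ) ^ (1 / 8 : ℝ) := by
    rw [← Real.rpow_add hx0]; norm_num
  have e3 : 72 / (σ ^ 2 * (ε / 2) ^ 2) = (72 / (ε / 2) ^ 2) * (x : ℝ) ^ (1 / 8 : ℝ) := by
    have : (x : ℝ) ^ (1 / 8 : ℝ) = 1 / σ ^ 2 := by
      rw [eq_div_iff (by positivity), mul_comm]; exact hσ2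
    rw [this]; field_simp
  rw [e2, e3]
  exact mul_le_mul_of_nonneg_right h2 (by positivity)

end Pool.Agent.H650.QR577

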