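import Pool.Agent.H577.QR.Stm
import Pool.Graph.R_seed8.Helper112.MultLS

/-!
# QR A2 (helper577): the sums `∑ χ(l)/l` over medium primes are small for almost all conductors

The large sieve for the powers of the dyadic blocks.  (by helper603; the combinatorial lemmas are adapted from
`Pool.Graph.R_seed8.Y436.SQ.EXC`)
-/

set_option autoImplicit false

namespace Pool.Agent.H603.QR577

open Finset Filter
open Pool.Agent.H577.QR

/-- tuples of primes with a given product -/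
lemma card_tuples (m : ℕ) (B : Finset ℕ) (hB : ∀ p ∈ B, p.Prime) (n : ℕ) :
    ((Fintype.piFinset (fun _ : Fin m => B)).filter (fun x => ∏ i, x i = n)).card ≤ m ^ m := by
  classical
  rcases Finset.eq_empty_or_nonempty
    ((Fintype.piFinset (fun _ : Fin m => B)).filter (fun x => ∏ i, x i = n)) with h | ⟨x0, hx0⟩
  · rw [h]; simp
  · rw [mem_filter, Fintype.mem_piFinset] at hx0
    obtain ⟨hx0, hn⟩ := hx0
    have key : ((Fintype.piFinset (fun _ : Fin m => B)).filter (fun x => ∏ i, x i = n)) ⊆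
        Fintype.piFinset (fun _ : Fin m => univ.image x0) := by
      intro x hx
      rw [mem_filter, Fintype.mem_piFinset] at hx
      rw [Fintype.mem_piFinset]
      intro i
      have h1 : x i ∣ ∏ k, x0 k := by
        rw [hn, ← hx.2]
        exact Finset.dvd_prod_of_mem x (mem_univ i)
      have hp := hB _ (hx.1 i)
      rw [Prime.dvd_finsetProd_iff hp.prime] at h1
      obtain ⟨k, -, hk⟩ := h1
      rw [Nat.prime_dvd_prime_iff_eq hp (hB _ (hx0 k))] at hk
      rw [mem_image]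
      exact ⟨k, mem_univ _, hk.symm⟩
    refine (card_le_card key).trans ?_
    rw [Fintype.card_piFinset_const]
    refine (Nat.pow_le_pow_left (card_image_le.trans (by simp)) _)

open scoped Classical in
lemma moment (x j m : ℕ) (B : Finset ℕ)
    (hB : ∀ p ∈ B, p.Prime ∧ 2 ^ j ≤ p ∧ p < 2 ^ (j + 1)) :
    ∑ f ∈ Icc 1 x, ∑ χ ∈ (univ : Finset (DirichletCharacter ℂ f)).filter (fun χ => χ.IsPrimitive),
      ‖∑ p ∈ B, χ (p : ZMod f) / p‖ ^ (2 * m) ≤
      6 * ((((2 ^ (j + 1)) ^ m : ℕ) : ℝ) + (x : ℝ) ^ 2) *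
        ((m : ℝ) ^ m * (1 / (2 : ℝ) ^ j) ^ m) := by
  set X := Fintype.piFinset (fun _ : Fin m => B) with hX
  set N : ℕ := (2 ^ (j + 1)) ^ m with hN
  set a : ℕ → ℂ := fun n => ((X.filter (fun x => ∏ i, x i = n)).card : ℂ) / n with ha
  have hXm : ∀ x ∈ X, ∀ i, x i ∈ B := fun x hx => Fintype.mem_piFinset.1 hx
  have hmaps : ∀ x ∈ X, ∏ i, x i ∈ Icc 1 N := by
    intro x hx
    rw [mem_Icc]
    constructor
    · exact Nat.one_le_iff_ne_zero.2
        (prod_ne_zero_iff.2 fun i _ => (hB _ (hXm x hx i)).1.ne_zero)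
    · calc ∏ i, x i ≤ ∏ _i : Fin m, 2 ^ (j + 1) :=
            prod_le_prod' fun i _ => (hB _ (hXm x hx i)).2.2.le
        _ = N := by simp [hN]
  have hpow : ∀ (f : ℕ) (χ : DirichletCharacter ℂ f), (∑ p ∈ B, χ (p : ZMod f) / p) ^ m =
      ∑ n ∈ Icc 1 N, a n * χ (n : ZMod f) := by
    intro f χ
    rw [Finset.sum_pow', ← Finset.sum_fiberwise_of_maps_to hmaps]
    refine sum_congr rfl fun n _ => ?_
    have h1 : ∀ x ∈ X.filter (fun x => ∏ i, x i = n),
        ∏ i, (χ ((x i : ℕ) : ZMod f) / (x i : ℂ)) = χ (n : ZMod f) / n := by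
      intro x hx
      rw [mem_filter] at hx
      rw [Finset.prod_div_distrib, ← hx.2, Nat.cast_prod, Nat.cast_prod, map_prod]
    rw [Finset.sum_congr rfl h1, sum_const, nsmul_eq_mul, ha]
    ring
  have h1 := Pool.Agent.Helper112.mult_large_sieve N x a
  have h2 : ∑ f ∈ Icc 1 x, ∑ χ ∈ (univ : Finset (DirichletCharacter ℂ f)).filter (fun χ => χ.IsPrimitive),
      ‖∑ p ∈ B, χ (p : ZMod f) / p‖ ^ (2 * m) ≤
      ∑ f ∈ Icc 1 x, ((f : ℝ) / (Nat.totient f : ℝ)) *
        ∑ χ ∈ (univ : Finset (DirichletCharacter ℂ f)).filter (fun χ => χ.IsPrimitive),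
        ‖∑ n ∈ Icc 1 N, a n * χ (n : ZMod f)‖ ^ 2 := by
    apply Finset.sum_le_sum
    intro f hf
    rw [mem_Icc] at hf
    have e1 : ∑ χ ∈ (univ : Finset (DirichletCharacter ℂ f)).filter (fun χ => χ.IsPrimitive),
        ‖∑ p ∈ B, χ (p : ZMod f) / p‖ ^ (2 * m) =
        ∑ χ ∈ (univ : Finset (DirichletCharacter ℂ f)).filter (fun χ => χ.IsPrimitive),
        ‖∑ n ∈ Icc 1 N, a n * χ (n : ZMod f)‖ ^ 2 := by
      apply Finset.sum_congr rfl
      intro χ _
      rw [← hpow f χ, norm_pow, ← pow_mul, mul_comm m 2]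
    rw [e1]
    have e2 : (1 : ℝ) ≤ (f : ℝ) / (Nat.totient f : ℝ) := by
      have e3 : 0 < Nat.totient f := Nat.totient_pos.2 (by omega)
      rw [one_le_div (by exact_mod_cast e3)]
      exact_mod_cast Nat.totient_le f
    exact le_mul_of_one_le_left (Finset.sum_nonneg fun _ _ => by positivity) e2
  refine h2.trans (h1.trans (mul_le_mul_of_nonneg_left ?_ (by positivity)))
  -- the sum of the squares of the coefficients
  have h3 : ∀ n ∈ Icc 1 N, ‖a n‖ ^ 2 ≤
      (m : ℝ) ^ m * ∑ x ∈ X.filter (fun x => ∏ i, x i = n), ∏ i, (1 / ((x i : ℝ)) ^ 2) := by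
    intro n _
    have h4 : ∀ x ∈ X.filter (fun x => ∏ i, x i = n),
        ∏ i, (1 / ((x i : ℝ)) ^ 2) = 1 / (n : ℝ) ^ 2 := by
      intro x hx
      rw [mem_filter] at hx
      rw [Finset.prod_div_distrib, prod_const_one, Finset.prod_pow, ← hx.2]
      push_cast
      rfl
    rw [Finset.sum_congr rfl h4, sum_const, nsmul_eq_mul]
    have h5 : ((X.filter (fun x => ∏ i, x i = n)).card : ℝ) ≤ (m : ℝ) ^ m := by
      exact_mod_cast card_tuples m B (fun p hp => (hB p hp).1) n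
    have h6 : (0 : ℝ) ≤ ((X.filter (fun x => ∏ i, x i = n)).card : ℝ) := Nat.cast_nonneg _
    calc ‖a n‖ ^ 2 = ((X.filter (fun x => ∏ i, x i = n)).card : ℝ) *
          (((X.filter (fun x => ∏ i, x i = n)).card : ℝ) * (1 / (n : ℝ) ^ 2)) := by
          simp only [ha]
          rw [norm_div, Complex.norm_natCast, Complex.norm_natCast]
          ring
      _ ≤ _ := mul_le_mul_of_nonneg_right h5 (by positivity)
  calc ∑ n ∈ Icc 1 N, ‖a n‖ ^ 2 ≤ ∑ n ∈ Icc 1 N, (m : ℝ) ^ m *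
        ∑ x ∈ X.filter (fun x => ∏ i, x i = n), ∏ i, (1 / ((x i : ℝ)) ^ 2) := sum_le_sum h3
    _ = (m : ℝ) ^ m * ∑ x ∈ X, ∏ i, (1 / ((x i : ℝ)) ^ 2) := by
        rw [← mul_sum, Finset.sum_fiberwise_of_maps_to hmaps]
    _ = (m : ℝ) ^ m * (∑ p ∈ B, 1 / (p : ℝ) ^ 2) ^ m := by
        rw [Finset.sum_pow' B (fun p : ℕ => 1 / (p : ℝ) ^ 2) m]
    _ ≤ (m : ℝ) ^ m * (1 / (2 : ℝ) ^ j) ^ m := by
        apply mul_le_mul_of_nonneg_left _ (by positivity)
        apply pow_le_pow_left₀ (sum_nonneg fun p _ => by positivity)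
        have h7 : ∀ p ∈ B, 1 / (p : ℝ) ^ 2 ≤ 1 / ((2 : ℝ) ^ j) ^ 2 := by
          intro p hp
          have h8 : (2 : ℝ) ^ j ≤ p := by exact_mod_cast (hB p hp).2.1
          apply one_div_le_one_div_of_le (by positivity)
          exact pow_le_pow_left₀ (by positivity) h8 2
        have h9 : B.card ≤ 2 ^ j := by
          have : B ⊆ Ico (2 ^ j) (2 ^ (j + 1)) := by
            intro p hp
            rw [mem_Ico]
            exact (hB p hp).2
          refine (card_le_card this).trans ?_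
          rw [Nat.card_Ico, pow_succ]
          omega
        have h10 : (B.card : ℝ) ≤ 2 ^ j := by exact_mod_cast h9
        calc ∑ p ∈ B, 1 / (p : ℝ) ^ 2 ≤ ∑ _p ∈ B, 1 / ((2 : ℝ) ^ j) ^ 2 := sum_le_sum h7
          _ = B.card * (1 / ((2 : ℝ) ^ j) ^ 2) := by rw [sum_const, nsmul_eq_mul]
          _ ≤ 2 ^ j * (1 / ((2 : ℝ) ^ j) ^ 2) := mul_le_mul_of_nonneg_right h10 (by positivity)
          _ = 1 / 2 ^ j := by
              field_simp

open scoped Classical in
lemma count (x j m : ℕ) (hm : 1 ≤ m) (hjm : x ^ 2 ≤ (2 ^ j) ^ m)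
    (B : Finset ℕ) (hB : ∀ p ∈ B, p.Prime ∧ 2 ^ j ≤ p ∧ p < 2 ^ (j + 1))
    (lam : ℝ) (hl : 0 < lam) :
    (((Icc 1 x).filter (fun f => ∃ χ : DirichletCharacter ℂ f, χ.IsPrimitive ∧
      lam < ‖∑ p ∈ B, χ (p : ZMod f) / p‖)).card : ℝ) ≤ (18 * m * (1 / lam) ^ 2) ^ m := by
  set F := (Icc 1 x).filter (fun f => ∃ χ : DirichletCharacter ℂ f, χ.IsPrimitive ∧
      lam < ‖∑ p ∈ B, χ (p : ZMod f) / p‖) with hF
  have h1 := moment x j m B hB
  have h2 : (F.card : ℝ) * lam ^ (2 * m) ≤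
      ∑ f ∈ Icc 1 x, ∑ χ ∈ (univ : Finset (DirichletCharacter ℂ f)).filter (fun χ => χ.IsPrimitive),
        ‖∑ p ∈ B, χ (p : ZMod f) / p‖ ^ (2 * m) := by
    calc (F.card : ℝ) * lam ^ (2 * m) = ∑ _h ∈ F, lam ^ (2 * m) := by
          rw [sum_const, nsmul_eq_mul]
      _ ≤ ∑ f ∈ F, ∑ χ ∈ (univ : Finset (DirichletCharacter ℂ f)).filter (fun χ => χ.IsPrimitive),
        ‖∑ p ∈ B, χ (p : ZMod f) / p‖ ^ (2 * m) := by
          apply sum_le_sum
          intro f hf
          obtain ⟨χ, hχ, h3⟩ := (mem_filter.1 hf).2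
          refine le_trans (pow_le_pow_left₀ hl.le h3.le _) ?_
          exact Finset.single_le_sum (f := fun χ : DirichletCharacter ℂ f =>
            ‖∑ p ∈ B, χ (p : ZMod f) / p‖ ^ (2 * m)) (fun _ _ => by positivity)
            (mem_filter.2 ⟨mem_univ χ, hχ⟩)
      _ ≤ _ := by
          apply sum_le_sum_of_subset_of_nonneg (filter_subset _ _)
          intro h _ _
          exact Finset.sum_nonneg fun _ _ => by positivity
  have h4 : 6 * ((((2 ^ (j + 1)) ^ m : ℕ) : ℝ) + (x : ℝ) ^ 2) *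
        ((m : ℝ) ^ m * (1 / (2 : ℝ) ^ j) ^ m) ≤ (18 * m) ^ m := by
    have h5 : (x : ℝ) ^ 2 * (1 / (2 : ℝ) ^ j) ^ m ≤ 1 := by
      have h6 : (x : ℝ) ^ 2 ≤ ((2 : ℝ) ^ j) ^ m := by exact_mod_cast hjm
      rw [one_div, inv_pow, ← div_eq_mul_inv]
      exact (div_le_one (by positivity)).2 h6
    have h6 : ((((2 ^ (j + 1)) ^ m : ℕ) : ℝ)) * (1 / (2 : ℝ) ^ j) ^ m = 2 ^ m := by
      push_cast
      rw [← mul_pow]
      congr 1
      rw [pow_succ]
      field_simp
    have h7 : 6 * ((2 : ℝ) ^ m + 1) ≤ 18 ^ m := by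
      have e : (18 : ℝ) ^ m = 9 ^ m * 2 ^ m := by rw [← mul_pow]; norm_num
      have h8 : (9 : ℝ) ≤ 9 ^ m := by
        calc (9 : ℝ) = 9 ^ 1 := (pow_one _).symm
          _ ≤ 9 ^ m := pow_le_pow_right₀ (by norm_num) hm
      have h9 : (2 : ℝ) ≤ 2 ^ m := by
        calc (2 : ℝ) = 2 ^ 1 := (pow_one _).symm
          _ ≤ 2 ^ m := pow_le_pow_right₀ (by norm_num) hm
      rw [e]
      nlinarith
    calc 6 * ((((2 ^ (j + 1)) ^ m : ℕ) : ℝ) + (x : ℝ) ^ 2) * ((m : ℝ) ^ m * (1 / (2 : ℝ) ^ j) ^ m)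
        = (m : ℝ) ^ m * (6 * (((((2 ^ (j + 1)) ^ m : ℕ) : ℝ) * (1 / (2 : ℝ) ^ j) ^ m) +
          ((x : ℝ) ^ 2 * (1 / (2 : ℝ) ^ j) ^ m))) := by ring
      _ ≤ (m : ℝ) ^ m * (6 * (2 ^ m + 1)) := by
          apply mul_le_mul_of_nonneg_left _ (by positivity)
          rw [h6]
          linarith
      _ ≤ (m : ℝ) ^ m * 18 ^ m := mul_le_mul_of_nonneg_left h7 (by positivity)
      _ = (18 * m) ^ m := by rw [mul_pow]; ring
  have h5 : (F.card : ℝ) * lam ^ (2 * m) ≤ (18 * m) ^ m := h2.trans (h1.trans h4)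
  have h6 : (18 * (m : ℝ) * (1 / lam) ^ 2) ^ m = ((18 * m) ^ m) / lam ^ (2 * m) := by
    rw [mul_pow, ← pow_mul, one_div, inv_pow]
    rw [div_eq_mul_inv]
  rw [h6, le_div_iff₀ (by positivity)]
  exact h5

/-- the conditions on `x` -/
lemma large (δ : ℝ) : ∃ T0 : ℕ, ∀ T : ℕ, T0 ≤ T → 1 ≤ T ∧
    1 ≤ Real.log (Real.log T) ∧ 20 ≤ Real.log T ∧ 882 / δ ^ 2 ≤ Real.log T ∧
    7 * Real.log T ^ 5 ≤ Real.exp (1 / 50 * Real.log T) := by
  have h1 : Filter.Tendsto (fun T : ℕ => Real.log (T : ℝ)) Filter.atTop Filter.atTop :=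
    Real.tendsto_log_atTop.comp tendsto_natCast_atTop_atTop
  have h3 : ∀ᶠ x : ℝ in Filter.atTop, 7 * x ^ 5 ≤ Real.exp (1 / 50 * x) := by
    have h4 := Real.tendsto_mul_exp_add_div_pow_atTop (1 : ℝ) 0 5 one_pos
    have h5 : Tendsto (fun x : ℝ => 1 / 50 * x) atTop atTop :=
      tendsto_id.const_mul_atTop (by norm_num)
    have h6 := (h4.comp h5).eventually_ge_atTop (7 * 50 ^ 5)
    filter_upwards [h6, Filter.eventually_gt_atTop 0] with x hx hx0
    simp only [Function.comp, one_mul, add_zero] at hx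
    rw [le_div_iff₀ (by positivity)] at hx
    calc 7 * x ^ 5 = 7 * 50 ^ 5 * (1 / 50 * x) ^ 5 := by ring
      _ ≤ _ := hx
  have h5 := Real.tendsto_log_atTop.comp h1
  have h6 := (Filter.eventually_ge_atTop 1).and ((h5.eventually_ge_atTop 1).and
    ((h1.eventually_ge_atTop 20).and ((h1.eventually_ge_atTop (882 / δ ^ 2)).and
    (h1.eventually h3))))
  obtain ⟨T0, hT0⟩ := Filter.eventually_atTop.1 h6
  exact ⟨T0, fun T hT => hT0 T hT⟩

open scoped Classical in
theorem a2 : S_A2 := by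
  intro ε hε
  obtain ⟨T0, hT0⟩ := large ε
  refine ⟨T0, fun x hx z hz1 hz2 => ?_⟩
  obtain ⟨hT1, hll, hl20, hlε, hexp⟩ := hT0 x hx
  set l : ℝ := Real.log x with hl
  set ll : ℝ := Real.log l with hlldef
  have hxpos : (0 : ℝ) < x := by exact_mod_cast hT1
  have hlog2 : Real.log 2 ≤ 0.7 := by
    have := Real.log_two_lt_d9
    linarith
  have hlog2' : 0.69 ≤ Real.log 2 := by
    have := Real.log_two_gt_d9
    linarith
  have hlpos : 0 < l := by linarith
  set B := pr z (x ^ 4) with hBdef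
  have hBmem : ∀ p ∈ B, p.Prime ∧ z < p ∧ p ≤ x ^ 4 := by
    intro p hp
    rw [hBdef, pr, mem_filter, mem_Ioc] at hp
    exact ⟨hp.2, hp.1⟩
  set BB : ℕ → Finset ℕ := fun j => B.filter (fun p => Nat.log 2 p = j) with hBB
  have hBBmem : ∀ j, ∀ p ∈ BB j, p.Prime ∧ 2 ^ j ≤ p ∧ p < 2 ^ (j + 1) := by
    intro j p hp
    rw [hBB] at hp
    simp only [mem_filter] at hp
    obtain ⟨h1, rfl⟩ := hp
    refine ⟨(hBmem p h1).1, Nat.pow_log_le_self 2 (hBmem p h1).1.ne_zero,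
      Nat.lt_pow_succ_log_self (by norm_num) p⟩
  -- the range of the blocks
  set n : ℕ := Nat.log 2 (x ^ 4) + 1 with hn
  have hmaps : ∀ p ∈ B, Nat.log 2 p ∈ range n := by
    intro p hp
    rw [mem_range, hn, Nat.lt_succ_iff]
    exact Nat.log_mono_right (hBmem p hp).2.2
  have hnpos : (0 : ℝ) < n := by
    rw [hn]
    positivity
  have hn7 : (n : ℝ) ≤ 7 * l := by
    have h1 : (2 : ℝ) ^ (Nat.log 2 (x ^ 4)) ≤ (x : ℝ) ^ 4 := by
      exact_mod_cast Nat.pow_log_le_self 2 (pow_ne_zero 4 (by omega))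
    have h2 : (Nat.log 2 (x ^ 4) : ℝ) * Real.log 2 ≤ 4 * l := by
      rw [← Real.log_pow, hl]
      have : (4 : ℝ) * Real.log x = Real.log ((x : ℝ) ^ 4) := by
        rw [Real.log_pow]
        norm_num
      rw [this]
      exact Real.log_le_log (by positivity) h1
    have h3 : (0 : ℝ) ≤ (Nat.log 2 (x ^ 4) : ℝ) := Nat.cast_nonneg _
    rw [hn]
    push_cast
    nlinarith
  have hdec : ∀ (f : ℕ) (χ : DirichletCharacter ℂ f), ∑ p ∈ B, χ (p : ZMod f) / (p : ℂ) =
      ∑ j ∈ range n, ∑ p ∈ BB j, χ (p : ZMod f) / (p : ℂ) := by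
    intro f χ
    exact (Finset.sum_fiberwise_of_maps_to hmaps _).symm
  set lam : ℝ := ε / n with hlam
  have hlampos : 0 < lam := by positivity
  have hsub : (Icc 1 x).filter (fun f => ∃ χ : DirichletCharacter ℂ f, χ.IsPrimitive ∧
      ε < ‖∑ p ∈ B, χ (p : ZMod f) / p‖) ⊆
      (range n).biUnion (fun j => (Icc 1 x).filter (fun f => ∃ χ : DirichletCharacter ℂ f, χ.IsPrimitive ∧
      lam < ‖∑ p ∈ BB j, χ (p : ZMod f) / p‖)) := by
    intro f hf
    rw [mem_filter] at hf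
    obtain ⟨hf1, χ, hχ, hf2⟩ := hf
    rw [mem_biUnion]
    by_contra hcon
    simp only [not_exists, not_and] at hcon
    have h1 : ∀ j ∈ range n, ‖∑ p ∈ BB j, χ (p : ZMod f) / (p : ℂ)‖ ≤ lam := by
      intro j hj
      by_contra h2
      rw [not_le] at h2
      exact hcon j hj (mem_filter.2 ⟨hf1, χ, hχ, h2⟩)
    have h2 : ‖∑ p ∈ B, χ (p : ZMod f) / (p : ℂ)‖ ≤ ε := by
      rw [hdec f χ]
      refine (norm_sum_le _ _).trans ((sum_le_sum h1).trans ?_)
      rw [sum_const, card_range, nsmul_eq_mul, hlam]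
      exact (mul_div_cancel₀ ε hnpos.ne').le
    exact absurd hf2 (not_lt.2 h2)
  -- the bound for one block
  have hblock : ∀ j ∈ range n, (((Icc 1 x).filter (fun f => ∃ χ : DirichletCharacter ℂ f, χ.IsPrimitive ∧
      lam < ‖∑ p ∈ BB j, χ (p : ZMod f) / p‖)).card : ℝ) ≤ Real.exp (12 / 25 * l + 4 * ll) := by
    intro j hj
    rcases (BB j).eq_empty_or_nonempty with hemp | ⟨p, hp⟩
    · have : (Icc 1 x).filter (fun f => ∃ χ : DirichletCharacter ℂ f, χ.IsPrimitive ∧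
          lam < ‖∑ p ∈ BB j, χ (p : ZMod f) / p‖) = ∅ := by
        rw [filter_eq_empty_iff]
        rintro f _ ⟨χ, -, h⟩
        rw [hemp, sum_empty, norm_zero] at h
        linarith
      rw [this, card_empty, Nat.cast_zero]
      positivity
    -- the block is not empty
    have hpB : p ∈ B := (mem_filter.1 hp).1
    obtain ⟨-, hp1, hp2⟩ := hBBmem j p hp
    have hpz := (hBmem p hpB).2.1
    have hjlow : 25 * ll ≤ j := by
      have h1 : l ^ 20 < 2 ^ (j + 1) := by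
        refine lt_of_le_of_lt hz1 ?_
        exact_mod_cast hpz.trans hp2
      have h2 : 20 * ll < (j + 1 : ℕ) * Real.log 2 := by
        rw [← Real.log_pow]
        calc 20 * ll = Real.log (l ^ 20) := by
              rw [Real.log_pow, ← hlldef]
              norm_num
          _ < Real.log (2 ^ (j + 1)) := Real.log_lt_log (by positivity) h1
      push_cast at h2
      have h3 : (0 : ℝ) ≤ j := Nat.cast_nonneg j
      nlinarith
    have hj1 : 1 ≤ j := by
      have h1 : (0 : ℝ) < j := by linarith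
      exact_mod_cast h1
    have hj1' : (1 : ℝ) ≤ j := by exact_mod_cast hj1
    -- the exponent
    set L : ℕ := Nat.log 2 x + 1 with hL
    have hTL : x < 2 ^ L := Nat.lt_pow_succ_log_self (by norm_num) x
    have hL3 : (L : ℝ) ≤ 3 / 2 * l := by
      have h1 : (2 : ℝ) ^ (Nat.log 2 x) ≤ x := by
        exact_mod_cast Nat.pow_log_le_self 2 (by omega)
      have h2 : (Nat.log 2 x : ℝ) * Real.log 2 ≤ l := by
        rw [← Real.log_pow]
        exact Real.log_le_log (by positivity) h1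
      have h3 : (0 : ℝ) ≤ (Nat.log 2 x : ℝ) := Nat.cast_nonneg _
      rw [hL]
      push_cast
      nlinarith
    set m : ℕ := 2 * L / j + 1 with hm
    have hjm : x ^ 2 ≤ (2 ^ j) ^ m := by
      have h1 : 2 * L < j * m := Nat.lt_mul_div_succ (2 * L) (by omega)
      calc x ^ 2 ≤ (2 ^ L) ^ 2 := Nat.pow_le_pow_left hTL.le 2
        _ = 2 ^ (2 * L) := by rw [← pow_mul, mul_comm]
        _ ≤ 2 ^ (j * m) := Nat.pow_le_pow_right (by norm_num) h1.le
        _ = (2 ^ j) ^ m := by rw [pow_mul]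
    refine (count x j m (Nat.le_add_left 1 _) hjm (BB j) (hBBmem j) lam hlampos).trans ?_
    have hm0 : ((2 * L / j : ℕ) : ℝ) * (25 * ll) ≤ 3 * l := by
      have h1 : ((2 * L / j : ℕ) : ℝ) * j ≤ 2 * L := by
        exact_mod_cast Nat.div_mul_le_self (2 * L) j
      have h2 : ((2 * L / j : ℕ) : ℝ) * (25 * ll) ≤ ((2 * L / j : ℕ) : ℝ) * j :=
        mul_le_mul_of_nonneg_left hjlow (Nat.cast_nonneg _)
      linarith
    have hm1 : (m : ℝ) * ll ≤ 3 / 25 * l + ll := by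
      rw [hm]
      push_cast
      linarith
    have hm2 : (m : ℝ) ≤ l := by
      have h1 : (0 : ℝ) ≤ ((2 * L / j : ℕ) : ℝ) := Nat.cast_nonneg _
      have h2 : ((2 * L / j : ℕ) : ℝ) * 25 ≤ 3 * l := by nlinarith
      rw [hm]
      push_cast
      linarith
    have hbase : 18 * (m : ℝ) * (1 / lam) ^ 2 ≤ l ^ 4 := by
      have h1 : (1 / lam) ^ 2 = (n : ℝ) ^ 2 / ε ^ 2 := by
        rw [hlam, one_div_div, div_pow]
      have h2 : (n : ℝ) ^ 2 ≤ (7 * l) ^ 2 := pow_le_pow_left₀ hnpos.le hn7 2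
      have h3 : 882 ≤ l * ε ^ 2 := by
        rwa [div_le_iff₀ (by positivity)] at hlε
      rw [h1, ← mul_div_assoc, div_le_iff₀ (by positivity)]
      calc 18 * (m : ℝ) * (n : ℝ) ^ 2 ≤ 18 * l * (7 * l) ^ 2 := by
            apply mul_le_mul _ h2 (by positivity) (by positivity)
            linarith
        _ = 882 * l ^ 3 := by ring
        _ ≤ (l * ε ^ 2) * l ^ 3 := mul_le_mul_of_nonneg_right h3 (by positivity)
        _ = l ^ 4 * ε ^ 2 := by ring
    calc (18 * (m : ℝ) * (1 / lam) ^ 2) ^ m ≤ (l ^ 4) ^ m :=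
          pow_le_pow_left₀ (by positivity) hbase m
      _ = Real.exp (4 * (m * ll)) := by
          rw [← pow_mul]
          conv_lhs => rw [← Real.exp_log hlpos, ← hlldef]
          rw [← Real.exp_nat_mul]
          push_cast
          ring_nf
      _ ≤ Real.exp (12 / 25 * l + 4 * ll) := by
          apply Real.exp_le_exp.2
          linarith
  -- all blocks
  have hcard : (((Icc 1 x).filter (fun f => ∃ χ : DirichletCharacter ℂ f, χ.IsPrimitive ∧
      ε < ‖∑ p ∈ B, χ (p : ZMod f) / p‖)).card : ℝ) ≤ n * Real.exp (12 / 25 * l + 4 * ll) := by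
    have h1 := (card_le_card hsub).trans card_biUnion_le
    calc (((Icc 1 x).filter (fun f => ∃ χ : DirichletCharacter ℂ f, χ.IsPrimitive ∧
          ε < ‖∑ p ∈ B, χ (p : ZMod f) / p‖)).card : ℝ)
        ≤ ((∑ j ∈ range n, ((Icc 1 x).filter (fun f => ∃ χ : DirichletCharacter ℂ f, χ.IsPrimitive ∧
          lam < ‖∑ p ∈ BB j, χ (p : ZMod f) / p‖)).card : ℕ) : ℝ) := by
          exact_mod_cast h1
      _ = ∑ j ∈ range n, (((Icc 1 x).filter (fun f => ∃ χ : DirichletCharacter ℂ f, χ.IsPrimitive ∧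
          lam < ‖∑ p ∈ BB j, χ (p : ZMod f) / p‖)).card : ℝ) := by push_cast; rfl
      _ ≤ ∑ _j ∈ range n, Real.exp (12 / 25 * l + 4 * ll) := sum_le_sum hblock
      _ = n * Real.exp (12 / 25 * l + 4 * ll) := by rw [sum_const, nsmul_eq_mul, card_range]
  refine hcard.trans ?_
  calc (n : ℝ) * Real.exp (12 / 25 * l + 4 * ll) ≤ 7 * l * Real.exp (12 / 25 * l + 4 * ll) :=
        mul_le_mul_of_nonneg_right hn7 (by positivity)
    _ = (7 * l ^ 5) * Real.exp (12 / 25 * l) := by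
        have h1 : Real.exp (4 * ll) = l ^ 4 := by
          rw [mul_comm, Real.exp_mul, hlldef, Real.exp_log hlpos]
          norm_cast
        rw [Real.exp_add, h1]
        ring
    _ ≤ Real.exp (1 / 50 * l) * Real.exp (12 / 25 * l) :=
        mul_le_mul_of_nonneg_right hexp (by positivity)
    _ = Real.exp (1 / 2 * l) := by
        rw [← Real.exp_add]
        congr 1
        ring
    _ = (x : ℝ) ^ (1 / 2 : ℝ) := by
        rw [Real.rpow_def_of_pos hxpos, mul_comm]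

end Pool.Agent.H603.QR577
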