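import Mathlib
import Pool.Agent.H577.QR.Stm

/-!
Project QR of helper577, task BOX (helper657): the mean square inequality with Selberg's weights
in a box.
-/

set_option autoImplicit false

namespace Pool.Agent.H657.QR577

open Finset
open Pool.Agent.H577.QR
open Pool.Agent.W78.GA (Sp gd S_SELB)

/-! ### periodic functions in a box -/

theorem per_mul {E : Type*} (g : ℕ → E) (M : ℕ) (h : ∀ a, g (a + M) = g a) (k x : ℕ) :
    g (k * M + x) = g x := by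
  induction k with
  | zero => simp
  | succ k ih =>
    have : (k + 1) * M + x = (k * M + x) + M := by ring
    rw [this, h, ih]

theorem sum_per {E : Type*} [AddCommMonoid E] (g : ℕ → E) (M : ℕ) (h : ∀ a, g (a + M) = g a)
    (k : ℕ) : ∑ a ∈ range (k * M), g a = k • ∑ a ∈ range M, g a := by
  induction k with
  | zero => simp
  | succ k ih =>
    rw [Nat.succ_mul, Finset.sum_range_add, ih, succ_nsmul]
    congr 1
    exact Finset.sum_congr rfl fun x _ => per_mul g M h k x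

theorem sum_per2 (F : ℕ → ℕ → ℂ) (M : ℕ) (h1 : ∀ a b, F (a + M) b = F a b)
    (h2 : ∀ a b, F a (b + M) = F a b) (k : ℕ) :
    ∑ v ∈ range (k * M) ×ˢ range (k * M), F v.1 v.2 =
      (k : ℂ) ^ 2 * ∑ a ∈ range M, ∑ b ∈ range M, F a b := by
  rw [Finset.sum_product]
  have e1 : ∀ a, ∑ b ∈ range (k * M), F a b = (k : ℂ) * ∑ b ∈ range M, F a b := by
    intro a
    rw [sum_per (fun b => F a b) M (fun b => h2 a b) k, nsmul_eq_mul]
  simp only [e1]
  rw [← Finset.mul_sum, sum_per (fun a => ∑ b ∈ range M, F a b) M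
    (fun a => Finset.sum_congr rfl fun b _ => h1 a b) k, nsmul_eq_mul]
  ring

theorem box_sum (F : ℕ → ℕ → ℂ) (M X : ℕ) (hM : 0 < M) (hF : ∀ a b, ‖F a b‖ ≤ 1)
    (h1 : ∀ a b, F (a + M) b = F a b) (h2 : ∀ a b, F a (b + M) = F a b) :
    ‖∑ v ∈ range X ×ˢ range X, F v.1 v.2 -
      ((X / M : ℕ) : ℂ) ^ 2 * ∑ a ∈ range M, ∑ b ∈ range M, F a b‖ ≤ 2 * X * M := by
  set k := X / M with hk
  have hkX : k * M ≤ X := Nat.div_mul_le_self X M
  have hkX2 : X ≤ k * M + M := by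
    have := Nat.lt_div_mul_add (a := X) hM
    rw [← hk] at this
    omega
  have hsub : range (k * M) ×ˢ range (k * M) ⊆ range X ×ˢ range X :=
    Finset.product_subset_product (Finset.range_subset_range.2 hkX)
      (Finset.range_subset_range.2 hkX)
  rw [← sum_per2 F M h1 h2 k, ← Finset.sum_sdiff hsub, add_sub_cancel_right]
  calc ‖∑ v ∈ (range X ×ˢ range X) \ (range (k * M) ×ˢ range (k * M)), F v.1 v.2‖
      ≤ ∑ v ∈ (range X ×ˢ range X) \ (range (k * M) ×ˢ range (k * M)), ‖F v.1 v.2‖ :=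
        norm_sum_le _ _
    _ ≤ ∑ v ∈ (range X ×ˢ range X) \ (range (k * M) ×ˢ range (k * M)), (1 : ℝ) :=
        Finset.sum_le_sum fun v _ => hF _ _
    _ = (((range X ×ˢ range X) \ (range (k * M) ×ˢ range (k * M))).card : ℝ) := by simp
    _ = (X : ℝ) ^ 2 - ((k * M : ℕ) : ℝ) ^ 2 := by
        rw [Finset.card_sdiff_of_subset hsub, Nat.cast_sub (Finset.card_le_card hsub)]
        simp only [Finset.card_product, Finset.card_range]
        push_cast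
        ring
    _ ≤ 2 * X * M := by
        have a1 : ((k * M : ℕ) : ℝ) ≤ X := by exact_mod_cast hkX
        have a2 : (X : ℝ) ≤ ((k * M : ℕ) : ℝ) + M := by exact_mod_cast hkX2
        have a3 : (0 : ℝ) ≤ ((k * M : ℕ) : ℝ) := by positivity
        nlinarith [mul_nonneg (sub_nonneg.2 a1) (sub_nonneg.2 a1)]

/-! ### the form -/

theorem Qf_per1 (t c : ℤ) (l M : ℕ) (h : l ∣ M) (a b : ℤ) :
    (l : ℤ) ∣ Qf t c (a + M) b ↔ (l : ℤ) ∣ Qf t c a b := by
  have hl : (l : ℤ) ∣ (M : ℤ) := by exact_mod_cast h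
  have e : Qf t c (a + M) b = Qf t c a b + M * (2 * a + M + t * b) := by
    unfold Qf; ring
  rw [e]
  exact dvd_add_left (hl.mul_right _)

theorem Qf_per2 (t c : ℤ) (l M : ℕ) (h : l ∣ M) (a b : ℤ) :
    (l : ℤ) ∣ Qf t c a (b + M) ↔ (l : ℤ) ∣ Qf t c a b := by
  have hl : (l : ℤ) ∣ (M : ℤ) := by exact_mod_cast h
  have e : Qf t c a (b + M) = Qf t c a b + M * (t * a + c * (2 * b + M)) := by
    unfold Qf; ring
  rw [e]
  exact dvd_add_left (hl.mul_right _)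

theorem perZ {E : Type*} (f : ℤ → E) (m : ℕ) (h : ∀ a, f (a + m) = f a) (k : ℕ) (a : ℤ) :
    f (a + (k * m : ℕ)) = f a := by
  induction k with
  | zero => simp
  | succ k ih =>
    have : a + ((k + 1) * m : ℕ) = (a + (k * m : ℕ)) + m := by push_cast; ring
    rw [this, h, ih]

open Classical in
theorem off (t c : ℤ) (f g : ℤ → ℤ → ℂ) (m m' l X : ℕ) (hm : 0 < m) (hm' : 0 < m') (hl : 0 < l)
    (hf : ∀ a b, ‖f a b‖ ≤ 1) (hg : ∀ a b, ‖g a b‖ ≤ 1)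
    (pf : ∀ a b : ℤ, f (a + m) b = f a b ∧ f a (b + m) = f a b)
    (pg : ∀ a b : ℤ, g (a + m') b = g a b ∧ g a (b + m') = g a b)
    (h0 : ∑ a ∈ range (m * m' * l), ∑ b ∈ range (m * m' * l),
      (if (l : ℤ) ∣ Qf t c a b then f a b * (starRingEnd ℂ) (g a b) else 0) = 0) :
    ‖∑ v ∈ range X ×ˢ range X, (if (l : ℤ) ∣ Qf t c v.1 v.2 then
      f v.1 v.2 * (starRingEnd ℂ) (g v.1 v.2) else 0)‖ ≤ 2 * X * (m * m' * l : ℕ) := by
  have e1 : m * m' * l = (m' * l) * m := by ring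
  have e2 : m * m' * l = (m * l) * m' := by ring
  have hM : 0 < m * m' * l := by positivity
  have hd : l ∣ m * m' * l := Dvd.intro_left _ rfl
  have key := box_sum (fun a b : ℕ => if (l : ℤ) ∣ Qf t c a b then
      f a b * (starRingEnd ℂ) (g a b) else 0) (m * m' * l) X hM ?_ ?_ ?_
  · rw [h0, mul_zero, sub_zero] at key
    exact key
  · intro a b
    show ‖(if (l : ℤ) ∣ Qf t c a b then f a b * (starRingEnd ℂ) (g a b) else 0 : ℂ)‖ ≤ 1
    split_ifs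
    · rw [norm_mul, RCLike.norm_conj]
      exact mul_le_one₀ (hf _ _) (norm_nonneg _) (hg _ _)
    · simp
  · intro a b
    show (if (l : ℤ) ∣ Qf t c ((a + m * m' * l : ℕ) : ℤ) b then
      f ((a + m * m' * l : ℕ) : ℤ) b * (starRingEnd ℂ) (g ((a + m * m' * l : ℕ) : ℤ) b) else 0) =
      if (l : ℤ) ∣ Qf t c a b then f a b * (starRingEnd ℂ) (g a b) else 0
    have q1 : f ((a + m * m' * l : ℕ) : ℤ) b = f a b := by
      rw [Nat.cast_add, e1]
      exact perZ (fun x => f x b) m (fun x => (pf x b).1) (m' * l) a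
    have q2 : g ((a + m * m' * l : ℕ) : ℤ) b = g a b := by
      rw [Nat.cast_add, e2]
      exact perZ (fun x => g x b) m' (fun x => (pg x b).1) (m * l) a
    have q3 : (l : ℤ) ∣ Qf t c ((a + m * m' * l : ℕ) : ℤ) b ↔ (l : ℤ) ∣ Qf t c a b := by
      rw [Nat.cast_add]
      exact Qf_per1 t c l _ hd a b
    rw [q1, q2]
    simp only [q3]
  · intro a b
    show (if (l : ℤ) ∣ Qf t c a ((b + m * m' * l : ℕ) : ℤ) then
      f a ((b + m * m' * l : ℕ) : ℤ) * (starRingEnd ℂ) (g a ((b + m * m' * l : ℕ) : ℤ)) else 0) =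
      if (l : ℤ) ∣ Qf t c a b then f a b * (starRingEnd ℂ) (g a b) else 0
    have q1 : f a ((b + m * m' * l : ℕ) : ℤ) = f a b := by
      rw [Nat.cast_add, e1]
      exact perZ (fun x => f a x) m (fun x => (pf a x).2) (m' * l) b
    have q2 : g a ((b + m * m' * l : ℕ) : ℤ) = g a b := by
      rw [Nat.cast_add, e2]
      exact perZ (fun x => g a x) m' (fun x => (pg a x).2) (m * l) b
    have q3 : (l : ℤ) ∣ Qf t c a ((b + m * m' * l : ℕ) : ℤ) ↔ (l : ℤ) ∣ Qf t c a b := by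
      rw [Nat.cast_add]
      exact Qf_per2 t c l _ hd a b
    rw [q1, q2]
    simp only [q3]

theorem gd_nonneg (d : ℕ) : 0 ≤ gd d := by
  unfold gd
  refine Finset.prod_nonneg fun p hp => ?_
  have : (1 : ℝ) ≤ p := by exact_mod_cast (Nat.prime_of_mem_primeFactors hp).one_lt.le
  exact div_nonneg (by linarith) (by positivity)

theorem gd_le_one (d : ℕ) : gd d ≤ 1 := by
  unfold gd
  refine Finset.prod_le_one (fun p hp => ?_) fun p hp => ?_
  · have : (1 : ℝ) ≤ p := by exact_mod_cast (Nat.prime_of_mem_primeFactors hp).one_lt.le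
    exact div_nonneg (by linarith) (by positivity)
  · have : (1 : ℝ) ≤ p := by exact_mod_cast (Nat.prime_of_mem_primeFactors hp).one_lt.le
    rw [div_le_one (by positivity)]
    nlinarith [sq_nonneg ((p : ℝ) - 1)]

open Classical in
theorem cnt_box (t c : ℤ) (hC : S_CNT t c) (l X : ℕ) (hl : 0 < l) (hs : Squarefree l)
    (hp : ∀ p : ℕ, p.Prime → p ∣ l → Sp t c p) :
    |(((range X ×ˢ range X).filter (fun v : ℕ × ℕ => (l : ℤ) ∣ Qf t c v.1 v.2)).card : ℝ) -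
      (X : ℝ) ^ 2 * gd l| ≤ 4 * X * l := by
  have key := box_sum (fun a b : ℕ => if (l : ℤ) ∣ Qf t c a b then (1 : ℂ) else 0) l X hl ?_ ?_ ?_
  · have c1 : ∑ v ∈ range X ×ˢ range X, (if (l : ℤ) ∣ Qf t c v.1 v.2 then (1 : ℂ) else 0) =
        ((((range X ×ˢ range X).filter
          (fun v : ℕ × ℕ => (l : ℤ) ∣ Qf t c v.1 v.2)).card : ℝ) : ℂ) := by
      rw [Finset.sum_boole]
      norm_cast
    have c2 : ∑ a ∈ range l, ∑ b ∈ range l, (if (l : ℤ) ∣ Qf t c a b then (1 : ℂ) else 0) =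
        (((l : ℝ) ^ 2 * gd l : ℝ) : ℂ) := by
      rw [← hC l hs hp, ← Finset.sum_product', Finset.sum_boole]
      norm_cast
    rw [c1, c2] at key
    have key2 : |(((range X ×ˢ range X).filter
        (fun v : ℕ × ℕ => (l : ℤ) ∣ Qf t c v.1 v.2)).card : ℝ) -
        ((X / l : ℕ) : ℝ) ^ 2 * ((l : ℝ) ^ 2 * gd l)| ≤ 2 * X * l := by
      have hcast : ((((((range X ×ˢ range X).filter
          (fun v : ℕ × ℕ => (l : ℤ) ∣ Qf t c v.1 v.2)).card : ℝ)) : ℂ) -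
          ((X / l : ℕ) : ℂ) ^ 2 * (((l : ℝ) ^ 2 * gd l : ℝ) : ℂ)) =
          (((((range X ×ˢ range X).filter
          (fun v : ℕ × ℕ => (l : ℤ) ∣ Qf t c v.1 v.2)).card : ℝ) -
          ((X / l : ℕ) : ℝ) ^ 2 * ((l : ℝ) ^ 2 * gd l) : ℝ) : ℂ) := by
        push_cast
        ring
      rw [hcast, Complex.norm_real, Real.norm_eq_abs] at key
      exact key
    have a0 : ((X / l : ℕ) : ℝ) * l ≤ X := by exact_mod_cast Nat.div_mul_le_self X l
    have a1 : (X : ℝ) ≤ ((X / l : ℕ) : ℝ) * l + l := by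
      have := Nat.lt_div_mul_add (a := X) hl
      exact_mod_cast this.le
    have a2 : (0 : ℝ) ≤ ((X / l : ℕ) : ℝ) * l := by positivity
    have g0 := gd_nonneg l
    have g1 := gd_le_one l
    set k : ℝ := ((X / l : ℕ) : ℝ) with hk
    have b1 : 0 ≤ (X : ℝ) ^ 2 - (k * l) ^ 2 := by nlinarith
    have b2 : (X : ℝ) ^ 2 - (k * l) ^ 2 ≤ 2 * X * l := by
      nlinarith [mul_nonneg (sub_nonneg.2 a0) (sub_nonneg.2 a0)]
    have b3 : |((X : ℝ) ^ 2 - (k * l) ^ 2) * gd l| ≤ 2 * X * l := by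
      rw [abs_of_nonneg (mul_nonneg b1 g0)]
      calc ((X : ℝ) ^ 2 - (k * l) ^ 2) * gd l ≤ ((X : ℝ) ^ 2 - (k * l) ^ 2) * 1 :=
            mul_le_mul_of_nonneg_left g1 b1
        _ ≤ _ := by linarith
    calc |(((range X ×ˢ range X).filter
          (fun v : ℕ × ℕ => (l : ℤ) ∣ Qf t c v.1 v.2)).card : ℝ) - (X : ℝ) ^ 2 * gd l|
        = |((((range X ×ˢ range X).filter
          (fun v : ℕ × ℕ => (l : ℤ) ∣ Qf t c v.1 v.2)).card : ℝ) - k ^ 2 * ((l : ℝ) ^ 2 * gd l)) -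
          ((X : ℝ) ^ 2 - (k * l) ^ 2) * gd l| := by congr 1; ring
      _ ≤ |(((range X ×ˢ range X).filter
          (fun v : ℕ × ℕ => (l : ℤ) ∣ Qf t c v.1 v.2)).card : ℝ) - k ^ 2 * ((l : ℝ) ^ 2 * gd l)| +
          |((X : ℝ) ^ 2 - (k * l) ^ 2) * gd l| := abs_sub _ _
      _ ≤ 4 * X * l := by linarith
  · intro a b
    show ‖(if (l : ℤ) ∣ Qf t c a b then (1 : ℂ) else 0)‖ ≤ 1
    split_ifs <;> simp
  · intro a b
    show (if (l : ℤ) ∣ Qf t c ((a + l : ℕ) : ℤ) b then (1 : ℂ) else 0) =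
      if (l : ℤ) ∣ Qf t c a b then (1 : ℂ) else 0
    have q3 : (l : ℤ) ∣ Qf t c ((a + l : ℕ) : ℤ) b ↔ (l : ℤ) ∣ Qf t c a b := by
      rw [Nat.cast_add]
      exact Qf_per1 t c l _ dvd_rfl a b
    simp only [q3]
  · intro a b
    show (if (l : ℤ) ∣ Qf t c a ((b + l : ℕ) : ℤ) then (1 : ℂ) else 0) =
      if (l : ℤ) ∣ Qf t c a b then (1 : ℂ) else 0
    have q3 : (l : ℤ) ∣ Qf t c a ((b + l : ℕ) : ℤ) ↔ (l : ℤ) ∣ Qf t c a b := by
      rw [Nat.cast_add]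
      exact Qf_per2 t c l _ dvd_rfl a b
    simp only [q3]

/-! ### the weights -/

section weights

variable (t c : ℤ) (D : ℕ) (w : ℕ → ℝ)

open Classical in
/-- the square of the sum of the weights of the divisors of `Qf t c v` -/
noncomputable def Wt (v : ℕ × ℕ) : ℝ :=
  (∑ d ∈ Icc 1 D, if (d : ℤ) ∣ Qf t c v.1 v.2 then w d else 0) ^ 2

theorem Wt_nonneg (v : ℕ × ℕ) : 0 ≤ Wt t c D w v := sq_nonneg _

theorem Wt_one (h1 : w 1 = 1) (hD : 2 ≤ D) (v : ℕ × ℕ)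
    (h : ∀ e : ℕ, 1 < e → e ≤ D → ¬ (e : ℤ) ∣ Qf t c v.1 v.2) : Wt t c D w v = 1 := by
  unfold Wt
  rw [Finset.sum_eq_single 1]
  · simp [h1]
  · intro d hd hd1
    rw [Finset.mem_Icc] at hd
    rw [if_neg (h d (by omega) hd.2)]
  · intro h'
    exact absurd (Finset.mem_Icc.2 ⟨le_rfl, by omega⟩) h'

open Classical in
theorem Wt_eq (v : ℕ × ℕ) : Wt t c D w v = ∑ d ∈ Icc 1 D, ∑ e ∈ Icc 1 D,
    w d * w e * (if (Nat.lcm d e : ℤ) ∣ Qf t c v.1 v.2 then 1 else 0) := by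
  unfold Wt
  rw [sq, Finset.sum_mul_sum]
  refine Finset.sum_congr rfl fun d _ => Finset.sum_congr rfl fun e _ => ?_
  have h : (Nat.lcm d e : ℤ) ∣ Qf t c v.1 v.2 ↔
      (d : ℤ) ∣ Qf t c v.1 v.2 ∧ (e : ℤ) ∣ Qf t c v.1 v.2 := by
    rw [Int.natCast_dvd, Int.natCast_dvd, Int.natCast_dvd, Nat.lcm_dvd_iff]
  by_cases h1 : (d : ℤ) ∣ Qf t c v.1 v.2
  · by_cases h2 : (e : ℤ) ∣ Qf t c v.1 v.2
    · rw [if_pos h1, if_pos h2, if_pos (h.2 ⟨h1, h2⟩), mul_one]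
    · rw [if_neg h2, if_neg (fun hh => h2 (h.1 hh).2), mul_zero, mul_zero]
  · rw [if_neg h1, if_neg (fun hh => h1 (h.1 hh).1), mul_zero, zero_mul]

open Classical in
theorem Wt_sum (B : Finset (ℕ × ℕ)) (F : ℕ × ℕ → ℂ) :
    ∑ v ∈ B, ((Wt t c D w v : ℝ) : ℂ) * F v = ∑ d ∈ Icc 1 D, ∑ e ∈ Icc 1 D,
      ((w d * w e : ℝ) : ℂ) *
        ∑ v ∈ B, (if (Nat.lcm d e : ℤ) ∣ Qf t c v.1 v.2 then F v else 0) := by
  calc ∑ v ∈ B, ((Wt t c D w v : ℝ) : ℂ) * F v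
      = ∑ v ∈ B, ∑ d ∈ Icc 1 D, ∑ e ∈ Icc 1 D, ((w d * w e : ℝ) : ℂ) *
          (if (Nat.lcm d e : ℤ) ∣ Qf t c v.1 v.2 then F v else 0) := by
        refine Finset.sum_congr rfl fun v _ => ?_
        rw [Wt_eq]
        push_cast
        rw [Finset.sum_mul]
        refine Finset.sum_congr rfl fun d _ => ?_
        rw [Finset.sum_mul]
        refine Finset.sum_congr rfl fun e _ => ?_
        split_ifs <;> simp
    _ = _ := by
        rw [Finset.sum_comm]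
        refine Finset.sum_congr rfl fun d _ => ?_
        rw [Finset.sum_comm]
        refine Finset.sum_congr rfl fun e _ => ?_
        rw [Finset.mul_sum]

end weights

theorem squarefree_lcm {d e : ℕ} (hd : Squarefree d) (he : Squarefree e) :
    Squarefree (Nat.lcm d e) := by
  have hd0 := hd.ne_zero
  have he0 := he.ne_zero
  rw [Nat.squarefree_iff_factorization_le_one (Nat.lcm_ne_zero hd0 he0)]
  intro p
  rw [Nat.factorization_lcm hd0 he0]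
  simp only [Finsupp.sup_apply]
  exact sup_le (((Nat.squarefree_iff_factorization_le_one hd0).1 hd) p)
    (((Nat.squarefree_iff_factorization_le_one he0).1 he) p)

/-- the hypotheses on the weights -/
structure Good (t c : ℤ) (D : ℕ) (C : ℝ) (w : ℕ → ℝ) : Prop where
  one : w 1 = 1
  le : ∀ d, |w d| ≤ 1
  supp : ∀ d, w d ≠ 0 → 1 ≤ d ∧ d ≤ D ∧ Squarefree d ∧ ∀ p : ℕ, p.Prime → p ∣ d → Sp t c p
  nn : 0 ≤ ∑ d ∈ Icc 1 D, ∑ e ∈ Icc 1 D, w d * w e * gd (Nat.lcm d e)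
  up : ∑ d ∈ Icc 1 D, ∑ e ∈ Icc 1 D, w d * w e * gd (Nat.lcm d e) ≤ C / Real.log D

theorem Good.lcm {t c : ℤ} {D : ℕ} {C : ℝ} {w : ℕ → ℝ} (h : Good t c D C w) {d e : ℕ}
    (hde : w d * w e ≠ 0) : 0 < Nat.lcm d e ∧ Nat.lcm d e ≤ D ^ 2 ∧ Squarefree (Nat.lcm d e) ∧
      ∀ p : ℕ, p.Prime → p ∣ Nat.lcm d e → Sp t c p := by
  obtain ⟨d1, d2, d3, d4⟩ := h.supp d (left_ne_zero_of_mul hde)
  obtain ⟨e1, e2, e3, e4⟩ := h.supp e (right_ne_zero_of_mul hde)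
  refine ⟨Nat.lcm_pos (by omega) (by omega), ?_, squarefree_lcm d3 e3, ?_⟩
  · calc Nat.lcm d e ≤ d * e := Nat.le_of_dvd (by positivity) (Nat.lcm_dvd_mul d e)
      _ ≤ D * D := Nat.mul_le_mul d2 e2
      _ = D ^ 2 := by ring
  · intro p hp hpd
    rcases (Nat.Prime.dvd_lcm hp).1 hpd with h' | h'
    · exact d4 p hp h'
    · exact e4 p hp h'

theorem Good.abs_sum {t c : ℤ} {D : ℕ} {C : ℝ} {w : ℕ → ℝ} (h : Good t c D C w) (R : ℝ)
    (hR : 0 ≤ R) (G : ℕ → ℕ → ℝ) (hG : ∀ d e, w d * w e ≠ 0 → G d e ≤ R) :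
    ∑ d ∈ Icc 1 D, ∑ e ∈ Icc 1 D, |w d * w e| * G d e ≤ (D : ℝ) ^ 2 * R := by
  calc ∑ d ∈ Icc 1 D, ∑ e ∈ Icc 1 D, |w d * w e| * G d e
      ≤ ∑ d ∈ Icc 1 D, ∑ e ∈ Icc 1 D, R := by
        refine Finset.sum_le_sum fun d _ => Finset.sum_le_sum fun e _ => ?_
        by_cases h0 : w d * w e = 0
        · rw [h0]; simpa using hR
        · have a1 : |w d * w e| ≤ 1 := by
            rw [abs_mul]
            exact mul_le_one₀ (h.le d) (abs_nonneg _) (h.le e)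
          calc |w d * w e| * G d e ≤ |w d * w e| * R :=
                mul_le_mul_of_nonneg_left (hG d e h0) (abs_nonneg _)
            _ ≤ 1 * R := mul_le_mul_of_nonneg_right a1 hR
            _ = R := one_mul R
    _ = (D : ℝ) ^ 2 * R := by
        simp only [Finset.sum_const, Nat.card_Icc, Nat.add_sub_cancel, nsmul_eq_mul]
        ring

open Classical in
theorem diag {t c : ℤ} {D : ℕ} {C : ℝ} {w : ℕ → ℝ} (h : Good t c D C w) (hC : S_CNT t c)
    (X : ℕ) : ∑ v ∈ range X ×ˢ range X, Wt t c D w v ≤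
      C * X ^ 2 / Real.log D + 4 * X * D ^ 4 := by
  have e1 : ∑ v ∈ range X ×ˢ range X, Wt t c D w v = ∑ d ∈ Icc 1 D, ∑ e ∈ Icc 1 D,
      w d * w e * (((range X ×ˢ range X).filter
        (fun v : ℕ × ℕ => (Nat.lcm d e : ℤ) ∣ Qf t c v.1 v.2)).card : ℝ) := by
    simp only [Wt_eq]
    rw [Finset.sum_comm]
    refine Finset.sum_congr rfl fun d _ => ?_
    rw [Finset.sum_comm]
    refine Finset.sum_congr rfl fun e _ => ?_
    rw [← Finset.mul_sum, Finset.sum_boole]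
  rw [e1]
  have e2 : ∀ d e : ℕ, w d * w e * (((range X ×ˢ range X).filter
        (fun v : ℕ × ℕ => (Nat.lcm d e : ℤ) ∣ Qf t c v.1 v.2)).card : ℝ) ≤
      (X : ℝ) ^ 2 * (w d * w e * gd (Nat.lcm d e)) +
        |w d * w e| * (4 * X * (Nat.lcm d e : ℝ)) := by
    intro d e
    by_cases h0 : w d * w e = 0
    · rw [h0]; simp
    · obtain ⟨l1, l2, l3, l4⟩ := h.lcm h0
      have := cnt_box t c hC (Nat.lcm d e) X l1 l3 l4
      have a1 : w d * w e * ((((range X ×ˢ range X).filter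
        (fun v : ℕ × ℕ => (Nat.lcm d e : ℤ) ∣ Qf t c v.1 v.2)).card : ℝ) -
          (X : ℝ) ^ 2 * gd (Nat.lcm d e)) ≤ |w d * w e| * (4 * X * (Nat.lcm d e : ℝ)) := by
        refine (le_abs_self _).trans ?_
        rw [abs_mul]
        exact mul_le_mul_of_nonneg_left this (abs_nonneg _)
      linarith
  calc ∑ d ∈ Icc 1 D, ∑ e ∈ Icc 1 D, w d * w e * (((range X ×ˢ range X).filter
        (fun v : ℕ × ℕ => (Nat.lcm d e : ℤ) ∣ Qf t c v.1 v.2)).card : ℝ)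
      ≤ ∑ d ∈ Icc 1 D, ∑ e ∈ Icc 1 D, ((X : ℝ) ^ 2 * (w d * w e * gd (Nat.lcm d e)) +
        |w d * w e| * (4 * X * (Nat.lcm d e : ℝ))) :=
        Finset.sum_le_sum fun d _ => Finset.sum_le_sum fun e _ => e2 d e
    _ = (X : ℝ) ^ 2 * ∑ d ∈ Icc 1 D, ∑ e ∈ Icc 1 D, w d * w e * gd (Nat.lcm d e) +
        ∑ d ∈ Icc 1 D, ∑ e ∈ Icc 1 D, |w d * w e| * (4 * X * (Nat.lcm d e : ℝ)) := by
        simp only [Finset.sum_add_distrib, Finset.mul_sum]
    _ ≤ (X : ℝ) ^ 2 * (C / Real.log D) + (D : ℝ) ^ 2 * (4 * X * (D : ℝ) ^ 2) := by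
        refine add_le_add (mul_le_mul_of_nonneg_left h.up (by positivity)) ?_
        refine h.abs_sum _ (by positivity) (fun d e => 4 * X * (Nat.lcm d e : ℝ)) ?_
        intro d e h0
        obtain ⟨l1, l2, l3, l4⟩ := h.lcm h0
        have : (Nat.lcm d e : ℝ) ≤ (D : ℝ) ^ 2 := by exact_mod_cast l2
        exact mul_le_mul_of_nonneg_left this (by positivity)
    _ = _ := by ring

open Classical in
theorem offW {t c : ℤ} {D : ℕ} {C : ℝ} {w : ℕ → ℝ} (h : Good t c D C w) (f g : ℤ → ℤ → ℂ)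
    (m m' K X : ℕ) (hm : 0 < m) (hm' : 0 < m') (hK : m ≤ K) (hK' : m' ≤ K)
    (hf : ∀ a b, ‖f a b‖ ≤ 1) (hg : ∀ a b, ‖g a b‖ ≤ 1)
    (pf : ∀ a b : ℤ, f (a + m) b = f a b ∧ f a (b + m) = f a b)
    (pg : ∀ a b : ℤ, g (a + m') b = g a b ∧ g a (b + m') = g a b)
    (h0 : ∀ d : ℕ, Squarefree d → (∀ p : ℕ, p.Prime → p ∣ d → Sp t c p) →
      ∑ a ∈ range (m * m' * d), ∑ b ∈ range (m * m' * d),
      (if (d : ℤ) ∣ Qf t c a b then f a b * (starRingEnd ℂ) (g a b) else 0) = 0) :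
    ‖∑ v ∈ range X ×ˢ range X, ((Wt t c D w v : ℝ) : ℂ) *
      (f v.1 v.2 * (starRingEnd ℂ) (g v.1 v.2))‖ ≤ 2 * X * K ^ 2 * D ^ 4 := by
  rw [Wt_sum t c D w (range X ×ˢ range X)
    (fun v => f v.1 v.2 * (starRingEnd ℂ) (g v.1 v.2))]
  set I : ℕ → ℕ → ℂ := fun d e => ∑ v ∈ range X ×ˢ range X,
    (if (Nat.lcm d e : ℤ) ∣ Qf t c v.1 v.2 then f v.1 v.2 * (starRingEnd ℂ) (g v.1 v.2) else 0)
    with hI
  have key : ∑ d ∈ Icc 1 D, ∑ e ∈ Icc 1 D, |w d * w e| * ‖I d e‖ ≤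
      (D : ℝ) ^ 2 * (2 * X * K ^ 2 * D ^ 2) := by
    refine h.abs_sum _ (by positivity) (fun d e => ‖I d e‖) ?_
    intro d e hde
    obtain ⟨l1, l2, l3, l4⟩ := h.lcm hde
    refine (off t c f g m m' (Nat.lcm d e) X hm hm' l1 hf hg pf pg
      (h0 (Nat.lcm d e) l3 l4)).trans ?_
    have a1 : (m : ℝ) ≤ K := by exact_mod_cast hK
    have a2 : (m' : ℝ) ≤ K := by exact_mod_cast hK'
    have a3 : (Nat.lcm d e : ℝ) ≤ (D : ℝ) ^ 2 := by exact_mod_cast l2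
    have a4 : (m : ℝ) * m' * (Nat.lcm d e : ℝ) ≤ K * K * (D : ℝ) ^ 2 := by
      gcongr
    calc 2 * (X : ℝ) * ((m * m' * Nat.lcm d e : ℕ) : ℝ)
        = 2 * X * ((m : ℝ) * m' * (Nat.lcm d e : ℝ)) := by push_cast; ring
      _ ≤ 2 * X * (K * K * (D : ℝ) ^ 2) := mul_le_mul_of_nonneg_left a4 (by positivity)
      _ = 2 * X * K ^ 2 * D ^ 2 := by ring
  calc ‖∑ d ∈ Icc 1 D, ∑ e ∈ Icc 1 D, ((w d * w e : ℝ) : ℂ) * I d e‖
      ≤ ∑ d ∈ Icc 1 D, ∑ e ∈ Icc 1 D, |w d * w e| * ‖I d e‖ := by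
        refine (norm_sum_le _ _).trans (Finset.sum_le_sum fun d _ => ?_)
        refine (norm_sum_le _ _).trans (Finset.sum_le_sum fun e _ => ?_)
        rw [norm_mul, Complex.norm_real, Real.norm_eq_abs]
    _ ≤ _ := key
    _ = _ := by ring

/-- **Task BOX.** -/
theorem box {t c : ℤ} (h : S_SELB t c) (hc : S_CNT t c) : S_BOX t c := by
  classical
  obtain ⟨C, hC0, hw⟩ := h
  refine ⟨C, hC0, ?_⟩
  intro X D K hD hX hK N f m hm hf hp h0 c' P hP hP2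
  obtain ⟨w, w1, wle, wsupp, wnn, wup⟩ := hw D hD
  have hG : Good t c D C w := ⟨w1, wle, wsupp, wnn, wup⟩
  have hlog : 0 < Real.log D := Real.log_pos (by exact_mod_cast (by omega : 1 < D))
  set S : ℕ × ℕ → ℂ := fun v => ∑ n ∈ N, c' n * f n v.1 v.2 with hS
  set B : ℝ := C * X ^ 2 / Real.log D + 4 * X * D ^ 4 with hB
  set R : ℝ := 2 * X * K ^ 2 * D ^ 4 with hR
  have hB0 : 0 ≤ B := by rw [hB]; positivity
  have hR0 : 0 ≤ R := by rw [hR]; positivity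
  set T : ℕ → ℕ → ℂ := fun n n' => ∑ v ∈ range X ×ˢ range X, ((Wt t c D w v : ℝ) : ℂ) *
      (f n v.1 v.2 * (starRingEnd ℂ) (f n' v.1 v.2)) with hT
  have s1 : ∑ v ∈ P, ‖S v‖ ^ 2 ≤ ∑ v ∈ range X ×ˢ range X, Wt t c D w v * ‖S v‖ ^ 2 := by
    calc ∑ v ∈ P, ‖S v‖ ^ 2 = ∑ v ∈ P, Wt t c D w v * ‖S v‖ ^ 2 := by
          refine Finset.sum_congr rfl fun v hv => ?_
          rw [Wt_one t c D w w1 hD v (hP2 v hv), one_mul]
      _ ≤ _ := Finset.sum_le_sum_of_subset_of_nonneg hP fun v _ _ =>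
          mul_nonneg (Wt_nonneg _ _ _ _ _) (sq_nonneg _)
  have s2 : ((∑ v ∈ range X ×ˢ range X, Wt t c D w v * ‖S v‖ ^ 2 : ℝ) : ℂ) =
      ∑ n ∈ N, ∑ n' ∈ N, c' n * (starRingEnd ℂ) (c' n') * T n n' := by
    have e1 : ∀ v : ℕ × ℕ, ((Wt t c D w v * ‖S v‖ ^ 2 : ℝ) : ℂ) = ∑ n ∈ N, ∑ n' ∈ N,
        c' n * (starRingEnd ℂ) (c' n') * (((Wt t c D w v : ℝ) : ℂ) *
          (f n v.1 v.2 * (starRingEnd ℂ) (f n' v.1 v.2))) := by
      intro v
      have : ((‖S v‖ ^ 2 : ℝ) : ℂ) = S v * (starRingEnd ℂ) (S v) := by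
        rw [Complex.mul_conj, Complex.normSq_eq_norm_sq]
      rw [Complex.ofReal_mul, this, hS]
      simp only [map_sum, map_mul]
      rw [Finset.sum_mul_sum, Finset.mul_sum]
      refine Finset.sum_congr rfl fun n _ => ?_
      rw [Finset.mul_sum]
      refine Finset.sum_congr rfl fun n' _ => ?_
      ring
    rw [Complex.ofReal_sum]
    rw [Finset.sum_congr rfl fun v _ => e1 v, Finset.sum_comm]
    refine Finset.sum_congr rfl fun n _ => ?_
    rw [Finset.sum_comm]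
    refine Finset.sum_congr rfl fun n' _ => ?_
    rw [hT, Finset.mul_sum]
  have s3 : ∀ n ∈ N, ∀ n' ∈ N, ‖T n n'‖ ≤ (if n = n' then B else 0) + R := by
    intro n hn n' hn'
    by_cases hnn : n = n'
    · subst hnn
      rw [if_pos rfl]
      have : ‖T n n‖ ≤ B := by
        calc ‖T n n‖ ≤ ∑ v ∈ range X ×ˢ range X, Wt t c D w v := by
              refine (norm_sum_le _ _).trans (Finset.sum_le_sum fun v _ => ?_)
              rw [norm_mul, Complex.norm_real, Real.norm_eq_abs,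
                abs_of_nonneg (Wt_nonneg _ _ _ _ _), norm_mul, RCLike.norm_conj]
              calc Wt t c D w v * (‖f n v.1 v.2‖ * ‖f n v.1 v.2‖) ≤ Wt t c D w v * 1 :=
                    mul_le_mul_of_nonneg_left
                      (mul_le_one₀ (hf n hn _ _) (norm_nonneg _) (hf n hn _ _))
                      (Wt_nonneg _ _ _ _ _)
                _ = _ := mul_one _
          _ ≤ B := diag hG hc X
      linarith
    · rw [if_neg hnn, zero_add]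
      exact offW hG (f n) (f n') (m n) (m n') K X (hm n hn).1 (hm n' hn').1 (hm n hn).2
        (hm n' hn').2 (hf n hn) (hf n' hn') (hp n hn) (hp n' hn') (h0 n hn n' hn' hnn)
  have s4 : ∑ v ∈ range X ×ˢ range X, Wt t c D w v * ‖S v‖ ^ 2 ≤
      B * ∑ n ∈ N, ‖c' n‖ ^ 2 + R * (∑ n ∈ N, ‖c' n‖) ^ 2 := by
    have n0 : 0 ≤ ∑ v ∈ range X ×ˢ range X, Wt t c D w v * ‖S v‖ ^ 2 :=
      Finset.sum_nonneg fun v _ => mul_nonneg (Wt_nonneg _ _ _ _ _) (sq_nonneg _)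
    rw [← abs_of_nonneg n0, ← Real.norm_eq_abs, ← Complex.norm_real, s2]
    calc ‖∑ n ∈ N, ∑ n' ∈ N, c' n * (starRingEnd ℂ) (c' n') * T n n'‖
        ≤ ∑ n ∈ N, ∑ n' ∈ N, ‖c' n‖ * ‖c' n'‖ * ((if n = n' then B else 0) + R) := by
          refine (norm_sum_le _ _).trans (Finset.sum_le_sum fun n hn => ?_)
          refine (norm_sum_le _ _).trans (Finset.sum_le_sum fun n' hn' => ?_)
          rw [norm_mul, norm_mul, RCLike.norm_conj]
          exact mul_le_mul_of_nonneg_left (s3 n hn n' hn') (by positivity)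
      _ = B * ∑ n ∈ N, ‖c' n‖ ^ 2 + R * (∑ n ∈ N, ‖c' n‖) ^ 2 := by
          simp only [mul_add, Finset.sum_add_distrib]
          congr 1
          · rw [Finset.mul_sum]
            refine Finset.sum_congr rfl fun n hn => ?_
            simp only [mul_ite, mul_zero]
            rw [Finset.sum_ite_eq, if_pos hn]
            ring
          · rw [sq, Finset.sum_mul_sum, Finset.mul_sum]
            refine Finset.sum_congr rfl fun n hn => ?_
            rw [Finset.mul_sum]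
            refine Finset.sum_congr rfl fun n' hn' => ?_
            ring
  have n1 : 0 ≤ (∑ n ∈ N, ‖c' n‖) ^ 2 := sq_nonneg _
  calc ∑ v ∈ P, ‖∑ n ∈ N, c' n * f n v.1 v.2‖ ^ 2
      ≤ B * ∑ n ∈ N, ‖c' n‖ ^ 2 + R * (∑ n ∈ N, ‖c' n‖) ^ 2 := s1.trans s4
    _ ≤ B * ∑ n ∈ N, ‖c' n‖ ^ 2 + (4 * X * K ^ 2 * D ^ 4) * (∑ n ∈ N, ‖c' n‖) ^ 2 := by
        have : R ≤ 4 * X * K ^ 2 * D ^ 4 := by
          rw [hR]
          have : (0 : ℝ) ≤ X * K ^ 2 * D ^ 4 := by positivity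
          linarith
        have := mul_le_mul_of_nonneg_right this n1
        linarith

end Pool.Agent.H657.QR577
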