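import Pool.Agent.H577.QR.Stm2

set_option autoImplicit false

/-!
# Project QR (helper577), part CMB: few patterns have a given sum of logarithms
-/

namespace Pool.Agent.H722.QR577

open Finset Filter

/-- the `u`-th root of unity -/
noncomputable def ee (d u : ℕ) : ℂ :=
  Complex.exp (2 * Real.pi * Complex.I * (u : ℂ) / d)

theorem ee_eq (d u : ℕ) : ee d u = Complex.exp (2 * Real.pi * Complex.I / d) ^ u := by
  unfold ee
  rw [← Complex.exp_nat_mul]
  congr 1
  ring

theorem ee_pow {d : ℕ} (hd : 0 < d) (u : ℕ) : ee d u ^ d = 1 := by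
  rw [ee_eq, ← pow_mul, mul_comm u d, pow_mul, (Complex.isPrimitiveRoot_exp d hd.ne').pow_eq_one,
    one_pow]

theorem ee_inj {d : ℕ} (hd : 0 < d) {u v : ℕ} (hu : u < d) (hv : v < d) (h : ee d u = ee d v) :
    u = v := by
  rw [ee_eq, ee_eq] at h
  exact (Complex.isPrimitiveRoot_exp d hd.ne').pow_inj hu hv h

theorem ee_norm {d : ℕ} (hd : 0 < d) (u : ℕ) : (ee d u).re ^ 2 + (ee d u).im ^ 2 = 1 := by
  have h1 : ‖ee d u‖ = 1 := Complex.norm_eq_one_of_pow_eq_one (ee_pow hd u) hd.ne'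
  have h2 := Complex.sq_norm (ee d u)
  rw [h1, Complex.normSq_apply] at h2
  nlinarith

open scoped Classical in
theorem card_re {d : ℕ} (hd : 0 < d) (r : ℝ) :
    ((univ : Finset (Fin d)).filter fun x : Fin d => (ee d (x : ℕ)).re = r).card ≤ 2 := by
  have h1 : ((univ : Finset (Fin d)).filter fun x : Fin d => (ee d (x : ℕ)).re = r).card ≤
      ({√(1 - r ^ 2), -√(1 - r ^ 2)} : Finset ℝ).card := by
    refine Finset.card_le_card_of_injOn (fun x : Fin d => (ee d (x : ℕ)).im) ?_ ?_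
    · intro x hx
      rw [Finset.mem_coe, Finset.mem_filter] at hx
      have h2 := ee_norm hd x
      rw [hx.2] at h2
      have h3 : (ee d x).im ^ 2 = 1 - r ^ 2 := by linarith
      rw [Finset.mem_coe, Finset.mem_insert, Finset.mem_singleton, ← h3, Real.sqrt_sq_eq_abs]
      rcases abs_choice (ee d x).im with h | h
      · exact Or.inl h.symm
      · exact Or.inr (by rw [h, neg_neg])
    · intro x hx y hy hxy
      rw [Finset.mem_coe, Finset.mem_filter] at hx hy
      exact Fin.ext (ee_inj hd x.2 y.2 (Complex.ext (hx.2.trans hy.2.symm) hxy))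
  exact h1.trans Finset.card_le_two

/-- the values of a pattern -/
noncomputable def ww {d : ℕ} {Q : Finset ℕ} (u : Q → Fin d) (l : ℕ) : ℂ :=
  if h : l ∈ Q then ee d (u ⟨l, h⟩) else 1

theorem ww_pow {d : ℕ} (hd : 0 < d) {Q : Finset ℕ} (u : Q → Fin d) (l : ℕ) : ww u l ^ d = 1 := by
  unfold ww
  split_ifs with h
  · exact ee_pow hd _
  · exact one_pow _

theorem ww_of {d : ℕ} {Q : Finset ℕ} (u : Q → Fin d) (l : ℕ) (h : l ∈ Q) :
    ww u l = ee d (u ⟨l, h⟩) := dif_pos h

theorem sum_ww {d : ℕ} {Q : Finset ℕ} (u : Q → Fin d) :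
    ∑ l : Q, Real.log ‖1 - Complex.exp (2 * Real.pi * Complex.I * ((u l : ℕ) : ℂ) / d) /
      ((l : ℕ) : ℂ)‖ = ∑ l ∈ Q, Real.log ‖1 - ww u l / l‖ := by
  rw [← Finset.sum_coe_sort Q (fun l : ℕ => Real.log ‖1 - ww u l / l‖)]
  refine Finset.sum_congr rfl fun l _ => ?_
  rw [ww_of u l l.2]
  rfl

theorem cmb : Pool.Agent.H577.QR.S_CMB := by
  classical
  intro d Q T γ a hd hT hγ hLAC
  have hcard : Fintype.card (((Q \ T : Finset ℕ) : Type) → Fin d) = d ^ (Q.card - T.card) := by
    rw [Fintype.card_fun, Fintype.card_fin, Fintype.card_coe, Finset.card_sdiff_of_subset hT]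
  set F := (univ : Finset (Q → Fin d)).filter (fun u => |∑ l : Q,
    Real.log ‖1 - Complex.exp (2 * Real.pi * Complex.I * ((u l : ℕ) : ℂ) / d) / ((l : ℕ) : ℂ)‖ - a| ≤
      γ / 2) with hF
  let ρ : (Q → Fin d) → (((Q \ T : Finset ℕ) : Type) → Fin d) :=
    fun u l => u ⟨l.1, (Finset.mem_sdiff.1 l.2).1⟩
  have hmain : F.card ≤ 2 ^ T.card * (univ : Finset (((Q \ T : Finset ℕ) : Type) → Fin d)).card := by
    refine Finset.card_le_mul_card_image_of_maps_to (f := ρ) (fun u _ => Finset.mem_univ _) _ ?_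
    intro v _
    rcases (F.filter fun u => ρ u = v).eq_empty_or_nonempty with h | ⟨u0, hu0⟩
    · rw [h, Finset.card_empty]
      exact Nat.zero_le _
    rw [Finset.mem_filter] at hu0
    have hre : ∀ u ∈ F.filter (fun u => ρ u = v), ∀ l ∈ T, (ww u l).re = (ww u0 l).re := by
      intro u hu
      rw [Finset.mem_filter] at hu
      refine hLAC (ww u) (ww u0) (fun l _ => ⟨ww_pow hd u l, ww_pow hd u0 l⟩) ?_
      have e1 := hu.1
      have e2 := hu0.1
      rw [hF, Finset.mem_filter, sum_ww] at e1 e2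
      have e3 := Finset.sum_sdiff hT (f := fun l : ℕ => Real.log ‖1 - ww u l / l‖)
      have e4 := Finset.sum_sdiff hT (f := fun l : ℕ => Real.log ‖1 - ww u0 l / l‖)
      have e5 : ∑ l ∈ Q \ T, Real.log ‖1 - ww u l / l‖ =
          ∑ l ∈ Q \ T, Real.log ‖1 - ww u0 l / l‖ := by
        refine Finset.sum_congr rfl fun l hl => ?_
        have hlQ := (Finset.mem_sdiff.1 hl).1
        have e6 : ρ u ⟨l, hl⟩ = ρ u0 ⟨l, hl⟩ := by rw [hu.2, hu0.2]
        have e7 : u ⟨l, hlQ⟩ = u0 ⟨l, hlQ⟩ := e6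
        rw [ww_of u l hlQ, ww_of u0 l hlQ, e7]
      have e8 := abs_le.1 e1.2
      have e9 := abs_le.1 e2.2
      rw [abs_le]
      constructor
      · linarith [e8.1, e9.2]
      · linarith [e8.2, e9.1]
    have h2 : (F.filter fun u => ρ u = v).card ≤ (Fintype.piFinset fun l : T =>
        (univ : Finset (Fin d)).filter fun x : Fin d => (ee d (x : ℕ)).re = (ww u0 l).re).card := by
      refine Finset.card_le_card_of_injOn (fun u l => u ⟨l.1, hT l.2⟩) ?_ ?_
      · intro u hu
        rw [Finset.mem_coe] at hu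
        rw [Finset.mem_coe, Fintype.mem_piFinset]
        intro l
        rw [Finset.mem_filter]
        refine ⟨Finset.mem_univ _, ?_⟩
        have e1 := hre u hu l.1 l.2
        rw [ww_of u l.1 (hT l.2)] at e1
        exact e1
      · intro u hu u' hu' huu
        rw [Finset.mem_coe, Finset.mem_filter] at hu hu'
        funext l
        by_cases hl : l.1 ∈ T
        · exact congrFun huu ⟨l.1, hl⟩
        · have e1 : ρ u ⟨l.1, Finset.mem_sdiff.2 ⟨l.2, hl⟩⟩ =
              ρ u' ⟨l.1, Finset.mem_sdiff.2 ⟨l.2, hl⟩⟩ := by rw [hu.2, hu'.2]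
          exact e1
    refine h2.trans ?_
    rw [Fintype.card_piFinset]
    refine (Finset.prod_le_pow_card _ _ 2 (fun l _ => card_re hd _)).trans ?_
    rw [Finset.card_univ, Fintype.card_coe]
  rw [Finset.card_univ, hcard] at hmain
  exact_mod_cast hmain

end Pool.Agent.H722.QR577

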