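import Mathlib

/-!
# Bernoulli numbers modulo `p` and half sums of powers
-/

set_option autoImplicit false

namespace Pool.Agent.H870.QR577

open Finset

/-- small Bernoulli numbers are `p`-integral -/
theorem norm_bern {p : ℕ} [hp : Fact p.Prime] (i : ℕ) (hi : i + 1 < p) :
    padicNorm p (bernoulli i) ≤ 1 := by
  induction i using Nat.strong_induction_on with
  | _ i ih =>
    have h1 := sum_bernoulli (i + 1)
    rw [sum_range_succ] at h1
    have h2 : (((i + 1 : ℕ).choose i : ℕ) : ℚ) = ((i + 1 : ℕ) : ℚ) := by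
      rw [Nat.choose_succ_self_right]
    rw [h2] at h1
    have h3 : padicNorm p ((i + 1 : ℕ) : ℚ) = 1 := by
      rw [padicNorm.nat_eq_one_iff]
      intro hd
      have := Nat.le_of_dvd (Nat.succ_pos i) hd
      omega
    have h4 : ((i + 1 : ℕ) : ℚ) * bernoulli i =
        (if i + 1 = 1 then 1 else 0) -
          ∑ k ∈ range i, ((i + 1).choose k : ℚ) * bernoulli k := by
      rw [← h1]; ring
    have h5 : padicNorm p (((i + 1 : ℕ) : ℚ) * bernoulli i) ≤ 1 := by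
      rw [h4]
      refine le_trans padicNorm.sub (max_le ?_ ?_)
      · split_ifs
        · rw [padicNorm.one]
        · rw [padicNorm.zero]; exact zero_le_one
      · apply padicNorm.sum_le' _ zero_le_one
        intro k hk
        rw [mem_range] at hk
        rw [padicNorm.mul]
        exact mul_le_one₀ (padicNorm.of_nat _) (padicNorm.nonneg _) (ih k hk (by omega))
    rwa [padicNorm.mul, h3, one_mul] at h5

/-- the power sum over the full range is divisible by `p ^ 2` -/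
theorem sq_dvd_sum {p : ℕ} [hp : Fact p.Prime] (k : ℕ) (hk : k + 1 < p)
    (hB : (p : ℤ) ∣ (bernoulli k).num) :
    ((p ^ 2 : ℕ) : ℤ) ∣ ∑ a ∈ range p, (a : ℤ) ^ k := by
  rw [padicNorm.dvd_iff_norm_le]
  have h1 := sum_range_pow p k
  have h0 : ((∑ a ∈ range p, (a : ℤ) ^ k : ℤ) : ℚ) = ∑ a ∈ range p, (a : ℚ) ^ k := by
    push_cast; rfl
  rw [h0, h1]
  have hp0 : (0 : ℚ) < p := by exact_mod_cast hp.1.pos
  have hp1 : (1 : ℚ) ≤ p := by exact_mod_cast hp.1.one_lt.le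
  have hk1 : padicNorm p ((k : ℚ) + 1) = 1 := by
    have : ((k : ℚ) + 1) = ((k + 1 : ℕ) : ℚ) := by push_cast; rfl
    rw [this, padicNorm.nat_eq_one_iff]
    intro hd
    have := Nat.le_of_dvd (Nat.succ_pos k) hd
    omega
  have hpp : padicNorm p (p : ℚ) = (p : ℚ)⁻¹ := padicNorm.padicNorm_p_of_prime
  have hpow : ∀ m : ℕ, padicNorm p ((p : ℚ) ^ m) = ((p : ℚ)⁻¹) ^ m := by
    intro m
    induction m with
    | zero => rw [pow_zero, pow_zero, padicNorm.one]
    | succ m ih => rw [pow_succ, padicNorm.mul, ih, hpp, pow_succ]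
  have hinv : (p : ℚ) ^ (-((2 : ℕ) : ℤ)) = ((p : ℚ)⁻¹) ^ 2 := by
    rw [zpow_neg, zpow_natCast, inv_pow]
  rw [hinv]
  have hinv0 : (0 : ℚ) ≤ (p : ℚ)⁻¹ := inv_nonneg.2 hp0.le
  have hinv1 : (p : ℚ)⁻¹ ≤ 1 := inv_le_one_of_one_le₀ hp1
  apply padicNorm.sum_le' _ (by positivity)
  intro i hi
  rw [mem_range] at hi
  rw [padicNorm.div, hk1, div_one, padicNorm.mul, padicNorm.mul, hpow]
  rcases Nat.lt_succ_iff_lt_or_eq.1 hi with h | h
  · have hb := norm_bern (p := p) i (by omega)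
    have hc := padicNorm.of_nat (p := p) ((k + 1).choose i)
    have h2 : padicNorm p (bernoulli i) * padicNorm p (((k + 1).choose i : ℕ) : ℚ) ≤ 1 :=
      mul_le_one₀ hb (padicNorm.nonneg _) hc
    have h3 : ((p : ℚ)⁻¹) ^ (k + 1 - i) ≤ ((p : ℚ)⁻¹) ^ 2 :=
      pow_le_pow_of_le_one hinv0 hinv1 (by omega)
    calc _ ≤ 1 * ((p : ℚ)⁻¹) ^ (k + 1 - i) :=
          mul_le_mul_of_nonneg_right h2 (by positivity)
      _ ≤ _ := by rw [one_mul]; exact h3
  · subst h
    have hb : padicNorm p (bernoulli i) ≤ (p : ℚ)⁻¹ := by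
      have h4 : bernoulli i = ((bernoulli i).num : ℚ) / ((bernoulli i).den : ℚ) :=
        (Rat.num_div_den _).symm
      have h5 : padicNorm p (((bernoulli i).num : ℤ) : ℚ) ≤ (p : ℚ)⁻¹ := by
        have := (padicNorm.dvd_iff_norm_le (p := p) (n := 1) (z := (bernoulli i).num)).1
          (by rw [pow_one]; exact hB)
        simpa using this
      have h6 : padicNorm p ((bernoulli i).den : ℚ) = 1 := by
        rw [padicNorm.nat_eq_one_iff]
        intro hd
        have hc := (bernoulli i).reduced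
        have h7 : p ∣ (bernoulli i).num.natAbs := Int.natCast_dvd.1 hB
        have h8 := Nat.dvd_gcd h7 hd
        rw [Nat.Coprime] at hc
        rw [hc] at h8
        exact hp.1.one_lt.ne' (Nat.dvd_one.1 h8)
      rw [h4, padicNorm.div, h6, div_one]
      exact h5
    have hc := padicNorm.of_nat (p := p) ((i + 1).choose i)
    have h3 : i + 1 - i = 1 := by omega
    rw [h3, pow_one]
    calc _ ≤ ((p : ℚ)⁻¹ * 1) * (p : ℚ)⁻¹ := by
          apply mul_le_mul_of_nonneg_right _ hinv0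
          exact mul_le_mul hb hc (padicNorm.nonneg _) hinv0
      _ = _ := by ring

/-- the half sum of the odd powers vanishes modulo `p` -/
theorem half_sum {p : ℕ} [hp : Fact p.Prime] (n : ℕ) (hn : Odd n) (hnp : n + 2 < p)
    (hB : (p : ℤ) ∣ (bernoulli (n + 1)).num) :
    ∑ a ∈ range ((p + 1) / 2), (a : ZMod p) ^ n = 0 := by
  have hT := sq_dvd_sum (p := p) (n + 1) (by omega) hB
  obtain ⟨r, hr⟩ : ∃ r, p = 2 * r + 1 := by
    have : Odd p := hp.1.odd_of_ne_two (by omega)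
    exact this
  have hh : (p + 1) / 2 = r + 1 := by omega
  rw [hh]
  -- expansions
  have hev : Even (n + 1) := hn.add_one
  have hexp : ∀ x : ℤ, ∃ c : ℤ, ((p : ℤ) - x) ^ (n + 1) =
      x ^ (n + 1) - (n + 1 : ℕ) * x ^ n * p + c * (p : ℤ) ^ 2 := by
    intro x
    obtain ⟨c, hc⟩ := Polynomial.powAddExpansion x (-(p : ℤ)) (n + 1)
    refine ⟨c, ?_⟩
    have h1 : ((p : ℤ) - x) ^ (n + 1) = (x + -(p : ℤ)) ^ (n + 1) := by
      rw [← hev.neg_pow ((p : ℤ) - x)]
      congr 1; ring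
    rw [h1, hc, Nat.add_sub_cancel]
    ring
  choose c hc using hexp
  set H : ℤ := ∑ b ∈ range (r + 1), (b : ℤ) ^ n with hH
  set S : ℤ := ∑ b ∈ range (r + 1), (b : ℤ) ^ (n + 1) with hS
  set T : ℤ := ∑ a ∈ range p, (a : ℤ) ^ (n + 1) with hTdef
  have hn0 : n ≠ 0 := by rintro rfl; exact absurd hn (by decide)
  -- split into halves
  have hA : T = S + ∑ b ∈ range r, ((p : ℤ) - ((b + 1 : ℕ) : ℤ)) ^ (n + 1) := by
    rw [hTdef, hr, show 2 * r + 1 = (r + 1) + r by ring, sum_range_add]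
    congr 1
    rw [← sum_range_reflect]
    apply sum_congr rfl
    intro b hb
    rw [mem_range] at hb
    congr 1
    push_cast [Nat.cast_sub (show 1 ≤ r by omega), Nat.cast_sub (show b ≤ r - 1 by omega)]
    ring
  have hB' : T = ∑ b ∈ range (r + 1), (2 * (b : ℤ)) ^ (n + 1) +
      ∑ b ∈ range r, ((p : ℤ) - 2 * ((b + 1 : ℕ) : ℤ)) ^ (n + 1) := by
    have key : ∀ m : ℕ, ∑ a ∈ range (2 * m + 1), (a : ℤ) ^ (n + 1) =
        ∑ b ∈ range (m + 1), (2 * (b : ℤ)) ^ (n + 1) +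
          ∑ b ∈ range m, (2 * (b : ℤ) + 1) ^ (n + 1) := by
      intro m
      induction m with
      | zero => simp
      | succ m ih =>
        rw [show 2 * (m + 1) + 1 = (2 * m + 1) + 1 + 1 by ring, sum_range_succ, sum_range_succ, ih,
          sum_range_succ (fun b : ℕ => (2 * (b : ℤ)) ^ (n + 1)) (m + 1),
          sum_range_succ (fun b : ℕ => (2 * (b : ℤ) + 1) ^ (n + 1)) m]
        push_cast
        ring
    rw [hTdef, hr, key]
    congr 1
    rw [← sum_range_reflect]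
    apply sum_congr rfl
    intro b hb
    rw [mem_range] at hb
    congr 1
    push_cast [Nat.cast_sub (show 1 ≤ r by omega), Nat.cast_sub (show b ≤ r - 1 by omega)]
    ring
  -- sums over positive numbers
  have hS' : S = ∑ b ∈ range r, (((b + 1 : ℕ) : ℤ)) ^ (n + 1) := by
    rw [hS, sum_range_succ']
    simp
  have hH' : H = ∑ b ∈ range r, (((b + 1 : ℕ) : ℤ)) ^ n := by
    rw [hH, sum_range_succ']
    simp [hn0]
  have hA2 : ∃ C : ℤ, T = 2 * S - (n + 1 : ℕ) * H * p + C * (p : ℤ) ^ 2 := by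
    refine ⟨∑ b ∈ range r, c ((b + 1 : ℕ) : ℤ), ?_⟩
    have : ∑ x ∈ range r, ((n + 1 : ℕ) : ℤ) * ((x + 1 : ℕ) : ℤ) ^ n * (p : ℤ) =
        ((n + 1 : ℕ) : ℤ) * (∑ x ∈ range r, ((x + 1 : ℕ) : ℤ) ^ n) * p := by
      rw [mul_sum, sum_mul]
    rw [hA, sum_congr rfl (fun b _ => hc ((b + 1 : ℕ) : ℤ)), sum_add_distrib, sum_sub_distrib,
      ← hS', hH', this, ← sum_mul]
    ring
  have hB2 : ∃ C : ℤ, T = 2 * 2 ^ (n + 1) * S - (n + 1 : ℕ) * 2 ^ n * H * p + C * (p : ℤ) ^ 2 := by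
    refine ⟨∑ b ∈ range r, c (2 * ((b + 1 : ℕ) : ℤ)), ?_⟩
    have h1 : ∑ x ∈ range r, ((n + 1 : ℕ) : ℤ) * (2 * ((x + 1 : ℕ) : ℤ)) ^ n * (p : ℤ) =
        ((n + 1 : ℕ) : ℤ) * 2 ^ n * (∑ x ∈ range r, ((x + 1 : ℕ) : ℤ) ^ n) * p := by
      rw [mul_sum, sum_mul]
      apply sum_congr rfl; intro x _
      rw [mul_pow]; ring
    have h2 : ∑ b ∈ range (r + 1), (2 * (b : ℤ)) ^ (n + 1) = 2 ^ (n + 1) * S := by
      rw [hS, mul_sum]
      apply sum_congr rfl; intro x _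
      rw [mul_pow]
    have h3 : ∑ b ∈ range r, (2 * ((b + 1 : ℕ) : ℤ)) ^ (n + 1) = 2 ^ (n + 1) * S := by
      rw [hS', mul_sum]
      apply sum_congr rfl; intro x _
      rw [mul_pow]
    rw [hB', sum_congr rfl (fun b _ => hc (2 * ((b + 1 : ℕ) : ℤ))), sum_add_distrib,
      sum_sub_distrib, hH', h1, h2, h3, ← sum_mul]
    ring
  obtain ⟨C1, hC1⟩ := hA2
  obtain ⟨C2, hC2⟩ := hB2
  obtain ⟨T', hT'⟩ := hT
  -- eliminate `S`
  have h1 : (p : ℤ) ^ 2 ∣ ((n + 1 : ℕ) * 2 ^ n * H) * p := by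
    have h2 : ((n + 1 : ℕ) * 2 ^ n * H) * (p : ℤ) =
        (p : ℤ) ^ 2 * (T' - 2 ^ (n + 1) * T' + 2 ^ (n + 1) * C1 - C2) := by
      push_cast at hT' hC1 hC2 ⊢
      have e1 : (2 : ℤ) ^ (n + 1) = 2 * 2 ^ n := by ring
      rw [e1] at hC2 ⊢
      linear_combination (1 - 2 * 2 ^ n) * hT' - hC2 + (2 * 2 ^ n) * hC1
    exact Dvd.intro _ h2.symm
  have h2 : (p : ℤ) ∣ (n + 1 : ℕ) * 2 ^ n * H := by
    have hp0 : (p : ℤ) ≠ 0 := by exact_mod_cast hp.1.ne_zero
    rw [sq] at h1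
    exact (mul_dvd_mul_iff_right hp0).1 h1
  have hpI : Prime (p : ℤ) := Nat.prime_iff_prime_int.1 hp.1
  have h3 : (p : ℤ) ∣ H := by
    rcases hpI.dvd_or_dvd h2 with h4 | h4
    · exfalso
      rcases hpI.dvd_or_dvd h4 with h5 | h5
      · have h6 : p ∣ n + 1 := by exact_mod_cast h5
        have := Nat.le_of_dvd (Nat.succ_pos n) h6
        omega
      · have h6 : p ∣ 2 ^ n := by exact_mod_cast h5
        have h7 := hp.1.dvd_of_dvd_pow h6
        have := Nat.le_of_dvd (by norm_num) h7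
        omega
    · exact h4
  have h4 := (ZMod.intCast_zmod_eq_zero_iff_dvd H p).2 h3
  rw [hH] at h4
  push_cast at h4
  exact h4

end Pool.Agent.H870.QR577
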