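import Mathlib
import Pool.Agent.H577.QR.Stm
import Pool.Agent.H577.QR.P.Bern

/-!
# (E1): Bernoulli numbers modulo `p` and half sums of odd characters of order four and six
-/

set_option autoImplicit false

namespace Pool.Agent.H870.QR577

open Finset
open Pool.Agent.H577.QR

/-- trace of a primitive root of unity of order `4` or `6` -/
def tr (d : ℕ) : ℤ := if d = 4 then 0 else 1

/-- the powers of a root of `x ^ 2 - t x + 1` -/
def UV (t : ℤ) : ℕ → ℤ × ℤ
  | 0 => (1, 0)
  | j + 1 => (-(UV t j).2, (UV t j).1 + t * (UV t j).2)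

theorem UV_spec {R : Type*} [CommRing R] (t : ℤ) (x : R) (hx : x ^ 2 = t * x - 1) (j : ℕ) :
    x ^ j = (UV t j).1 + (UV t j).2 * x := by
  induction j with
  | zero => simp [UV]
  | succ j ih =>
    rw [pow_succ, ih, UV]
    push_cast
    linear_combination ((UV t j).2 : R) * hx

theorem root_eq {R : Type*} [CommRing R] [IsDomain R] {d : ℕ} (hd : d = 4 ∨ d = 6) {x : R}
    (hx : IsPrimitiveRoot x d) : x ^ 2 = (tr d : ℤ) * x - 1 := by
  rcases hd with rfl | rfl
  · have h4 : x ^ 4 = 1 := hx.pow_eq_one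
    have h2 : x ^ 2 ≠ 1 := hx.pow_ne_one_of_pos_of_lt (by norm_num) (by norm_num)
    have : (x ^ 2 - 1) * (x ^ 2 + 1) = 0 := by linear_combination h4
    rcases mul_eq_zero.1 this with h | h
    · exact absurd (sub_eq_zero.1 h) h2
    · simp only [tr, if_true]
      push_cast
      linear_combination h
  · have h6 : x ^ 6 = 1 := hx.pow_eq_one
    have h3 : x ^ 3 ≠ 1 := hx.pow_ne_one_of_pos_of_lt (by norm_num) (by norm_num)
    have h2 : x ^ 2 ≠ 1 := hx.pow_ne_one_of_pos_of_lt (by norm_num) (by norm_num)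
    have h : (x ^ 3 - 1) * ((x + 1) * (x ^ 2 - x + 1)) = 0 := by linear_combination h6
    rcases mul_eq_zero.1 h with h | h
    · exact absurd (sub_eq_zero.1 h) h3
    · rcases mul_eq_zero.1 h with h | h
      · exfalso; apply h2
        linear_combination (x - 1) * h
      · simp only [tr]
        norm_num
        linear_combination h

theorem main {d : ℕ} (hd : d = 4 ∨ d = 6) {p : ℕ} [hp : Fact p.Prime] (e : ℕ) (he : Odd e)
    (hpe : p = d * e + 1)
    (hsum : (∑ a ∈ range ((p + 1) / 2), (a : ZMod p) ^ e = 0) ∨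
      (∑ a ∈ range ((p + 1) / 2), (a : ZMod p) ^ ((d - 1) * e) = 0)) :
    ∃ χ : DirichletCharacter ℂ p, orderOf χ = d ∧ χ.Odd ∧ ∃ m : ℕ, ‖SH χ‖ ^ 2 = m * p := by
  have hd0 : d ≠ 0 := by rcases hd with rfl | rfl <;> norm_num
  have hd1 : 1 < d := by rcases hd with rfl | rfl <;> norm_num
  have he0 : e ≠ 0 := by rintro rfl; exact absurd he (by decide)
  obtain ⟨g, hg⟩ := IsCyclic.exists_generator (α := (ZMod p)ˣ)
  have hcard : Fintype.card (ZMod p)ˣ = d * e := by
    rw [ZMod.card_units_eq_totient, Nat.totient_prime hp.1, hpe]; simp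
  have hgord : orderOf g = d * e := by
    rw [orderOf_eq_card_of_forall_mem_zpowers hg, Nat.card_eq_fintype_card, hcard]
  -- the root of unity
  set ζ : ℂ := Complex.exp (2 * Real.pi * Complex.I / d) with hζdef
  have hζ : IsPrimitiveRoot ζ d := Complex.isPrimitiveRoot_exp d hd0
  set ζu : ℂˣ := (hζ.isUnit hd0).unit with hζu
  have hζuv : (ζu : ℂ) = ζ := rfl
  have hζmem : ζu ∈ rootsOfUnity (Fintype.card (ZMod p)ˣ) ℂ := by
    rw [mem_rootsOfUnity]
    ext
    rw [Units.val_pow_eq_pow_val, hζuv, hcard, pow_mul, hζ.pow_eq_one, one_pow]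
    rfl
  let χ : DirichletCharacter ℂ p := MulChar.ofRootOfUnity hζmem hg
  have hχg : χ (g : ZMod p) = ζ := MulChar.ofRootOfUnity_spec hζmem hg
  have hχpow : ∀ j : ℕ, χ ((g ^ j : (ZMod p)ˣ) : ZMod p) = ζ ^ j := by
    intro j
    rw [Units.val_pow_eq_pow_val, map_pow, hχg]
  have hord : orderOf χ = d := by
    apply Nat.dvd_antisymm
    · apply orderOf_dvd_of_pow_eq_one
      rw [MulChar.eq_iff hg, MulChar.pow_apply_coe, hχg, hζ.pow_eq_one, MulChar.one_apply_coe]
    · apply hζ.dvd_of_pow_eq_one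
      have h1 := pow_orderOf_eq_one χ
      have h2 : (χ ^ orderOf χ) (g : ZMod p) = 1 := by
        rw [h1, MulChar.one_apply_coe]
      rw [MulChar.pow_apply_coe, hχg] at h2
      exact h2
  -- every unit is a power of `g`
  have hind : ∀ u : (ZMod p)ˣ, ∃ j : ℕ, g ^ j = u := by
    intro u
    have := hg u
    rw [← mem_powers_iff_mem_zpowers] at this
    exact this
  have hp2 : 2 < p := by
    have := Nat.pos_of_ne_zero he0
    nlinarith
  have : Fact (2 < p) := ⟨hp2⟩
  have hodd : χ.Odd := by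
    rcases χ.even_or_odd with h | h
    · exfalso
      obtain ⟨m, hm⟩ := hind (-1)
      have h1 : χ (-1) = 1 := h
      have h2 := hχpow m
      rw [hm, Units.val_neg, Units.val_one, h1] at h2
      obtain ⟨k, hk⟩ := hζ.dvd_of_pow_eq_one m h2.symm
      have h3 : ((-1 : (ZMod p)ˣ)) ^ e = 1 := by
        rw [← hm, hk, ← pow_mul, show d * k * e = (d * e) * k by ring, ← hgord, pow_mul,
          pow_orderOf_eq_one, one_pow]
      rw [he.neg_one_pow] at h3
      have h4 : ((-1 : (ZMod p)ˣ) : ZMod p) = 1 := by rw [h3]; rfl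
      rw [Units.val_neg, Units.val_one] at h4
      exact ZMod.neg_one_ne_one h4
    · exact h
  refine ⟨χ, hord, hodd, ?_⟩
  -- the root of unity modulo `p`
  have hgp : IsPrimitiveRoot (g : ZMod p) (d * e) := by
    rw [← hgord]
    exact IsPrimitiveRoot.coe_units_iff.2 (IsPrimitiveRoot.orderOf g)
  set h : ZMod p := (g : ZMod p) ^ e with hh
  have hprim : IsPrimitiveRoot h d := by
    apply hgp.pow (Nat.mul_pos (Nat.pos_of_ne_zero hd0) (Nat.pos_of_ne_zero he0))
    ring
  set h' : ZMod p := h ^ (d - 1) with hh'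
  have hinv : h * h' = 1 := by
    rw [hh', ← pow_succ', Nat.sub_add_cancel hd1.le, hprim.pow_eq_one]
  have hprim' : IsPrimitiveRoot h' d := by
    apply hprim.pow_of_coprime
    exact (Nat.coprime_self_sub_left (m := 1) (n := d) hd1.le).2 (Nat.coprime_one_left d)
  have ht1 := root_eq hd hprim
  have ht2 := root_eq hd hprim'
  have ht3 := root_eq hd hζ
  have hsumh : h + h' = (tr d : ℤ) := by
    linear_combination h' * ht1 + ((tr d : ℤ) - h) * hinv
  -- conjugation
  have hconj : ζ * (starRingEnd ℂ) ζ = 1 := by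
    rw [Complex.mul_conj, Complex.normSq_eq_norm_sq, hζ.norm'_eq_one hd0]
    norm_num
  have hsumc : ζ + (starRingEnd ℂ) ζ = (tr d : ℤ) := by
    linear_combination (starRingEnd ℂ) ζ * ht3 + (((tr d : ℤ) : ℂ) - ζ) * hconj
  -- coordinates of the values
  have hval : ∀ a : ZMod p, ∃ w : ℤ × ℤ, χ a = w.1 + w.2 * ζ ∧ a ^ e = w.1 + w.2 * h ∧
      a ^ ((d - 1) * e) = w.1 + w.2 * h' := by
    intro a
    by_cases ha : a = 0
    · refine ⟨(0, 0), ?_, ?_, ?_⟩
      · rw [ha, MulChar.map_zero]; simp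
      · rw [ha, zero_pow he0]; simp
      · rw [ha, zero_pow (Nat.mul_ne_zero (by omega) he0)]; simp
    · obtain ⟨j, hj⟩ := hind (Units.mk0 a ha)
      have haj : a = (g : ZMod p) ^ j := by
        rw [← Units.val_pow_eq_pow_val, hj]; rfl
      refine ⟨UV (tr d) j, ?_, ?_, ?_⟩
      · rw [← UV_spec (tr d) ζ ht3 j, ← hχpow j, hj]; rfl
      · rw [← UV_spec (tr d) h ht1 j, haj, hh, ← pow_mul, ← pow_mul, mul_comm]
      · rw [← UV_spec (tr d) h' ht2 j, haj, hh', hh, ← pow_mul, ← pow_mul, ← pow_mul]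
        congr 1; ring
  choose w hw1 hw2 hw3 using hval
  set u : ℤ := ∑ a ∈ range ((p + 1) / 2), (w (a : ZMod p)).1 with hu
  set v : ℤ := ∑ a ∈ range ((p + 1) / 2), (w (a : ZMod p)).2 with hv
  have hS : SH χ = u + v * ζ := by
    unfold SH
    rw [sum_congr rfl (fun (a : ℕ) _ => hw1 (a : ZMod p)), sum_add_distrib, ← sum_mul, hu, hv]
    push_cast
    rfl
  have hE1 : ∑ a ∈ range ((p + 1) / 2), (a : ZMod p) ^ e = u + v * h := by
    rw [sum_congr rfl (fun (a : ℕ) _ => hw2 (a : ZMod p)), sum_add_distrib, ← sum_mul, hu, hv]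
    push_cast
    rfl
  have hE2 : ∑ a ∈ range ((p + 1) / 2), (a : ZMod p) ^ ((d - 1) * e) = u + v * h' := by
    rw [sum_congr rfl (fun (a : ℕ) _ => hw3 (a : ZMod p)), sum_add_distrib, ← sum_mul, hu, hv]
    push_cast
    rfl
  set N : ℤ := u ^ 2 + tr d * u * v + v ^ 2 with hN
  have hNp : ((N : ℤ) : ZMod p) = 0 := by
    have h1 : ((N : ℤ) : ZMod p) = (u + v * h) * (u + v * h') := by
      rw [hN]
      push_cast
      linear_combination (-(u : ZMod p) * v) * hsumh - (v : ZMod p) ^ 2 * hinv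
    rw [h1]
    rcases hsum with hs | hs
    · rw [← hE1, hs, zero_mul]
    · rw [← hE2, hs, mul_zero]
  have hdvd : (p : ℤ) ∣ N := (ZMod.intCast_zmod_eq_zero_iff_dvd N p).1 hNp
  have hnorm : ((‖SH χ‖ ^ 2 : ℝ) : ℂ) = (N : ℂ) := by
    have h1 : ((‖SH χ‖ ^ 2 : ℝ) : ℂ) = SH χ * (starRingEnd ℂ) (SH χ) := by
      rw [Complex.mul_conj, Complex.normSq_eq_norm_sq]
    rw [h1, hS, map_add, map_mul, map_intCast, map_intCast, hN]
    push_cast
    linear_combination ((u : ℂ) * v) * hsumc + (v : ℂ) ^ 2 * hconj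
  have hnorm2 : ‖SH χ‖ ^ 2 = (N : ℝ) := by exact_mod_cast hnorm
  have hN0 : 0 ≤ N := by
    have : (0 : ℝ) ≤ (N : ℝ) := by rw [← hnorm2]; positivity
    exact_mod_cast this
  obtain ⟨m, hm⟩ := hdvd
  have hm0 : 0 ≤ m := by
    by_contra hc
    rw [not_le] at hc
    have : (0 : ℤ) < p := by exact_mod_cast hp.1.pos
    nlinarith
  refine ⟨m.toNat, ?_⟩
  rw [hnorm2, hm]
  have : ((m.toNat : ℤ) : ℝ) = (m : ℝ) := by rw [Int.toNat_of_nonneg hm0]
  push_cast at this ⊢
  rw [this]; ring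

theorem bern4 : bernoulli 4 = -1 / 30 := by
  rw [bernoulli_eq_bernoulli'_of_ne_one (by norm_num), bernoulli'_four]

theorem bern6 : bernoulli 6 = 1 / 42 := by
  have h := sum_bernoulli 7
  simp only [sum_range_succ, range_zero, sum_empty] at h
  have h3 : bernoulli 3 = 0 := bernoulli_eq_zero_of_odd (by decide) (by norm_num)
  have h5 : bernoulli 5 = 0 := bernoulli_eq_zero_of_odd (by decide) (by norm_num)
  rw [bernoulli_zero, bernoulli_one, bernoulli_two, h3, bern4, h5] at h
  have c0 : Nat.choose 7 0 = 1 := rfl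
  have c1 : Nat.choose 7 1 = 7 := rfl
  have c2 : Nat.choose 7 2 = 21 := rfl
  have c4 : Nat.choose 7 4 = 35 := rfl
  have c6 : Nat.choose 7 6 = 7 := rfl
  rw [c0, c1, c2, c4, c6] at h
  norm_num at h
  linarith

theorem e1_aux {d : ℕ} (hd : d = 4 ∨ d = 6) : S_E1 d := by
  intro p hp hmod hdiv
  have : Fact p.Prime := ⟨hp⟩
  have hd0 : 0 < d := by rcases hd with rfl | rfl <;> norm_num
  obtain ⟨e, he, hpe⟩ : ∃ e, Odd e ∧ p = d * e + 1 := by
    refine ⟨2 * (p / (2 * d)) + 1, ⟨_, rfl⟩, ?_⟩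
    have := Nat.div_add_mod p (2 * d)
    rw [hmod] at this
    calc p = 2 * d * (p / (2 * d)) + (d + 1) := this.symm
      _ = _ := by ring
  have hdive : (p - 1) / d = e := by
    rw [hpe, Nat.add_sub_cancel, Nat.mul_div_cancel_left _ hd0]
  rw [hdive] at hdiv
  have hd1 : Odd (d - 1) := by rcases hd with rfl | rfl <;> decide
  by_cases he1 : e = 1
  · exfalso
    subst he1
    rcases hd with rfl | rfl
    · norm_num at hpe
      subst hpe
      norm_num [bernoulli_two, bern4] at hdiv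
    · norm_num at hpe
      subst hpe
      norm_num [bernoulli_two, bern6] at hdiv
  · have he3 : 2 < e := by
      obtain ⟨k, hk⟩ := he
      omega
    apply main hd e he hpe
    rcases hdiv with h | h
    · left
      apply half_sum e he _ h
      rw [hpe]
      rcases hd with rfl | rfl <;> omega
    · right
      apply half_sum ((d - 1) * e) (hd1.mul he) _ h
      rw [hpe]
      rcases hd with rfl | rfl <;> omega

theorem e1_four : S_E1 4 := e1_aux (Or.inl rfl)

theorem e1_six : S_E1 6 := e1_aux (Or.inr rfl)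

end Pool.Agent.H870.QR577
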