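import Pool.Agent.H577.QR.Stm
import Pool.Graph.R_pool_sql_team_seeded_1acbe0a2.Y811.RG.Half

/-!
# The half sum of an odd character and `L(1, χ)`
-/

set_option autoImplicit false

namespace Pool.Agent.H591.QR577

open Complex Finset HurwitzZeta ZMod
open Pool.Agent.H916R2 (saw saw_zero saw_neg sinZeta_toAddCircle)
open Pool.Agent.TH487.RP
open Pool.Agent.Y811.RG (saw_nat)
open Pool.Agent.H577.QR (SH S_E2)

/-- the sum against the sawtooth -/
noncomputable def TT {p : ℕ} [NeZero p] (χ : DirichletCharacter ℂ p) : ℂ :=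
  ∑ b : ZMod p, χ b * (saw b : ℂ)

theorem TT_inv {p : ℕ} [NeZero p] (χ : DirichletCharacter ℂ p) : ‖TT χ⁻¹‖ = ‖TT χ‖ := by
  have h : TT χ⁻¹ = (starRingEnd ℂ) (TT χ) := by
    unfold TT
    rw [map_sum]
    refine sum_congr rfl fun b _ => ?_
    rw [map_mul, ← MulChar.star_apply' χ b, map_intCast]
    rfl
  rw [h, Complex.norm_conj]

/-- the value of the `L`-function -/
theorem L_TT {p : ℕ} [Fact p.Prime] (ψ : DirichletCharacter ℂ p) (hψodd : ψ.Odd) :
    4 * (p : ℝ) ^ 3 * ‖DirichletCharacter.LFunction ψ 1‖ ^ 2 = Real.pi ^ 2 * ‖TT ψ‖ ^ 2 := by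
  have hψ1 : ψ ≠ 1 := by
    intro h
    unfold DirichletCharacter.Odd at hψodd
    rw [h] at hψodd
    rw [MulChar.one_apply (by simp : IsUnit (-1 : ZMod p))] at hψodd
    norm_num at hψodd
  have hm : (p : ℂ) ≠ 0 := Nat.cast_ne_zero.mpr (NeZero.ne p)
  set χ : DirichletCharacter ℂ p := ψ⁻¹ with hχ
  set F : ZMod p → ℂ := ZMod.dft (fun j => ψ j) with hF
  have hF0 : F 0 = 0 := by
    rw [hF, ZMod.dft_apply_zero]
    exact MulChar.sum_eq_zero_of_ne_one hψ1
  have hfun : Function.Odd (fun j : ZMod p => ψ j) := hψodd.to_fun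
  have hFodd : ∀ j, F (-j) = - F j := by
    have := ZMod.dft_odd_iff.mpr hfun
    exact this
  have hFF : ZMod.dft F = fun j => (p : ℂ) * (- ψ j) := by
    rw [hF, ZMod.dft_dft]
    funext j
    simp only [smul_eq_mul]
    rw [DirichletCharacter.Odd.eval_neg (ψ := ψ) j hψodd]
  have hLF := ZMod.LFunction_dft F (s := 1) (Or.inl hF0)
  rw [hFF] at hLF
  have hlhs : ZMod.LFunction (fun j => (p : ℂ) * (- ψ j)) 1 =
      - (p : ℂ) * DirichletCharacter.LFunction ψ 1 := by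
    unfold DirichletCharacter.LFunction ZMod.LFunction
    simp only [mul_sum]
    refine sum_congr rfl fun j _ => ?_
    ring
  have hrhs : ∑ j : ZMod p, F j * expZeta (toAddCircle (-j)) 1 =
      (-I) * ∑ j : ZMod p, F j * sinZeta (toAddCircle j) 1 := by
    have h1 : ∑ j : ZMod p, F j * expZeta (toAddCircle (-j)) 1 =
        ∑ j : ZMod p, (- F j) * expZeta (toAddCircle j) 1 := by
      rw [← Equiv.sum_comp (Equiv.neg (ZMod p))]
      refine sum_congr rfl fun j _ => ?_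
      simp only [Equiv.neg_apply, neg_neg, hFodd]
    have h2 : 2 * ∑ j : ZMod p, F j * expZeta (toAddCircle (-j)) 1 =
        2 * ((-I) * ∑ j : ZMod p, F j * sinZeta (toAddCircle j) 1) := by
      rw [two_mul]
      nth_rewrite 2 [h1]
      rw [← sum_add_distrib, mul_sum, mul_sum]
      refine sum_congr rfl fun j _ => ?_
      rw [sinZeta_eq, map_neg]
      have hI : (2 : ℂ) * I ≠ 0 := by simp
      field_simp
      ring
    exact mul_left_cancel₀ two_ne_zero h2
  have hinv : ∀ (u : (ZMod p)ˣ) (j : ZMod p), F ((u : ZMod p) * j) = χ u * F j := by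
    intro u j
    have h := ZMod.dft_comp_unitMul (fun j => ψ j) u⁻¹ j
    rw [inv_inv] at h
    rw [hF, ← h]
    have : (fun j : ZMod p => ψ ((u⁻¹ : (ZMod p)ˣ) * j)) = fun j => χ u * ψ j := by
      funext k
      rw [map_mul]
      congr 1
      rw [hχ, MulChar.inv_apply_eq_inv']
      have : ψ (u : ZMod p) * ψ ((u⁻¹ : (ZMod p)ˣ) : ZMod p) = 1 := by
        rw [← map_mul, Units.mul_inv, map_one]
      exact (eq_inv_of_mul_eq_one_right this)
    rw [this, ZMod.dft_const_mul]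
  have hFχ : ∀ j : ZMod p, F j = F 1 * χ j := by
    intro j
    by_cases hj : j = 0
    · rw [hj, hF0, MulChar.map_zero, mul_zero]
    · have h := hinv (Units.mk0 j hj) 1
      rw [mul_one, Units.val_mk0] at h
      rw [h, mul_comm]
  -- the absolute value of the Gauss sum
  have hconj : ZMod.dft (fun j => χ j) 1 = - (starRingEnd ℂ) (F 1) := by
    have h1 : F (-1) = - F 1 := hFodd 1
    rw [← map_neg, ← h1, hF, ZMod.dft_apply, ZMod.dft_apply, map_sum]
    refine sum_congr rfl fun j _ => ?_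
    rw [smul_eq_mul, smul_eq_mul, map_mul, hχ, ← MulChar.star_apply' ψ j,
      ← AddChar.map_neg_eq_conj]
    congr 2
    ring
  have hgs : (p : ℂ) = F 1 * (starRingEnd ℂ) (F 1) := by
    have h1 := congrFun hFF 1
    have h2 : F = fun j => F 1 * χ j := funext hFχ
    rw [map_one, mul_neg, mul_one] at h1
    rw [h2, ZMod.dft_const_mul] at h1
    change F 1 * ZMod.dft (fun j => χ j) 1 = - (p : ℂ) at h1
    rw [hconj] at h1
    linear_combination h1
  have hgs2 : ‖F 1‖ ^ 2 = p := by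
    rw [Complex.mul_conj, Complex.normSq_eq_norm_sq] at hgs
    exact_mod_cast hgs.symm
  have hfinal : ∑ j : ZMod p, F j * sinZeta (toAddCircle j) 1 =
      - (Real.pi / (2 * p)) * (F 1 * TT χ) := by
    unfold TT
    rw [mul_sum, mul_sum]
    refine sum_congr rfl fun j _ => ?_
    rw [sinZeta_toAddCircle, hFχ]
    ring
  rw [hlhs, hrhs, hfinal] at hLF
  have hn := congrArg norm hLF
  have hpi : ‖(Real.pi : ℂ)‖ = Real.pi := by
    rw [Complex.norm_real, Real.norm_of_nonneg Real.pi_pos.le]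
  rw [norm_mul, norm_neg, Complex.norm_natCast, norm_mul, norm_neg, Complex.norm_I, one_mul,
    norm_mul, norm_neg, norm_div, hpi, norm_mul, norm_mul, Complex.norm_natCast, hχ, TT_inv] at hn
  have h2 : ‖(2 : ℂ)‖ = 2 := by simp
  rw [h2] at hn
  have hp0 : (0 : ℝ) < p := Nat.cast_pos.2 (NeZero.pos p)
  have h3 : 2 * (p : ℝ) ^ 2 * ‖DirichletCharacter.LFunction ψ 1‖ = Real.pi * (‖F 1‖ * ‖TT ψ‖) := by
    have : 2 * (p : ℝ) ^ 2 * ‖DirichletCharacter.LFunction ψ 1‖ =
        2 * p * (p * ‖DirichletCharacter.LFunction ψ 1‖) := by ring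
    rw [this, hn]
    field_simp
  have h4 : (2 * (p : ℝ) ^ 2 * ‖DirichletCharacter.LFunction ψ 1‖) ^ 2 =
      (Real.pi * (‖F 1‖ * ‖TT ψ‖)) ^ 2 := by rw [h3]
  rw [mul_pow (Real.pi), mul_pow ‖F 1‖, hgs2] at h4
  apply mul_left_cancel₀ hp0.ne'
  linear_combination h4

/-- the half sum -/
theorem SH_TT {p : ℕ} [Fact p.Prime] {M : ℕ} (hM : p = 2 * M + 1)
    (χ : DirichletCharacter ℂ p) (hχ : χ.Odd) :
    TT χ * (1 - 2 * χ 2) = 2 * p * χ 2 * SH χ := by
  have hpp : p.Prime := Fact.out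
  have hM0 : 0 < M := by
    have := hpp.two_le
    omega
  have h20 : (2 : ZMod p) ≠ 0 := by
    have : ((2 : ℕ) : ZMod p) ≠ 0 := by
      intro h
      rw [ZMod.natCast_eq_zero_iff] at h
      exact absurd (Nat.le_of_dvd (by norm_num) h) (by omega)
    exact_mod_cast this
  have hS : SH χ = ∑ v ∈ range M, χ (((v + 1 : ℕ)) : ZMod p) := by
    unfold SH
    have e : (p + 1) / 2 = M + 1 := by omega
    rw [e, Finset.sum_range_succ', Nat.cast_zero, MulChar.map_zero, add_zero]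
  set T : ℂ := TT χ with hT
  have h1 : T = χ 2 * ∑ b : ZMod p, χ b * (saw (2 * b) : ℂ) := by
    rw [hT, TT, mul_sum, ← Equiv.sum_comp (Equiv.mulLeft₀ (2 : ZMod p) h20)
      (fun b : ZMod p => (χ b * (saw b : ℂ)))]
    refine sum_congr rfl fun b _ => ?_
    have h5 : (Equiv.mulLeft₀ (2 : ZMod p) h20) b = 2 * b := rfl
    rw [h5, map_mul, mul_assoc]
  have hodd : ∀ b : ZMod p, χ (-b) = - χ b := fun b => DirichletCharacter.Odd.eval_neg (ψ := χ) b hχ
  have h2 : T = 2 * ∑ v ∈ range M, χ (((v + 1 : ℕ)) : ZMod p) *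
      ((2 * ((v + 1 : ℕ) : ℤ) - p : ℤ) : ℂ) := by
    rw [hT, TT, sum_zmod p M hM, saw_zero, Int.cast_zero, mul_zero, zero_add, mul_sum]
    refine sum_congr rfl fun v hv => ?_
    rw [mem_range] at hv
    rw [hodd, saw_neg, saw_nat (Nat.succ_pos v) (by omega)]
    push_cast
    ring
  have h3 : ∑ b : ZMod p, χ b * (saw (2 * b) : ℂ) =
      2 * ∑ v ∈ range M, χ (((v + 1 : ℕ)) : ZMod p) *
        ((4 * ((v + 1 : ℕ) : ℤ) - p : ℤ) : ℂ) := by
    rw [sum_zmod p M hM, mul_zero, saw_zero, Int.cast_zero, mul_zero, zero_add, mul_sum]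
    refine sum_congr rfl fun v hv => ?_
    rw [mem_range] at hv
    have h5 : (2 : ZMod p) * ((v + 1 : ℕ) : ZMod p) = ((2 * (v + 1) : ℕ) : ZMod p) := by
      push_cast
      ring
    rw [hodd, mul_neg, saw_neg, h5, saw_nat (by omega) (by omega)]
    push_cast
    ring
  have h4 : ∑ b : ZMod p, χ b * (saw (2 * b) : ℂ) = 2 * T + 2 * p * SH χ := by
    rw [h3, h2, hS, mul_sum, mul_sum, mul_sum, mul_sum, ← sum_add_distrib]
    refine sum_congr rfl fun v _ => ?_
    push_cast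
    ring
  rw [h4] at h1
  linear_combination h1

/-- **(E2)** -/
theorem e2 : S_E2 := by
  intro p _ hp hp2 χ hχ
  have : Fact p.Prime := ⟨hp⟩
  have hodd : p % 2 = 1 := (hp.eq_two_or_odd).resolve_left (by omega)
  obtain ⟨M, hM⟩ : ∃ M, p = 2 * M + 1 := ⟨p / 2, by omega⟩
  have h20 : (2 : ZMod p) ≠ 0 := by
    have : ((2 : ℕ) : ZMod p) ≠ 0 := by
      intro h
      rw [ZMod.natCast_eq_zero_iff] at h
      exact absurd (Nat.le_of_dvd (by norm_num) h) (by omega)
    exact_mod_cast this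
  have h8 : ‖χ 2‖ = 1 := by
    have hu : IsUnit (2 : ZMod p) := isUnit_iff_ne_zero.2 h20
    obtain ⟨u, hu'⟩ := hu
    rw [← hu']
    exact DirichletCharacter.unit_norm_eq_one χ u
  have h1 := SH_TT hM χ hχ
  have h2 := L_TT χ hχ
  have h3 : ‖1 - 2 * χ 2‖ = ‖2 - χ 2‖ := by
    have e : (1 : ℂ) - 2 * χ 2 = -(χ 2 * (starRingEnd ℂ) (2 - χ 2)) := by
      rw [map_sub, mul_sub, Complex.mul_conj, Complex.normSq_eq_norm_sq, h8]
      have : (starRingEnd ℂ) (2 : ℂ) = 2 := Complex.conj_ofNat 2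
      rw [this]
      push_cast
      ring
    rw [e, norm_neg, norm_mul, h8, one_mul, Complex.norm_conj]
  have h4 := congrArg norm h1
  have hn2 : ‖(2 : ℂ)‖ = 2 := by simp
  rw [norm_mul, h3, norm_mul, norm_mul, norm_mul, h8, mul_one, Complex.norm_natCast, hn2] at h4
  have hp0 : (0 : ℝ) < p := Nat.cast_pos.2 hp.pos
  have e2 : χ ((2 : ℕ) : ZMod p) = χ 2 := by rw [Nat.cast_ofNat]
  rw [e2]
  have h5 : (‖TT χ‖ * ‖2 - χ 2‖) ^ 2 = (2 * p * ‖SH χ‖) ^ 2 := by rw [h4]
  apply mul_left_cancel₀ (show (4 * (p : ℝ) ^ 2) ≠ 0 by positivity)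
  linear_combination (-Real.pi ^ 2) * h5 - ‖2 - χ 2‖ ^ 2 * h2

end Pool.Agent.H591.QR577
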