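import Pool.Agent.H577.QR.Stm

/-!
# QR-LAC: lacunary primes
-/

set_option autoImplicit false

namespace Pool.Agent.H253.QR577

open Finset

/-- the norm of `1 - w / l` -/
theorem nsq {l : ℕ} (hl : 0 < l) {w : ℂ} (hw : ‖w‖ = 1) :
    ‖1 - w / l‖ ^ 2 = 1 - 2 * w.re / l + 1 / (l : ℝ) ^ 2 := by
  have hl0 : (l : ℝ) ≠ 0 := by exact_mod_cast hl.ne'
  have h1 : w.re ^ 2 + w.im ^ 2 = 1 := by
    have h := Complex.sq_norm w
    rw [hw, Complex.normSq_apply] at h
    linarith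
  have hre : (1 - w / l).re = 1 - w.re / l := by
    rw [Complex.sub_re, Complex.one_re, Complex.div_natCast_re]
  have him : (1 - w / l).im = - (w.im / l) := by
    rw [Complex.sub_im, Complex.one_im, Complex.div_natCast_im, zero_sub]
  rw [Complex.sq_norm, Complex.normSq_apply, hre, him]
  have h2 : (1 - w.re / l) * (1 - w.re / l) + -(w.im / l) * -(w.im / l) =
      1 - 2 * w.re / l + (w.re ^ 2 + w.im ^ 2) / (l : ℝ) ^ 2 := by
    field_simp
    ring
  rw [h2, h1]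

theorem norm_pos' {l : ℕ} (hl : 2 < l) {w : ℂ} (hw : ‖w‖ = 1) :
    1 - 1 / (l : ℝ) ≤ ‖1 - w / l‖ ∧ ‖1 - w / l‖ ≤ 1 + 1 / (l : ℝ) ∧ 0 < ‖1 - w / l‖ := by
  have hl0 : (0 : ℝ) < l := by exact_mod_cast (by omega : 0 < l)
  have h1 : ‖w / (l : ℂ)‖ = 1 / (l : ℝ) := by
    rw [norm_div, hw, Complex.norm_natCast]
  have h2 := norm_sub_norm_le (1 : ℂ) (w / l)
  have h3 := norm_sub_le (1 : ℂ) (w / l)
  rw [norm_one, h1] at h2 h3
  refine ⟨h2, h3, lt_of_lt_of_le ?_ h2⟩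
  have h4 : 1 / (l : ℝ) < 1 := by
    rw [div_lt_one hl0]
    exact_mod_cast (by omega : 1 < l)
  linarith

/-- the logarithm of the norm depends only on the real part -/
theorem log_eq_of_re {l : ℕ} (hl : 2 < l) {w w' : ℂ} (hw : ‖w‖ = 1) (hw' : ‖w'‖ = 1)
    (h : w.re = w'.re) : Real.log ‖1 - w / l‖ = Real.log ‖1 - w' / l‖ := by
  have h1 := nsq (by omega : 0 < l) hw
  have h2 := nsq (by omega : 0 < l) hw'
  have h3 : ‖1 - w / (l : ℂ)‖ = ‖1 - w' / (l : ℂ)‖ := by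
    rw [h] at h1
    have h4 : ‖1 - w / (l : ℂ)‖ ^ 2 = ‖1 - w' / (l : ℂ)‖ ^ 2 := h1.trans h2.symm
    exact (pow_left_inj₀ (norm_nonneg _) (norm_nonneg _) two_ne_zero).1 h4
  rw [h3]

theorem re_of_log_eq {l : ℕ} (hl : 2 < l) {w w' : ℂ} (hw : ‖w‖ = 1) (hw' : ‖w'‖ = 1)
    (h : Real.log ‖1 - w / l‖ = Real.log ‖1 - w' / l‖) : w.re = w'.re := by
  have hl0 : (l : ℝ) ≠ 0 := by exact_mod_cast (by omega : l ≠ 0)
  have h3 : ‖1 - w / (l : ℂ)‖ = ‖1 - w' / (l : ℂ)‖ :=
    Real.log_injOn_pos (norm_pos' hl hw).2.2 (norm_pos' hl hw').2.2 h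
  have h1 := nsq (by omega : 0 < l) hw
  have h2 := nsq (by omega : 0 < l) hw'
  rw [h3, h2] at h1
  have h4 : 2 * w'.re / l = 2 * w.re / l := by linarith
  rw [div_left_inj' hl0] at h4
  linarith

theorem log_bound {l : ℕ} (hl : 2 < l) {w : ℂ} (hw : ‖w‖ = 1) :
    |Real.log ‖1 - w / l‖| ≤ 2 / l := by
  obtain ⟨h1, h2, h3⟩ := norm_pos' hl hw
  have hl0 : (0 : ℝ) < l := by exact_mod_cast (by omega : 0 < l)
  have hl3 : (3 : ℝ) ≤ l := by exact_mod_cast (by omega : 3 ≤ l)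
  have h5 : 0 < 1 / (l : ℝ) := by positivity
  have h4 : 1 / (l : ℝ) ≤ 1 / 3 := one_div_le_one_div_of_le (by norm_num) hl3
  have e1 : (2 : ℝ) / l = 2 * (1 / l) := by ring
  rw [abs_le, e1]
  constructor
  · have h6 := Real.one_sub_inv_le_log_of_pos h3
    have h7 : ‖1 - w / (l : ℂ)‖⁻¹ ≤ (1 - 1 / (l : ℝ))⁻¹ := inv_anti₀ (by linarith) h1
    have h8 : (1 - 1 / (l : ℝ))⁻¹ ≤ 1 + 2 * (1 / l) := by
      rw [inv_le_comm₀ (by linarith) (by positivity), inv_le_comm₀ (by positivity) (by linarith)]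
      rw [inv_le_iff_one_le_mul₀ (by linarith)]
      nlinarith
    linarith
  · have h6 := Real.log_le_sub_one_of_pos h3
    linarith

/-- finitely many positive numbers have a positive lower bound -/
theorem lower (s : Finset ℝ) (h : ∀ x ∈ s, 0 < x) : ∃ δ : ℝ, 0 < δ ∧ ∀ x ∈ s, δ ≤ x := by
  classical
  induction s using Finset.induction_on with
  | empty => exact ⟨1, one_pos, fun x hx => absurd hx (Finset.notMem_empty x)⟩
  | insert a s _ ih =>
    obtain ⟨δ, hδ, hs⟩ := ih fun x hx => h x (Finset.mem_insert_of_mem hx)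
    refine ⟨min a δ, lt_min (h a (Finset.mem_insert_self a s)) hδ, fun x hx => ?_⟩
    rcases Finset.mem_insert.1 hx with rfl | hx
    · exact min_le_left _ _
    · exact (min_le_right _ _).trans (hs x hx)

/-- **LAC** -/
theorem lac : Pool.Agent.H577.QR.S_LAC := by
  classical
  intro d k y₀ hd
  have hnorm : ∀ w : ℂ, w ^ d = 1 → ‖w‖ = 1 := fun w hw =>
    Complex.norm_eq_one_of_pow_eq_one hw hd.ne'
  induction k with
  | zero =>
    exact ⟨∅, rfl, fun l hl => absurd hl (Finset.notMem_empty l), 1, one_pos,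
      fun w w' _ _ l hl => absurd hl (Finset.notMem_empty l)⟩
  | succ k ih =>
    obtain ⟨T, hT, hTp, γ, hγ, hmain⟩ := ih
    -- the new prime
    obtain ⟨l, hl1, hl2⟩ := Nat.exists_infinite_primes (y₀ + 3 + T.sup id + ⌈8 / γ⌉₊)
    have hlT : l ∉ T := fun h => by
      have := Finset.le_sup (f := id) h
      simp only [id] at this
      omega
    have hl3 : 2 < l := by omega
    have hl0 : (0 : ℝ) < l := by exact_mod_cast (by omega : 0 < l)
    have hl4 : 4 / (l : ℝ) ≤ γ / 2 := by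
      have h1 : 8 / γ ≤ l := (Nat.le_ceil _).trans (by exact_mod_cast (by omega : ⌈8 / γ⌉₊ ≤ l))
      rw [div_le_iff₀ hγ] at h1
      rw [div_le_iff₀ hl0]
      linarith
    -- the gap
    set R : Finset ℂ := (Polynomial.nthRoots d (1 : ℂ)).toFinset with hR
    have hmem : ∀ w : ℂ, w ^ d = 1 → w ∈ R := fun w hw => by
      rw [hR, Multiset.mem_toFinset, Polynomial.mem_nthRoots hd]
      exact hw
    obtain ⟨δ, hδ, hgap⟩ := lower (((R ×ˢ R).image fun v : ℂ × ℂ =>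
      |Real.log ‖1 - v.1 / (l : ℂ)‖ - Real.log ‖1 - v.2 / (l : ℂ)‖|).filter fun x => 0 < x)
      (fun x hx => (Finset.mem_filter.1 hx).2)
    refine ⟨insert l T, by rw [Finset.card_insert_of_notMem hlT, hT], ?_, min (γ / 2) (δ / 2),
      lt_min (by linarith) (by linarith), ?_⟩
    · intro l' hl'
      rcases Finset.mem_insert.1 hl' with rfl | h
      · exact ⟨hl2, by omega, hl3⟩
      · exact hTp l' h
    · intro w w' hw hsum
      rw [Finset.sum_insert hlT, Finset.sum_insert hlT] at hsum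
      have hwl := hw l (Finset.mem_insert_self l T)
      have hwT : ∀ l ∈ T, w l ^ d = 1 ∧ w' l ^ d = 1 := fun l' h' =>
        hw l' (Finset.mem_insert_of_mem h')
      have hb1 := log_bound hl3 (hnorm _ hwl.1)
      have hb2 := log_bound hl3 (hnorm _ hwl.2)
      have hg1 : min (γ / 2) (δ / 2) ≤ γ / 2 := min_le_left _ _
      have hg2 : min (γ / 2) (δ / 2) ≤ δ / 2 := min_le_right _ _
      have e4 : (4 : ℝ) / l = 2 / l + 2 / l := by ring
      have h5 : |∑ l ∈ T, Real.log ‖1 - w l / l‖ - ∑ l ∈ T, Real.log ‖1 - w' l / l‖| ≤ γ := by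
        rw [abs_le] at hsum hb1 hb2 ⊢
        constructor <;> linarith
      have h6 := hmain w w' hwT h5
      have h7 : ∑ l ∈ T, Real.log ‖1 - w l / l‖ = ∑ l ∈ T, Real.log ‖1 - w' l / l‖ :=
        Finset.sum_congr rfl fun l' h' => log_eq_of_re (hTp l' h').2.2
          (hnorm _ (hwT l' h').1) (hnorm _ (hwT l' h').2) (h6 l' h')
      have h8 : |Real.log ‖1 - w l / l‖ - Real.log ‖1 - w' l / l‖| ≤ δ / 2 := by
        rw [h7, add_sub_add_right_eq_sub] at hsum
        exact hsum.trans hg2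
      have h9 : Real.log ‖1 - w l / l‖ = Real.log ‖1 - w' l / l‖ := by
        by_contra hne
        have h10 : 0 < |Real.log ‖1 - w l / l‖ - Real.log ‖1 - w' l / l‖| :=
          abs_pos.2 (sub_ne_zero.2 hne)
        have h11 : δ ≤ |Real.log ‖1 - w l / l‖ - Real.log ‖1 - w' l / l‖| := hgap _ (Finset.mem_filter.2 ⟨Finset.mem_image.2 ⟨(w l, w' l),
          Finset.mem_product.2 ⟨hmem _ hwl.1, hmem _ hwl.2⟩, rfl⟩, h10⟩)
        linarith
      intro l' hl'
      rcases Finset.mem_insert.1 hl' with rfl | h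
      · exact re_of_log_eq hl3 (hnorm _ hwl.1) (hnorm _ hwl.2) h9
      · exact h6 l' h

end Pool.Agent.H253.QR577
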