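import Pool.Agent.H577.QR.Stm

/-!
# QR M4 : the mean square for the quartic characters

Helper file for the project of helper577 on MP_a3a416_nt.
-/

set_option autoImplicit false

namespace Pool.Agent.H996.QR577

open Finset Filter
open Pool.Agent.Y153.QN3 (Sym)
open Pool.Agent.W78.GA (Sp gd S_SELB)
open Pool.Agent.H577.QR

/-- analytic facts for large `x` -/
lemma large (A : ℕ) : ∃ x₀ : ℕ, ∀ x : ℕ, x₀ ≤ x →
    1 ≤ x ∧ 1 ≤ Real.log x ∧ 2 ≤ (x : ℝ) ^ (1 / 40 : ℝ) ∧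
      200 * Real.log x ^ (11 * A + 1) ≤ (x : ℝ) ^ (3 / 10 : ℝ) := by
  have h1 : ∀ᶠ y : ℝ in atTop, 1 ≤ Real.log y :=
    Real.tendsto_log_atTop.eventually_ge_atTop 1
  have h2 : ∀ᶠ y : ℝ in atTop, 2 ≤ y ^ (1 / 40 : ℝ) :=
    (tendsto_rpow_atTop (by norm_num)).eventually_ge_atTop 2
  have h3 : ∀ᶠ y : ℝ in atTop, ‖Real.log y ^ ((11 * A + 1 : ℕ) : ℝ)‖ ≤
      1 / 200 * ‖y ^ (3 / 10 : ℝ)‖ :=
    (isLittleO_log_rpow_rpow_atTop ((11 * A + 1 : ℕ) : ℝ)
      (show (0 : ℝ) < 3 / 10 by norm_num)).bound (by norm_num)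
  have h4 : ∀ᶠ y : ℝ in atTop, 1 ≤ y := eventually_ge_atTop 1
  have h5 := tendsto_natCast_atTop_atTop.eventually (h1.and (h2.and (h3.and h4)))
  obtain ⟨x₀, hx₀⟩ := eventually_atTop.1 h5
  refine ⟨x₀, fun x hx => ?_⟩
  obtain ⟨a1, a2, a3, a4⟩ := hx₀ x hx
  refine ⟨by exact_mod_cast a4, a1, a2, ?_⟩
  rw [Real.rpow_natCast, Real.norm_of_nonneg (by positivity),
    Real.norm_of_nonneg (by positivity)] at a3
  linarith

/-- the numerical inequality -/
lemma numeric {C : ℝ} (hC : 0 < C) (A x : ℕ) (hx1 : 1 ≤ x) (hL : 1 ≤ Real.log x)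
    (h40 : 2 ≤ (x : ℝ) ^ (1 / 40 : ℝ))
    (hbig : 200 * Real.log x ^ (11 * A + 1) ≤ (x : ℝ) ^ (3 / 10 : ℝ))
    {X D K : ℕ} (hX : X = Nat.sqrt x + 1) (hD : D = ⌊(x : ℝ) ^ (1 / 20 : ℝ)⌋₊)
    (hK : K = ⌊Real.log x ^ (5 * A)⌋₊ + 1) :
    2 ≤ D ∧ (C * X ^ 2 / Real.log D + 4 * X * D ^ 4) +
      (D + 4 * X * K ^ 2 * D ^ 4) * (Real.log x ^ A + 1) ≤
        (160 * C + 1) * (x / Real.log x) := by
  have hx0 : (0 : ℝ) < x := by exact_mod_cast hx1
  have hx1' : (1 : ℝ) ≤ x := by exact_mod_cast hx1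
  obtain ⟨L, hLd⟩ : ∃ L : ℝ, L = Real.log x := ⟨_, rfl⟩
  obtain ⟨y, hy⟩ : ∃ y : ℝ, y = (x : ℝ) ^ (1 / 40 : ℝ) := ⟨_, rfl⟩
  rw [← hLd] at hL hbig hK ⊢
  rw [← hy] at h40
  have hL0 : 0 < L := by linarith
  -- powers of `x`
  have hy2 : (x : ℝ) ^ (1 / 20 : ℝ) = y ^ 2 := by
    rw [hy, ← Real.rpow_natCast, ← Real.rpow_mul hx0.le]
    norm_num
  have hDle : (D : ℝ) ≤ y ^ 2 := by
    rw [hD, ← hy2]
    exact Nat.floor_le (by positivity)
  have hDge : y ^ 2 < D + 1 := by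
    rw [hD, ← hy2]
    exact Nat.lt_floor_add_one _
  have hD2' : (2 : ℝ) < D := by nlinarith
  have hD2 : 2 ≤ D := by
    have : 2 < D := by exact_mod_cast hD2'
    omega
  have hyD : y ≤ D := by nlinarith
  have hlogD : L / 40 ≤ Real.log D := by
    have : Real.log y ≤ Real.log D := Real.log_le_log (by linarith) hyD
    rw [hy, Real.log_rpow hx0, ← hLd] at this
    linarith
  have hlogD0 : 0 < Real.log D := by
    have : 0 < L / 40 := by positivity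
    linarith
  -- `X`
  obtain ⟨s, hs⟩ : ∃ s : ℝ, s = √(x : ℝ) := ⟨_, rfl⟩
  have hs2 : s ^ 2 = x := by rw [hs, Real.sq_sqrt hx0.le]
  have hs1 : 1 ≤ s := by
    rw [hs]
    exact Real.one_le_sqrt.mpr hx1'
  have hXle : (X : ℝ) ≤ 2 * s := by
    have h1 : ((Nat.sqrt x : ℕ) : ℝ) ≤ s := by
      rw [hs]
      exact Real.nat_sqrt_le_real_sqrt
    rw [hX]
    push_cast
    linarith
  have hX0 : (0 : ℝ) ≤ X := Nat.cast_nonneg X
  have hX2 : (X : ℝ) ^ 2 ≤ 4 * x := by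
    calc (X : ℝ) ^ 2 ≤ (2 * s) ^ 2 := pow_le_pow_left₀ hX0 hXle 2
      _ = 4 * x := by rw [mul_pow, hs2]; norm_num
  -- first term
  have t1 : C * X ^ 2 / Real.log D ≤ 160 * C * (x / L) := by
    calc C * (X : ℝ) ^ 2 / Real.log D ≤ C * (4 * x) / (L / 40) := by
          apply div_le_div₀ (by positivity) (mul_le_mul_of_nonneg_left hX2 hC.le)
            (by positivity) hlogD
      _ = 160 * C * (x / L) := by
          field_simp
          ring
  -- second term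
  have hy40 : y ^ 40 = x := by
    rw [hy, ← Real.rpow_natCast, ← Real.rpow_mul hx0.le]
    norm_num
  have hy12 : (x : ℝ) ^ (3 / 10 : ℝ) = y ^ 12 := by
    rw [hy, ← Real.rpow_natCast, ← Real.rpow_mul hx0.le]
    norm_num
  have hsy : s = y ^ 20 := by
    have h1 : (y ^ 20) ^ 2 = x := by rw [← pow_mul]; exact hy40
    rw [hs, ← h1, Real.sqrt_sq (by positivity)]
  have hy0 : 0 < y := by linarith
  have hD4 : (D : ℝ) ^ 4 ≤ y ^ 8 := by
    calc (D : ℝ) ^ 4 ≤ (y ^ 2) ^ 4 := pow_le_pow_left₀ (Nat.cast_nonneg D) hDle 4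
      _ = y ^ 8 := by rw [← pow_mul]
  have hXD : (X : ℝ) * D ^ 4 ≤ 2 * y ^ 28 := by
    calc (X : ℝ) * D ^ 4 ≤ (2 * s) * y ^ 8 :=
          mul_le_mul hXle hD4 (by positivity) (by positivity)
      _ = 2 * y ^ 28 := by rw [hsy]; ring
  have hLA : 1 ≤ L ^ A := one_le_pow₀ hL
  have hL5 : 1 ≤ L ^ (5 * A) := one_le_pow₀ hL
  have hKle : (K : ℝ) ≤ 2 * L ^ (5 * A) := by
    rw [hK]
    push_cast
    have := Nat.floor_le (show 0 ≤ L ^ (5 * A) by positivity)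
    linarith
  have hK2 : (K : ℝ) ^ 2 ≤ 4 * L ^ (10 * A) := by
    calc (K : ℝ) ^ 2 ≤ (2 * L ^ (5 * A)) ^ 2 := pow_le_pow_left₀ (Nat.cast_nonneg K) hKle 2
      _ = 4 * L ^ (10 * A) := by
          have e : L ^ (10 * A) = (L ^ (5 * A)) ^ 2 := by
            rw [← pow_mul]
            congr 1
            ring
          rw [e]
          ring
  have hL10 : 1 ≤ L ^ (10 * A) := one_le_pow₀ hL
  have hL11 : 1 ≤ L ^ (11 * A) := one_le_pow₀ hL
  have hLL : L ^ (10 * A) * L ^ A = L ^ (11 * A) := by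
    rw [← pow_add]
    congr 1
    ring
  have hy28 : y ^ 2 ≤ y ^ 28 := pow_le_pow_right₀ (by linarith) (by norm_num)
  have t2 : 4 * (X : ℝ) * D ^ 4 ≤ 8 * (y ^ 28 * L ^ (11 * A)) := by
    have : y ^ 28 ≤ y ^ 28 * L ^ (11 * A) := le_mul_of_one_le_right (by positivity) hL11
    nlinarith
  have t3 : ((D : ℝ) + 4 * X * K ^ 2 * D ^ 4) * (L ^ A + 1) ≤
      66 * (y ^ 28 * L ^ (11 * A)) := by
    have e1 : 4 * (X : ℝ) * K ^ 2 * D ^ 4 ≤ 32 * (y ^ 28 * L ^ (10 * A)) := by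
      calc 4 * (X : ℝ) * K ^ 2 * D ^ 4 = 4 * ((X : ℝ) * D ^ 4) * K ^ 2 := by ring
        _ ≤ 4 * (2 * y ^ 28) * (4 * L ^ (10 * A)) := by
            apply mul_le_mul (by linarith) hK2 (by positivity) (by positivity)
        _ = 32 * (y ^ 28 * L ^ (10 * A)) := by ring
    have e2 : (D : ℝ) ≤ y ^ 28 * L ^ (10 * A) := by
      calc (D : ℝ) ≤ y ^ 2 := hDle
        _ ≤ y ^ 28 := hy28
        _ ≤ y ^ 28 * L ^ (10 * A) := le_mul_of_one_le_right (by positivity) hL10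
    calc ((D : ℝ) + 4 * X * K ^ 2 * D ^ 4) * (L ^ A + 1)
        ≤ (33 * (y ^ 28 * L ^ (10 * A))) * (2 * L ^ A) := by
          apply mul_le_mul (by linarith) (by linarith) (by positivity) (by positivity)
      _ = 66 * (y ^ 28 * (L ^ (10 * A) * L ^ A)) := by ring
      _ = 66 * (y ^ 28 * L ^ (11 * A)) := by rw [hLL]
  have t4 : 200 * (y ^ 28 * L ^ (11 * A)) ≤ x / L := by
    rw [le_div_iff₀ hL0]
    calc 200 * (y ^ 28 * L ^ (11 * A)) * L = y ^ 28 * (200 * L ^ (11 * A + 1)) := by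
          rw [pow_succ]
          ring
      _ ≤ y ^ 28 * y ^ 12 := by
          rw [hy12] at hbig
          exact mul_le_mul_of_nonneg_left hbig (by positivity)
      _ = x := by rw [← pow_add, ← hy40]
  refine ⟨hD2, ?_⟩
  have hpos : 0 ≤ y ^ 28 * L ^ (11 * A) := by positivity
  nlinarith

/-- the values of the symbols have norm at most one -/
lemma norm_U {u : GaussianInt} (hu : Pool.Agent.Y153.QN3.U u) : ‖GaussianInt.toComplex u‖ ≤ 1 := by
  rcases hu with h | h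
  · rw [h, map_zero, norm_zero]
    exact zero_le_one
  · have h1 : GaussianInt.toComplex u ^ 4 = 1 := by rw [← map_pow, h, map_one]
    exact (Complex.norm_eq_one_of_pow_eq_one h1 (by norm_num)).le

/-- Cauchy-Schwarz -/
lemma cs (N : Finset ℕ) (c : ℕ → ℂ) :
    (∑ n ∈ N, ‖c n‖) ^ 2 ≤ (N.card : ℝ) * ∑ n ∈ N, ‖c n‖ ^ 2 := by
  have h := sq_sum_le_card_mul_sum_sq (s := N) (f := fun n => ‖c n‖)
  exact h

lemma mod_four {p : ℕ} (hp : p.Prime) (χ : DirichletCharacter ℂ p) (h : orderOf χ = 4) :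
    p % 4 = 1 := by
  have : Fact p.Prime := ⟨hp⟩
  have h1 : orderOf χ ∣ Fintype.card (ZMod p) - 1 :=
    MulChar.orderOf_dvd_card_sub_one (ZMod p) χ
  rw [h, ZMod.card] at h1
  have := hp.two_le
  omega

theorem m4 : S_M4 := by
  intro hSYM hNT hZS hBOX hCHI
  obtain ⟨C, hC, hbox⟩ := hBOX
  refine ⟨160 * C + 1, by positivity, fun A => ?_⟩
  obtain ⟨x₀, hx₀⟩ := large A
  refine ⟨x₀, ?_⟩
  intro x hx N hN hNd c χ
  obtain ⟨hx1, hL, h40, hbig⟩ := hx₀ x hx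
  obtain ⟨X, hX⟩ : ∃ X : ℕ, X = Nat.sqrt x + 1 := ⟨_, rfl⟩
  obtain ⟨D, hD⟩ : ∃ D : ℕ, D = ⌊(x : ℝ) ^ (1 / 20 : ℝ)⌋₊ := ⟨_, rfl⟩
  obtain ⟨K, hK⟩ : ∃ K : ℕ, K = ⌊Real.log x ^ (5 * A)⌋₊ + 1 := ⟨_, rfl⟩
  obtain ⟨hD2, hnum⟩ := numeric hC A x hx1 hL h40 hbig hX hD hK
  have hNodd : ∀ n ∈ N, n % 2 = 1 := by
    intro n hn
    have h1 : Nat.Coprime n 2 := Nat.Coprime.coprime_mul_right_right (hN n hn).1
    exact Nat.odd_iff.mp (Nat.coprime_two_right.mp h1)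
  have hsym : ∀ n ∈ N, ∃ (m : ℕ) (ε : GaussianInt → GaussianInt),
      Sym (n : ℤ) m ε ∧ n ∣ m ∧ m ≤ n ^ 5 := fun n hn => hSYM n (hNodd n hn)
  choose! m ε hS hdvd hle using hsym
  -- the primes
  obtain ⟨S, hSd⟩ : ∃ S : Finset ℕ,
    S = (Icc 1 x).filter (fun p => p.Prime ∧ orderOf (χ p) = 4) := ⟨_, rfl⟩
  rw [← hSd]
  have hSp : ∀ p ∈ S, p ≤ x ∧ p.Prime ∧ orderOf (χ p) = 4 := by
    intro p hp
    rw [hSd, mem_filter, mem_Icc] at hp
    exact ⟨hp.1.2, hp.2.1, hp.2.2⟩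
  have hch : ∀ p ∈ S, ∃ v : ℕ × ℕ, v.1 ^ 2 + v.2 ^ 2 = p ∧
      ∀ n ∈ N, χ p (n : ZMod p) = GaussianInt.toComplex (ε n ⟨v.1, v.2⟩) := by
    intro p hp
    obtain ⟨-, hpp, ho⟩ := hSp p hp
    obtain ⟨a, b, hab, h⟩ := hCHI p hpp (mod_four hpp _ ho) (χ p) ho
    exact ⟨(a, b), hab, fun n hn => h n (m n) (ε n) (hNodd n hn) (hS n hn) (hdvd n hn)⟩
  choose! v hv1 hv2 using hch
  -- the box inequality
  obtain ⟨P, hP⟩ : ∃ P : Finset (ℕ × ℕ), P = (S.filter (fun p => D < p)).image v := ⟨_, rfl⟩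
  have hb := hbox X D K hD2 (by omega) (by omega) N
    (fun n a b => GaussianInt.toComplex (ε n ⟨a, b⟩)) m ?_ ?_ ?_ ?_ c P ?_ ?_
  · -- conclusion
    obtain ⟨S2, hS2⟩ : ∃ t : ℝ, t = ∑ n ∈ N, ‖c n‖ ^ 2 := ⟨_, rfl⟩
    obtain ⟨S1, hS1⟩ : ∃ t : ℝ, t = (∑ n ∈ N, ‖c n‖) ^ 2 := ⟨_, rfl⟩
    rw [← hS2, ← hS1] at hb
    rw [← hS2]
    have hS20 : 0 ≤ S2 := by
      rw [hS2]
      positivity
    have hcard : (N.card : ℝ) ≤ Real.log x ^ A + 1 := by
      have h1 : N ⊆ range (⌊Real.log x ^ A⌋₊ + 1) := by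
        intro n hn
        rw [mem_range]
        have := Nat.le_floor (hN n hn).2
        omega
      have h2 := card_le_card h1
      rw [card_range] at h2
      have h3 : (N.card : ℝ) ≤ (⌊Real.log x ^ A⌋₊ : ℝ) + 1 := by exact_mod_cast h2
      have h4 := Nat.floor_le (show 0 ≤ Real.log x ^ A by positivity)
      linarith
    have hcs : S1 ≤ (Real.log x ^ A + 1) * S2 := by
      rw [hS1, hS2] at *
      exact (cs N c).trans (mul_le_mul_of_nonneg_right hcard hS20)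
    have hsplit := sum_filter_add_sum_filter_not S (fun p => D < p)
      (fun p => ‖∑ n ∈ N, c n * χ p (n : ZMod p)‖ ^ 2)
    have hlarge : ∑ p ∈ S.filter (fun p => D < p), ‖∑ n ∈ N, c n * χ p (n : ZMod p)‖ ^ 2 =
        ∑ w ∈ P, ‖∑ n ∈ N, c n * GaussianInt.toComplex (ε n ⟨w.1, w.2⟩)‖ ^ 2 := by
      rw [hP, sum_image]
      · refine sum_congr rfl fun p hp => ?_
        have hpS := (mem_filter.mp hp).1
        congr 2
        exact sum_congr rfl fun n hn => by rw [hv2 p hpS n hn]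
      · intro p hp q hq hpq
        have hpS := (mem_filter.mp hp).1
        have hqS := (mem_filter.mp hq).1
        rw [← hv1 p hpS, ← hv1 q hqS, hpq]
    have hsmall : ∑ p ∈ S.filter (fun p => ¬ D < p), ‖∑ n ∈ N, c n * χ p (n : ZMod p)‖ ^ 2 ≤
        D * S1 := by
      have h1 : ∀ p ∈ S.filter (fun p => ¬ D < p),
          ‖∑ n ∈ N, c n * χ p (n : ZMod p)‖ ^ 2 ≤ S1 := by
        intro p hp
        have hpS := (mem_filter.mp hp).1
        rw [hS1]
        refine pow_le_pow_left₀ (norm_nonneg _) ?_ 2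
        refine (norm_sum_le _ _).trans (sum_le_sum fun n hn => ?_)
        rw [norm_mul]
        have h3 : ‖χ p (n : ZMod p)‖ ≤ 1 := DirichletCharacter.norm_le_one _ _
        exact mul_le_of_le_one_right (norm_nonneg _) h3
      have h2 : ((S.filter (fun p => ¬ D < p)).card : ℝ) ≤ D := by
        have : S.filter (fun p => ¬ D < p) ⊆ Icc 1 D := by
          intro p hp
          have hpS := (mem_filter.mp hp).1
          have h4 := (mem_filter.mp hp).2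
          rw [mem_Icc]
          have := (hSp p hpS).2.1.one_lt
          omega
        have h5 := card_le_card this
        rw [Nat.card_Icc] at h5
        have : (S.filter (fun p => ¬ D < p)).card ≤ D := by omega
        exact_mod_cast this
      calc ∑ p ∈ S.filter (fun p => ¬ D < p), ‖∑ n ∈ N, c n * χ p (n : ZMod p)‖ ^ 2
          ≤ ∑ p ∈ S.filter (fun p => ¬ D < p), S1 := sum_le_sum h1
        _ = ((S.filter (fun p => ¬ D < p)).card : ℝ) * S1 := by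
            rw [sum_const, nsmul_eq_mul]
        _ ≤ D * S1 := by
            apply mul_le_mul_of_nonneg_right h2
            rw [hS1]
            positivity
    rw [← hsplit, hlarge]
    have hDK : (0 : ℝ) ≤ D + 4 * X * K ^ 2 * D ^ 4 := by positivity
    have h6 := mul_le_mul_of_nonneg_left hcs hDK
    have h7 := mul_le_mul_of_nonneg_right hnum hS20
    calc ∑ w ∈ P, ‖∑ n ∈ N, c n * GaussianInt.toComplex (ε n ⟨w.1, w.2⟩)‖ ^ 2 +
          ∑ p ∈ S.filter (fun p => ¬ D < p), ‖∑ n ∈ N, c n * χ p (n : ZMod p)‖ ^ 2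
        ≤ ((C * X ^ 2 / Real.log D + 4 * X * D ^ 4) * S2 + 4 * X * K ^ 2 * D ^ 4 * S1) +
          D * S1 := add_le_add hb hsmall
      _ = (C * X ^ 2 / Real.log D + 4 * X * D ^ 4) * S2 +
          (D + 4 * X * K ^ 2 * D ^ 4) * S1 := by ring
      _ ≤ (C * X ^ 2 / Real.log D + 4 * X * D ^ 4) * S2 +
          (D + 4 * X * K ^ 2 * D ^ 4) * ((Real.log x ^ A + 1) * S2) := by linarith
      _ = ((C * X ^ 2 / Real.log D + 4 * X * D ^ 4) +
          (D + 4 * X * K ^ 2 * D ^ 4) * (Real.log x ^ A + 1)) * S2 := by ring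
      _ ≤ (160 * C + 1) * (x / Real.log x) * S2 := h7
  · -- `m n ≤ K`
    intro n hn
    refine ⟨(hS n hn).pos, ?_⟩
    have h1 : (m n : ℝ) ≤ Real.log x ^ (5 * A) := by
      calc (m n : ℝ) ≤ ((n ^ 5 : ℕ) : ℝ) := by exact_mod_cast hle n hn
        _ = (n : ℝ) ^ 5 := by push_cast; rfl
        _ ≤ (Real.log x ^ A) ^ 5 := pow_le_pow_left₀ (Nat.cast_nonneg n) (hN n hn).2 5
        _ = Real.log x ^ (5 * A) := by
            rw [← pow_mul]
            congr 1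
            ring
    have h2 : m n ≤ ⌊Real.log x ^ (5 * A)⌋₊ := Nat.le_floor h1
    omega
  · intro n hn a b
    exact norm_U ((hS n hn).U _)
  · intro n hn a b
    constructor
    · have : ε n ⟨a + m n, b⟩ = ε n ⟨a, b⟩ := by
        apply (hS n hn).per
        refine ⟨1, ?_⟩
        rw [Zsqrtd.ext_iff]
        simp
      simp only [this]
    · have : ε n ⟨a, b + m n⟩ = ε n ⟨a, b⟩ := by
        apply (hS n hn).per
        refine ⟨⟨0, 1⟩, ?_⟩
        rw [Zsqrtd.ext_iff]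
        simp
      simp only [this]
  · intro n hn n' hn' hne d hd hdp
    exact hZS n n' (m n) (m n') (ε n) (ε n') (hNodd n hn) (hNodd n' hn') (hS n hn) (hdvd n hn)
      (hS n' hn') (hdvd n' hn') (hNT n n' (hNodd n hn) (hNodd n' hn') (hNd n hn n' hn' hne)
        (m n) (m n') (ε n) (ε n') (hS n hn) (hS n' hn')) d hd hdp
  · -- in the box
    intro w hw
    rw [hP, mem_image] at hw
    obtain ⟨p, hp, rfl⟩ := hw
    have hpS := (mem_filter.mp hp).1
    have hpx := (hSp p hpS).1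
    have h1 := hv1 p hpS
    have hb1 : (v p).1 < X := by
      rw [hX]
      have : (v p).1 ≤ Nat.sqrt x := by
        rw [Nat.le_sqrt']
        nlinarith [Nat.zero_le ((v p).2 ^ 2)]
      omega
    have hb2 : (v p).2 < X := by
      rw [hX]
      have : (v p).2 ≤ Nat.sqrt x := by
        rw [Nat.le_sqrt']
        nlinarith [Nat.zero_le ((v p).1 ^ 2)]
      omega
    rw [mem_product, mem_range, mem_range]
    exact ⟨hb1, hb2⟩
  · -- no small divisors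
    intro w hw e he heD hdiv
    rw [hP, mem_image] at hw
    obtain ⟨p, hp, rfl⟩ := hw
    have hpS := (mem_filter.mp hp).1
    have hDp := (mem_filter.mp hp).2
    have h1 := hv1 p hpS
    have hQ : Qf 0 1 (v p).1 (v p).2 = (p : ℤ) := by
      have h1' : ((v p).1 : ℤ) ^ 2 + ((v p).2 : ℤ) ^ 2 = p := by exact_mod_cast h1
      unfold Qf
      linear_combination h1'
    rw [hQ] at hdiv
    have h2 : e ∣ p := by exact_mod_cast hdiv
    rcases (Nat.dvd_prime (hSp p hpS).2.1).mp h2 with h3 | h3 <;> omega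

end Pool.Agent.H996.QR577
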