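import Pool.Agent.H577.QR.Stm2

/-!
# Number of primes with given values of the characters (`S_PAT`)
-/

set_option autoImplicit false

namespace Pool.Agent.H685.QR577

open Finset
open Pool.Agent.H577.QR

section

variable {Q : Finset ℕ} {d : ℕ}

/-- the number with the exponents `j` -/
def nn (j : Q → Fin d) : ℕ := ∏ l : Q, (l : ℕ) ^ (j l : ℕ)

theorem nn_ne (hQ : ∀ l ∈ Q, l.Prime) (j : Q → Fin d) : nn j ≠ 0 :=
  Finset.prod_ne_zero_iff.2 fun l _ => pow_ne_zero _ (hQ l l.2).ne_zero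

theorem nn_fac (hQ : ∀ l ∈ Q, l.Prime) (j : Q → Fin d) (l : Q) :
    (nn j).factorization (l : ℕ) = (j l : ℕ) := by
  unfold nn
  have h0 : ∀ l' ∈ (univ : Finset Q), (l' : ℕ) ^ (j l' : ℕ) ≠ 0 :=
    fun l' _ => pow_ne_zero _ (hQ l' l'.2).ne_zero
  rw [Nat.factorization_prod_apply h0, Finset.sum_eq_single_of_mem l (mem_univ l)]
  · rw [(hQ l l.2).factorization_pow, Finsupp.single_eq_same]
  · intro l' _ hne
    rw [(hQ l' l'.2).factorization_pow, Finsupp.single_eq_of_ne]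
    intro h
    exact hne (Subtype.ext h.symm)

theorem nn_inj (hQ : ∀ l ∈ Q, l.Prime) : Function.Injective (nn (Q := Q) (d := d)) := by
  intro j j' h
  funext l
  apply Fin.ext
  rw [← nn_fac hQ, ← nn_fac hQ, h]

theorem nn_pow (hd : 2 ≤ d) (hQ : ∀ l ∈ Q, l.Prime) (j j' : Q → Fin d)
    (h : ∃ b : ℕ, nn j * nn j' ^ (d - 1) = b ^ d) : j = j' := by
  obtain ⟨b, hb⟩ := h
  funext l
  apply Fin.ext
  have h1 : Nat.factorization (nn j * nn j' ^ (d - 1)) (l : ℕ) = Nat.factorization (b ^ d) (l : ℕ) := by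
    rw [hb]
  rw [Nat.factorization_mul (nn_ne hQ j) (pow_ne_zero _ (nn_ne hQ j')), Nat.factorization_pow,
    Nat.factorization_pow, Finsupp.add_apply, Finsupp.smul_apply, Finsupp.smul_apply, nn_fac hQ,
    nn_fac hQ, smul_eq_mul, smul_eq_mul] at h1
  obtain ⟨e, he⟩ : ∃ e, d = e + 1 := ⟨d - 1, by omega⟩
  have h2 : (d - 1) = e := by omega
  rw [h2] at h1
  have h3 : (j l : ℕ) + (d * (j' l : ℕ)) = d * b.factorization (l : ℕ) + (j' l : ℕ) := by
    rw [← h1]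
    have h5 : d * (j' l : ℕ) = e * (j' l : ℕ) + (j' l : ℕ) := by
      have h6 : (e + 1) * (j' l : ℕ) = e * (j' l : ℕ) + (j' l : ℕ) := by ring
      have h7 : d * (j' l : ℕ) = (e + 1) * (j' l : ℕ) := congrArg (· * (j' l : ℕ)) he
      exact h7.trans h6
    rw [h5, add_assoc]
  have h4 : (j l : ℕ) % d = (j' l : ℕ) % d := by
    have := congrArg (· % d) h3
    simpa only [Nat.add_mul_mod_self_left, Nat.mul_add_mod] using this
  rwa [Nat.mod_eq_of_lt (j l).2, Nat.mod_eq_of_lt (j' l).2] at h4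

theorem nn_le (hQ : ∀ l ∈ Q, l.Prime) (j : Q → Fin d) : nn j ≤ ∏ l ∈ Q, l ^ d := by
  unfold nn
  rw [← Finset.prod_coe_sort Q (fun l => l ^ d)]
  exact Finset.prod_le_prod (fun l _ => Nat.zero_le _) fun l _ =>
    Nat.pow_le_pow_right (hQ l l.2).pos (j l).2.le

theorem nn_cop (hQ : ∀ l ∈ Q, l.Prime ∧ ¬ l ∣ 2 * d) (j : Q → Fin d) : Nat.Coprime (nn j) (2 * d) := by
  unfold nn
  exact Nat.Coprime.prod_left fun l _ => Nat.Coprime.pow_left _
    ((Nat.Prime.coprime_iff_not_dvd (hQ l l.2).1).2 (hQ l l.2).2)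

/-- the coefficients -/
noncomputable def cc (Q : Finset ℕ) (d : ℕ) (w : ℕ → ℂ) (n : ℕ) : ℂ :=
  ∏ l : Q, ((starRingEnd ℂ) (w l) ^ n.factorization (l : ℕ) / (d : ℂ))

theorem cc_nn (hQ : ∀ l ∈ Q, l.Prime) (w : ℕ → ℂ) (j : Q → Fin d) :
    cc Q d w (nn j) = ∏ l : Q, ((starRingEnd ℂ) (w l) ^ (j l : ℕ) / (d : ℂ)) := by
  unfold cc
  refine Finset.prod_congr rfl fun l _ => ?_
  rw [nn_fac hQ]

theorem norm_w (hd : 2 ≤ d) {z : ℂ} (h : z ^ d = 1) : ‖z‖ = 1 := by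
  have h1 : ‖z‖ ^ d = 1 := by rw [← norm_pow, h, norm_one]
  exact (pow_eq_one_iff_of_nonneg (norm_nonneg z) (by omega)).1 h1

theorem norm_cc (hd : 2 ≤ d) (hQ : ∀ l ∈ Q, l.Prime) {w : ℕ → ℂ} (hw : ∀ l ∈ Q, w l ^ d = 1)
    (j : Q → Fin d) : ‖cc Q d w (nn j)‖ ^ 2 = ((d : ℝ) ^ Q.card)⁻¹ ^ 2 := by
  rw [cc_nn hQ, norm_prod]
  congr 1
  have h1 : ∀ l : Q, ‖(starRingEnd ℂ) (w l) ^ (j l : ℕ) / (d : ℂ)‖ = (d : ℝ)⁻¹ := by
    intro l
    rw [norm_div, norm_pow, Complex.norm_conj, norm_w hd (hw l l.2), one_pow, Complex.norm_natCast,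
      one_div]
  rw [Finset.prod_congr rfl fun l _ => h1 l, Finset.prod_const, Finset.card_univ,
    Fintype.card_coe, inv_pow]

/-- the sum is one if the character has the given values -/
theorem sum_one (hd : 2 ≤ d) (hQ : ∀ l ∈ Q, l.Prime) {w : ℕ → ℂ} (hw : ∀ l ∈ Q, w l ^ d = 1) {p : ℕ}
    (χ : DirichletCharacter ℂ p) (hχ : ∀ l ∈ Q, χ (l : ZMod p) = w l) :
    ∑ n ∈ univ.image (nn (Q := Q) (d := d)), cc Q d w n * χ (n : ZMod p) = 1 := by
  rw [Finset.sum_image fun a _ b _ h => nn_inj hQ h]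
  have hd0 : (d : ℂ) ≠ 0 := by
    have : d ≠ 0 := by omega
    exact_mod_cast this
  have h1 : ∀ j : Q → Fin d, cc Q d w (nn j) * χ ((nn j : ℕ) : ZMod p) = ∏ l : Q, (1 / (d : ℂ)) := by
    intro j
    rw [cc_nn hQ]
    have h2 : χ ((nn j : ℕ) : ZMod p) = ∏ l : Q, w l ^ (j l : ℕ) := by
      unfold nn
      rw [Nat.cast_prod, map_prod]
      refine Finset.prod_congr rfl fun l _ => ?_
      rw [Nat.cast_pow, map_pow, hχ l l.2]
    rw [h2, ← Finset.prod_mul_distrib]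
    refine Finset.prod_congr rfl fun l _ => ?_
    rw [div_mul_eq_mul_div, ← mul_pow]
    have h3 : (starRingEnd ℂ) (w l) * w l = 1 := by
      rw [mul_comm, Complex.mul_conj, Complex.normSq_eq_norm_sq, norm_w hd (hw l l.2)]
      norm_num
    rw [h3, one_pow]
  rw [Finset.sum_congr rfl fun j _ => h1 j, Finset.sum_const, Finset.card_univ, Finset.prod_const,
    Finset.card_univ, Fintype.card_fun, Fintype.card_fin, Fintype.card_coe, nsmul_eq_mul]
  push_cast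
  rw [one_div, inv_pow, mul_inv_cancel₀ (pow_ne_zero _ hd0)]

end

theorem pat {d : ℕ} (hd : 2 ≤ d) (h : S_M d) : S_PAT d := by
  obtain ⟨C, hC, hM⟩ := h
  refine ⟨C, hC, fun Q hQ => ?_⟩
  have hQp : ∀ l ∈ Q, l.Prime := fun l hl => (hQ l hl).1
  obtain ⟨x₀, hx₀⟩ := hM 1
  obtain ⟨x₁, hx₁⟩ : ∃ x₁ : ℕ, ∀ x : ℕ, x₁ ≤ x → ((∏ l ∈ Q, l ^ d : ℕ) : ℝ) ≤ Real.log x := by
    have h1 : Filter.Tendsto (fun x : ℕ => Real.log (x : ℝ)) Filter.atTop Filter.atTop :=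
      Real.tendsto_log_atTop.comp tendsto_natCast_atTop_atTop
    exact Filter.eventually_atTop.1 (h1.eventually_ge_atTop _)
  refine ⟨max x₀ x₁, fun x hx w χ hw => ?_⟩
  classical
  have hdR : (0 : ℝ) < d := by
    have : 0 < d := by omega
    exact_mod_cast this
  have h1 := hx₀ x (le_trans (le_max_left _ _) hx) (univ.image (nn (Q := Q) (d := d))) ?_ ?_
    (cc Q d w) χ
  · have h2 : ∑ n ∈ univ.image (nn (Q := Q) (d := d)), ‖cc Q d w n‖ ^ 2 = ((d : ℝ) ^ Q.card)⁻¹ := by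
      rw [Finset.sum_image fun a _ b _ h => nn_inj hQp h,
        Finset.sum_congr rfl fun j _ => norm_cc hd hQp hw j, Finset.sum_const, Finset.card_univ,
        Fintype.card_fun, Fintype.card_fin, Fintype.card_coe, nsmul_eq_mul]
      push_cast
      have h3 : (d : ℝ) ^ Q.card ≠ 0 := (pow_pos hdR _).ne'
      field_simp
    rw [h2, ← div_eq_mul_inv] at h1
    refine le_trans ?_ h1
    rw [Finset.card_eq_sum_ones, Nat.cast_sum]
    refine le_trans (Finset.sum_le_sum (g := fun p => ‖∑ n ∈ univ.image (nn (Q := Q) (d := d)),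
      cc Q d w n * χ p (n : ZMod p)‖ ^ 2) ?_) (Finset.sum_le_sum_of_subset_of_nonneg ?_ ?_)
    · intro p hp
      rw [sum_one hd hQp hw (χ p) (Finset.mem_filter.1 hp).2.2.2]
      norm_num
    · intro p hp
      have h4 := Finset.mem_filter.1 hp
      exact Finset.mem_filter.2 ⟨h4.1, h4.2.1, h4.2.2.1⟩
    · intro p _ _
      positivity
  · intro n hn
    obtain ⟨j, -, rfl⟩ := Finset.mem_image.1 hn
    refine ⟨nn_cop hQ j, ?_⟩
    rw [pow_one]
    refine le_trans ?_ (hx₁ x (le_trans (le_max_right _ _) hx))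
    exact_mod_cast nn_le hQp j
  · intro n hn n' hn' hne hb
    obtain ⟨j, -, rfl⟩ := Finset.mem_image.1 hn
    obtain ⟨j', -, rfl⟩ := Finset.mem_image.1 hn'
    exact hne (congrArg nn (nn_pow hd hQp j j' hb))

end Pool.Agent.H685.QR577
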