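import Pool.Agent.H577.QR.Stm

set_option autoImplicit false

namespace Pool.Agent.H34.QR577.TR

open Finset Filter
open Pool.Agent.H577.QR

lemma log_norm_one_sub {w : ℂ} (hw : ‖w‖ ≤ 1 / 2) :
    |Real.log ‖1 - w‖ + w.re| ≤ ‖w‖ ^ 2 := by
  have h1 : ‖-w‖ < 1 := by rw [norm_neg]; linarith
  have h := Complex.norm_log_one_add_sub_self_le h1
  rw [norm_neg] at h
  have h2 : Real.log ‖1 - w‖ + w.re = (Complex.log (1 + -w) - -w).re := by
    rw [Complex.sub_re, Complex.log_re, Complex.neg_re, ← sub_eq_add_neg]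
    ring
  rw [h2]
  refine (Complex.abs_re_le_norm _).trans (h.trans ?_)
  have h0 : 0 ≤ ‖w‖ := norm_nonneg _
  have h3 : (1 - ‖w‖)⁻¹ ≤ 2 := by
    rw [inv_le_comm₀ (by linarith) (by norm_num)]
    linarith
  have h4 : ‖w‖ ^ 2 * (1 - ‖w‖)⁻¹ ≤ ‖w‖ ^ 2 * 2 :=
    mul_le_mul_of_nonneg_left h3 (sq_nonneg _)
  linarith

lemma norm_term {f : ℕ} (χ : DirichletCharacter ℂ f) (l : ℕ) :
    ‖χ (l : ZMod f) / l‖ ≤ 1 / (l : ℝ) := by
  rw [norm_div, Complex.norm_natCast]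
  exact div_le_div_of_nonneg_right (DirichletCharacter.norm_le_one χ _) (Nat.cast_nonneg _)

lemma norm_term_half {f : ℕ} (χ : DirichletCharacter ℂ f) {l : ℕ} (hl : 2 ≤ l) :
    ‖χ (l : ZMod f) / l‖ ≤ 1 / 2 := by
  refine (norm_term χ l).trans ?_
  have : (2 : ℝ) ≤ l := by exact_mod_cast hl
  exact one_div_le_one_div_of_le (by norm_num) this

lemma one_sub_ne {f : ℕ} (χ : DirichletCharacter ℂ f) {l : ℕ} (hl : 2 ≤ l) :
    (1 : ℂ) - χ (l : ZMod f) / l ≠ 0 := by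
  intro h
  have h1 := norm_term_half χ hl
  have h2 : χ (l : ZMod f) / l = 1 := (sub_eq_zero.mp h).symm
  rw [h2, norm_one] at h1
  norm_num at h1

lemma mem_pr {y z l : ℕ} : l ∈ pr y z ↔ (y < l ∧ l ≤ z) ∧ l.Prime := by
  unfold pr
  rw [mem_filter, mem_Ioc]

lemma pr_union {z N : ℕ} (h : z ≤ N) : pr 0 N = pr 0 z ∪ pr z N := by
  ext l
  rw [mem_union, mem_pr, mem_pr, mem_pr]
  constructor
  · rintro ⟨⟨h1, h2⟩, h3⟩
    rcases le_or_gt l z with h4 | h4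
    · exact Or.inl ⟨⟨h1, h4⟩, h3⟩
    · exact Or.inr ⟨⟨h4, h2⟩, h3⟩
  · rintro (⟨⟨h1, h2⟩, h3⟩ | ⟨⟨h1, h2⟩, h3⟩)
    · exact ⟨⟨h1, h2.trans h⟩, h3⟩
    · exact ⟨⟨lt_of_le_of_lt (Nat.zero_le _) h1, h2⟩, h3⟩

lemma pr_disj (z N : ℕ) : Disjoint (pr 0 z) (pr z N) := by
  rw [Finset.disjoint_left]
  intro l h1 h2
  rw [mem_pr] at h1 h2
  omega

lemma sum_log_medium {f : ℕ} (χ : DirichletCharacter ℂ f) {z N : ℕ} (hz : 0 < z) (h : z ≤ N) :
    |∑ l ∈ pr z N, Real.log ‖1 - χ (l : ZMod f) / l‖| ≤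
      ‖∑ l ∈ pr z N, χ (l : ZMod f) / l‖ + 1 / (z : ℝ) := by
  have h1 : |∑ l ∈ pr z N, (Real.log ‖1 - χ (l : ZMod f) / l‖ + (χ (l : ZMod f) / l : ℂ).re)| ≤
      1 / (z : ℝ) := by
    refine (Finset.abs_sum_le_sum_abs _ _).trans ?_
    have h2 : ∑ l ∈ pr z N, |Real.log ‖1 - χ (l : ZMod f) / l‖ + (χ (l : ZMod f) / l : ℂ).re| ≤
        ∑ l ∈ pr z N, (((l : ℝ)) ^ 2)⁻¹ := by
      refine Finset.sum_le_sum fun l hl => ?_
      rw [mem_pr] at hl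
      have hl2 : 2 ≤ l := hl.2.two_le
      refine (log_norm_one_sub (norm_term_half χ hl2)).trans ?_
      have h3 := norm_term χ l
      have h4 : (((l : ℝ)) ^ 2)⁻¹ = (1 / (l : ℝ)) ^ 2 := by
        rw [one_div, inv_pow]
      rw [h4]
      exact pow_le_pow_left₀ (norm_nonneg _) h3 2
    refine h2.trans ?_
    have h5 : ∑ l ∈ pr z N, (((l : ℝ)) ^ 2)⁻¹ ≤ ∑ l ∈ Ioc z N, (((l : ℝ)) ^ 2)⁻¹ := by
      refine Finset.sum_le_sum_of_subset_of_nonneg (Finset.filter_subset _ _) fun i _ _ => ?_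
      positivity
    refine h5.trans ((sum_Ioc_inv_sq_le_sub hz.ne' h).trans ?_)
    have h6 : (0 : ℝ) ≤ (N : ℝ)⁻¹ := by positivity
    rw [one_div]
    linarith
  rw [Finset.sum_add_distrib, ← Complex.re_sum] at h1
  have h7 := Complex.abs_re_le_norm (∑ l ∈ pr z N, χ (l : ZMod f) / l)
  rw [abs_le] at h1 h7 ⊢
  constructor <;> linarith [h1.1, h1.2, h7.1, h7.2]

lemma log_near_one {a e : ℝ} (he : 0 < e) (he2 : e ≤ 1 / 2) (h : |a - 1| ≤ e) :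
    0 < a ∧ |Real.log a| ≤ 2 * e := by
  rw [abs_le] at h
  have ha : 0 < a := by linarith [h.1]
  refine ⟨ha, ?_⟩
  rw [abs_le]
  constructor
  · have h1 := Real.one_sub_inv_le_log_of_pos ha
    have h2 : a⁻¹ ≤ 1 + 2 * e := by
      rw [inv_le_comm₀ ha (by linarith)]
      have h3 : (1 + 2 * e)⁻¹ ≤ 1 - e := by
        rw [inv_le_iff_one_le_mul₀ (by linarith)]
        nlinarith
      linarith [h.1]
    linarith
  · have h1 := Real.log_le_sub_one_of_pos ha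
    linarith [h.2]

lemma prim_of_prime {p : ℕ} [NeZero p] (hp : p.Prime) {χ : DirichletCharacter ℂ p} (hχ : χ ≠ 1) :
    χ.IsPrimitive := by
  rw [DirichletCharacter.isPrimitive_def]
  rcases (Nat.dvd_prime hp).mp (DirichletCharacter.conductor_dvd_level χ) with h | h
  · exact absurd (DirichletCharacter.eq_one_iff_conductor_eq_one.mpr h) hχ
  · exact h

lemma main_ineq {f : ℕ} [NeZero f] (χ : DirichletCharacter ℂ f) {z N : ℕ} (hz : 0 < z) (h : z ≤ N)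
    {e : ℝ} (he : 0 < e) (he2 : e ≤ 1 / 2)
    (h1 : ‖DirichletCharacter.LFunction χ 1 * ∏ l ∈ pr 0 N, (1 - χ (l : ZMod f) / l) - 1‖ ≤ e)
    (h2 : ‖∑ l ∈ pr z N, χ (l : ZMod f) / l‖ ≤ e) :
    |Real.log ‖DirichletCharacter.LFunction χ 1‖ +
      ∑ l ∈ pr 0 z, Real.log ‖1 - χ (l : ZMod f) / l‖| ≤ 3 * e + 1 / (z : ℝ) := by
  set L := DirichletCharacter.LFunction χ 1 with hL
  set P := ∏ l ∈ pr 0 N, (1 - χ (l : ZMod f) / l) with hP
  have h3 : |‖L * P‖ - 1| ≤ e := by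
    have := abs_norm_sub_norm_le (L * P) 1
    rw [norm_one] at this
    exact this.trans h1
  obtain ⟨h4, h5⟩ := log_near_one he he2 h3
  have h6 : ‖L * P‖ ≠ 0 := h4.ne'
  rw [norm_mul] at h6 h5
  have hL0 : ‖L‖ ≠ 0 := left_ne_zero_of_mul h6
  have hP0 : ‖P‖ ≠ 0 := right_ne_zero_of_mul h6
  rw [Real.log_mul hL0 hP0] at h5
  have h7 : Real.log ‖P‖ = ∑ l ∈ pr 0 N, Real.log ‖1 - χ (l : ZMod f) / l‖ := by
    rw [hP, norm_prod, Real.log_prod]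
    intro l hl
    rw [mem_pr] at hl
    exact norm_ne_zero_iff.mpr (one_sub_ne χ hl.2.two_le)
  rw [h7, pr_union h, Finset.sum_union (pr_disj z N)] at h5
  have h8 := sum_log_medium χ hz h
  rw [abs_le] at h5 h8 ⊢
  constructor <;> linarith [h5.1, h5.2, h8.1, h8.2]

theorem tr (h1 : S_A1) (h2 : S_A2) : S_TR := by
  classical
  intro ε hε
  set e : ℝ := min ε 1 / 8 with he
  have he0 : 0 < e := by
    have : 0 < min ε 1 := lt_min hε one_pos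
    rw [he]; linarith
  have he1 : e ≤ 1 / 8 := by
    have : min ε 1 ≤ 1 := min_le_right _ _
    rw [he]; linarith
  have he2 : 8 * e ≤ ε := by
    have : min ε 1 ≤ ε := min_le_left _ _
    rw [he]; linarith
  obtain ⟨x1, hx1⟩ := h1 e he0
  obtain ⟨x2, hx2⟩ := h2 e he0
  have hlim : Tendsto (fun x : ℕ => Real.log (x : ℝ) ^ 20) atTop atTop :=
    (tendsto_pow_atTop (by norm_num : (20 : ℕ) ≠ 0)).comp
      (Real.tendsto_log_atTop.comp tendsto_natCast_atTop_atTop)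
  obtain ⟨x3, hx3⟩ := Filter.eventually_atTop.mp
    (hlim.eventually (Filter.eventually_ge_atTop (1 / e)))
  refine ⟨max (max x1 x2) (max x3 16), fun x hx z hz1 hz2 => ?_⟩
  have hxx1 : x1 ≤ x := le_trans (le_trans (le_max_left _ _) (le_max_left _ _)) hx
  have hxx2 : x2 ≤ x := le_trans (le_trans (le_max_right _ _) (le_max_left _ _)) hx
  have hxx3 : x3 ≤ x := le_trans (le_trans (le_max_left _ _) (le_max_right _ _)) hx
  have hxx4 : 16 ≤ x := le_trans (le_trans (le_max_right _ _) (le_max_right _ _)) hx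
  have hze : 1 / e ≤ z := (hx3 x hxx3).trans hz1
  have hz0R : (0 : ℝ) < z := lt_of_lt_of_le (by positivity) hze
  have hz0 : 0 < z := by exact_mod_cast hz0R
  have hze2 : 1 / (z : ℝ) ≤ e := by
    rw [one_div_le hz0R he0]
    exact hze
  have hA1 := hx1 x hxx1
  have hA2 := hx2 x hxx2 z hz1 hz2
  set S1 := (Icc 3 x).filter (fun f => ∃ (_ : NeZero f) (χ : DirichletCharacter ℂ f),
    χ.IsPrimitive ∧ e < ‖DirichletCharacter.LFunction χ 1 *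
      ∏ l ∈ pr 0 (x ^ 4), (1 - χ (l : ZMod f) / l) - 1‖) with hS1
  set S2 := (Icc 1 x).filter (fun f => ∃ χ : DirichletCharacter ℂ f, χ.IsPrimitive ∧
    e < ‖∑ l ∈ pr z (x ^ 4), χ (l : ZMod f) / l‖) with hS2
  have hsub : (Icc 3 x).filter (fun p => p.Prime ∧ ∃ (_ : NeZero p) (χ : DirichletCharacter ℂ p),
      χ ≠ 1 ∧ ε < |Real.log ‖DirichletCharacter.LFunction χ 1‖ +
      ∑ l ∈ pr 0 z, Real.log ‖1 - χ (l : ZMod p) / l‖|) ⊆ S1 ∪ S2 := by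
    intro p hp
    rw [mem_filter] at hp
    obtain ⟨hpI, hpp, hne, χ, hχ, hlt⟩ := hp
    by_contra hcon
    rw [mem_union, not_or] at hcon
    have hprim := prim_of_prime hpp hχ
    rw [mem_Icc] at hpI
    have k1 : ‖DirichletCharacter.LFunction χ 1 *
      ∏ l ∈ pr 0 (x ^ 4), (1 - χ (l : ZMod p) / l) - 1‖ ≤ e := by
      by_contra hh
      push Not at hh
      exact hcon.1 (mem_filter.mpr ⟨mem_Icc.mpr hpI, hne, χ, hprim, hh⟩)
    have k2 : ‖∑ l ∈ pr z (x ^ 4), χ (l : ZMod p) / l‖ ≤ e := by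
      by_contra hh
      push Not at hh
      exact hcon.2 (mem_filter.mpr ⟨mem_Icc.mpr ⟨by omega, hpI.2⟩, χ, hprim, hh⟩)
    have k3 := main_ineq χ hz0 hz2 he0 (by linarith) k1 k2
    linarith
  have hc : (((Icc 3 x).filter (fun p => p.Prime ∧ ∃ (_ : NeZero p) (χ : DirichletCharacter ℂ p),
      χ ≠ 1 ∧ ε < |Real.log ‖DirichletCharacter.LFunction χ 1‖ +
      ∑ l ∈ pr 0 z, Real.log ‖1 - χ (l : ZMod p) / l‖|)).card : ℝ) ≤ S1.card + S2.card := by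
    exact_mod_cast (Finset.card_le_card hsub).trans (Finset.card_union_le _ _)
  have hx0 : (0 : ℝ) ≤ x := Nat.cast_nonneg _
  have hx16 : (16 : ℝ) ≤ x := by exact_mod_cast hxx4
  have hq : (2 : ℝ) ≤ (x : ℝ) ^ (1 / 4 : ℝ) := by
    have h16 : (16 : ℝ) ^ (1 / 4 : ℝ) = 2 := by
      rw [show (16 : ℝ) = 2 ^ (4 : ℝ) by norm_num, ← Real.rpow_mul (by norm_num)]
      norm_num
    calc (2 : ℝ) = (16 : ℝ) ^ (1 / 4 : ℝ) := h16.symm
      _ ≤ _ := Real.rpow_le_rpow (by norm_num) hx16 (by norm_num)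
  have hh : (x : ℝ) ^ (1 / 2 : ℝ) = (x : ℝ) ^ (1 / 4 : ℝ) * (x : ℝ) ^ (1 / 4 : ℝ) := by
    rw [← Real.rpow_add (by linarith)]
    norm_num
  have hh3 : (x : ℝ) ^ (3 / 4 : ℝ) =
      (x : ℝ) ^ (1 / 4 : ℝ) * ((x : ℝ) ^ (1 / 4 : ℝ) * (x : ℝ) ^ (1 / 4 : ℝ)) := by
    rw [← Real.rpow_add (by linarith), ← Real.rpow_add (by linarith)]
    norm_num
  refine hc.trans ?_
  rw [hh] at hA2
  rw [hh3]
  set q := (x : ℝ) ^ (1 / 4 : ℝ) with hqd
  nlinarith [mul_self_nonneg (q - 2), mul_nonneg (by linarith : (0 : ℝ) ≤ q - 2)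
    (mul_nonneg (by linarith : (0 : ℝ) ≤ q) (by linarith : (0 : ℝ) ≤ q))]

end Pool.Agent.H34.QR577.TR
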