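import Pool.Agent.H577.QR.Stm

/-!
# Complete sums of quartic symbols vanish (`S_ZS`)
-/

set_option autoImplicit false

namespace Pool.Agent.H685.QR577

open Finset
open Pool.Agent.H577.QR
open Pool.Agent.Y153.QN3 (Sym cop_iff cop_congr cop_mul_right)
open Pool.Agent.W78.GA (Sp)

section

variable (M : ℕ) (F : GaussianInt → ℂ)

/-- the function on the residue classes -/
noncomputable def GG (v : ZMod M × ZMod M) : ℂ := F ⟨(v.1.val : ℤ), (v.2.val : ℤ)⟩

/-- multiplication by `β` on the residue classes -/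
def TT (β : GaussianInt) (v : ZMod M × ZMod M) : ZMod M × ZMod M :=
  ((β.re : ZMod M) * v.1 - (β.im : ZMod M) * v.2, (β.re : ZMod M) * v.2 + (β.im : ZMod M) * v.1)

variable {M F}

theorem dvd_sub_of {α β : GaussianInt} (h1 : (M : ℤ) ∣ α.re - β.re) (h2 : (M : ℤ) ∣ α.im - β.im) :
    (M : GaussianInt) ∣ α - β := by
  obtain ⟨c, hc⟩ := h1
  obtain ⟨e, he⟩ := h2
  refine ⟨⟨c, e⟩, ?_⟩
  apply Zsqrtd.ext
  · rw [Zsqrtd.re_sub, hc, Zsqrtd.re_mul, Zsqrtd.re_natCast, Zsqrtd.im_natCast]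
    ring
  · rw [Zsqrtd.im_sub, he, Zsqrtd.im_mul, Zsqrtd.re_natCast, Zsqrtd.im_natCast]
    ring

theorem F_eq_GG [NeZero M] (hF : ∀ α β : GaussianInt, (M : GaussianInt) ∣ α - β → F α = F β)
    (α : GaussianInt) : F α = GG M F ((α.re : ZMod M), (α.im : ZMod M)) := by
  unfold GG
  apply hF
  apply dvd_sub_of
  · show (M : ℤ) ∣ α.re - (((α.re : ZMod M).val : ℕ) : ℤ)
    rw [ZMod.val_intCast]
    exact Int.dvd_self_sub_emod
  · show (M : ℤ) ∣ α.im - (((α.im : ZMod M).val : ℕ) : ℤ)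
    rw [ZMod.val_intCast]
    exact Int.dvd_self_sub_emod

theorem sum_zmod [NeZero M] (f : ZMod M → ℂ) : ∑ x : ZMod M, f x = ∑ a ∈ range M, f (a : ZMod M) := by
  symm
  refine Finset.sum_nbij' (fun a => (a : ZMod M)) ZMod.val ?_ ?_ ?_ ?_ ?_
  · intro a _
    exact mem_univ _
  · intro x _
    exact mem_range.2 (ZMod.val_lt x)
  · intro a ha
    exact ZMod.val_cast_of_lt (mem_range.1 ha)
  · intro x _
    exact ZMod.natCast_zmod_val x
  · intro a _
    rfl

theorem sum_eq [NeZero M] (hF : ∀ α β : GaussianInt, (M : GaussianInt) ∣ α - β → F α = F β) :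
    ∑ a ∈ range M, ∑ b ∈ range M, F ⟨(a : ℤ), (b : ℤ)⟩ = ∑ v : ZMod M × ZMod M, GG M F v := by
  rw [Fintype.sum_prod_type, sum_zmod]
  refine Finset.sum_congr rfl fun a _ => ?_
  rw [sum_zmod]
  refine Finset.sum_congr rfl fun b _ => ?_
  rw [F_eq_GG hF]
  simp only [Int.cast_natCast]

theorem TT_inj {β γ : GaussianInt} (h : (M : GaussianInt) ∣ γ * β - 1) :
    Function.Injective (TT M β) := by
  obtain ⟨c, hc⟩ := h
  have h1 := congrArg Zsqrtd.re hc
  have h2 := congrArg Zsqrtd.im hc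
  rw [Zsqrtd.re_sub, Zsqrtd.re_mul, Zsqrtd.re_mul, Zsqrtd.re_natCast, Zsqrtd.im_natCast,
    Zsqrtd.re_one] at h1
  rw [Zsqrtd.im_sub, Zsqrtd.im_mul, Zsqrtd.im_mul, Zsqrtd.re_natCast, Zsqrtd.im_natCast,
    Zsqrtd.im_one] at h2
  have k1 := congrArg (Int.cast : ℤ → ZMod M) h1
  have k2 := congrArg (Int.cast : ℤ → ZMod M) h2
  push_cast at k1 k2
  rw [ZMod.natCast_self] at k1 k2
  have hl : Function.LeftInverse (TT M γ) (TT M β) := by
    intro v
    unfold TT
    apply Prod.ext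
    · simp only
      linear_combination v.1 * k1 - v.2 * k2
    · simp only
      linear_combination v.2 * k1 + v.1 * k2
  exact hl.injective

theorem sum_zero [NeZero M] (hF : ∀ α β : GaussianInt, (M : GaussianInt) ∣ α - β → F α = F β)
    {β : GaussianInt} (hβ : IsCoprime β (M : GaussianInt)) {ρ : ℂ} (hρ : ρ ≠ 1)
    (hm : ∀ α, F (β * α) = ρ * F α) :
    ∑ a ∈ range M, ∑ b ∈ range M, F ⟨(a : ℤ), (b : ℤ)⟩ = 0 := by
  rw [sum_eq hF]
  obtain ⟨γ, δ, hγ⟩ := hβ
  have hinj : Function.Injective (TT M β) :=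
    TT_inj (γ := γ) ⟨-δ, by rw [← hγ]; ring⟩
  have hbij := Finite.injective_iff_bijective.1 hinj
  have h1 : ∑ v : ZMod M × ZMod M, GG M F (TT M β v) = ∑ v : ZMod M × ZMod M, GG M F v :=
    hbij.sum_comp (GG M F)
  have h2 : ∀ v : ZMod M × ZMod M, GG M F (TT M β v) = ρ * GG M F v := by
    intro v
    have h3 := hm ⟨(v.1.val : ℤ), (v.2.val : ℤ)⟩
    rw [F_eq_GG hF (β * _)] at h3
    have h4 : GG M F v = F ⟨(v.1.val : ℤ), (v.2.val : ℤ)⟩ := rfl
    rw [h4, ← h3]
    apply congrArg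
    unfold TT
    apply Prod.ext
    · simp only [Zsqrtd.re_mul]
      push_cast
      rw [ZMod.natCast_zmod_val, ZMod.natCast_zmod_val]
      ring
    · simp only [Zsqrtd.im_mul]
      push_cast
      rw [ZMod.natCast_zmod_val, ZMod.natCast_zmod_val]
  simp only [h2] at h1
  rw [← Finset.mul_sum] at h1
  have h5 : (ρ - 1) * ∑ v : ZMod M × ZMod M, GG M F v = 0 := by
    linear_combination h1
  exact (mul_eq_zero.1 h5).resolve_left (sub_ne_zero.2 hρ)

end

theorem norm_mk (a b : ℤ) : (⟨a, b⟩ : GaussianInt).norm = Qf 0 1 a b := by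
  unfold Qf
  rw [Zsqrtd.norm_def]
  ring

theorem zs : S_ZS := by
  intro n n' m m' ε ε' _ _ hs _ hs' _ hα d hd _
  obtain ⟨α₀, hα0, hα1⟩ := hα
  have hd0 : 0 < d := Nat.pos_of_ne_zero hd.ne_zero
  have hM0 : 0 < m * m' * d := Nat.mul_pos (Nat.mul_pos hs.pos hs'.pos) hd0
  have : NeZero (m * m' * d) := ⟨hM0.ne'⟩
  set F : GaussianInt → ℂ := fun α => if (d : ℤ) ∣ α.norm then
    GaussianInt.toComplex (ε α * star (ε' α)) else 0 with hFdef
  have hsum : ∑ a ∈ range (m * m' * d), ∑ b ∈ range (m * m' * d),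
      (if (d : ℤ) ∣ Qf 0 1 a b then GaussianInt.toComplex (ε ⟨a, b⟩) *
        (starRingEnd ℂ) (GaussianInt.toComplex (ε' ⟨a, b⟩)) else 0) =
      ∑ a ∈ range (m * m' * d), ∑ b ∈ range (m * m' * d), F ⟨(a : ℤ), (b : ℤ)⟩ := by
    refine Finset.sum_congr rfl fun a _ => Finset.sum_congr rfl fun b _ => ?_
    rw [hFdef]
    simp only [norm_mk, map_mul, GaussianInt.toComplex_star]
  rw [hsum]
  by_cases hco : Nat.Coprime (m * m') d
  · -- the main case
    have hFper : ∀ α β : GaussianInt, ((m * m' * d : ℕ) : GaussianInt) ∣ α - β → F α = F β := by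
      intro α β h
      have hdiv : ∀ k : ℕ, k ∣ m * m' * d → (k : GaussianInt) ∣ α - β := fun k hk =>
        dvd_trans ((Nat.cast_dvd_cast hk)) h
      have e1 : ε α = ε β := hs.per α β (hdiv m ⟨m' * d, by ring⟩)
      have e2 : ε' α = ε' β := hs'.per α β (hdiv m' ⟨m * d, by ring⟩)
      have e3 : (d : ℤ) ∣ α.norm ↔ (d : ℤ) ∣ β.norm := by
        obtain ⟨c, hc⟩ := hdiv d ⟨m * m', by ring⟩
        have e4 : α = β + d * c := by rw [← hc]; ring
        have e5 : α.norm = β.norm + (d : ℤ) * (2 * β.re * c.re + 2 * β.im * c.im +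
            d * (c.re * c.re + c.im * c.im)) := by
          rw [e4]
          simp only [Zsqrtd.norm_def, Zsqrtd.re_add, Zsqrtd.im_add, Zsqrtd.re_mul, Zsqrtd.im_mul,
            Zsqrtd.re_natCast, Zsqrtd.im_natCast]
          ring
        rw [e5]
        exact (dvd_add_left (Dvd.intro _ rfl))
      rw [hFdef]
      simp only [e1, e2, e3]
    -- Chinese remainder theorem
    obtain ⟨u, v, huv⟩ := (Nat.isCoprime_iff_coprime.2 hco : IsCoprime ((m * m' : ℕ) : ℤ) (d : ℤ))
    have huv' : (u : GaussianInt) * ((m * m' : ℕ) : GaussianInt) + (v : GaussianInt) * (d : GaussianInt) = 1 := by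
      have := congrArg (Int.cast : ℤ → GaussianInt) huv
      push_cast at this ⊢
      exact this
    set β : GaussianInt := α₀ * ((v : GaussianInt) * (d : GaussianInt)) +
      (u : GaussianInt) * ((m * m' : ℕ) : GaussianInt) with hβ
    have b1 : ((m * m' : ℕ) : GaussianInt) ∣ β - α₀ := by
      refine ⟨(u : GaussianInt) * (1 - α₀), ?_⟩
      rw [hβ]
      linear_combination α₀ * huv'
    have b2 : (d : GaussianInt) ∣ β - 1 := by
      refine ⟨(v : GaussianInt) * (α₀ - 1), ?_⟩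
      rw [hβ]
      linear_combination huv'
    have e1 : ε β = ε α₀ := hs.per β α₀ (dvd_trans (by rw [Nat.cast_mul]; exact Dvd.intro _ rfl) b1)
    have e2 : ε' β = ε' α₀ :=
      hs'.per β α₀ (dvd_trans (by rw [Nat.cast_mul]; exact Dvd.intro_left _ rfl) b1)
    have c1 : IsCoprime β (m : GaussianInt) := by
      by_contra h
      apply hα0
      rw [← e1, (hs.zero β).2 h, zero_mul]
    have c2 : IsCoprime β (m' : GaussianInt) := by
      by_contra h
      apply hα0
      rw [← e2, (hs'.zero β).2 h, star_zero, mul_zero]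
    have c3 : IsCoprime β (d : GaussianInt) := (cop_congr b2).2 isCoprime_one_left
    have c4 : IsCoprime β ((m * m' * d : ℕ) : GaussianInt) :=
      cop_mul_right.2 ⟨cop_mul_right.2 ⟨c1, c2⟩, c3⟩
    refine sum_zero hFper c4 (ρ := GaussianInt.toComplex (ε α₀ * star (ε' α₀))) ?_ ?_
    · intro h
      apply hα1
      apply GaussianInt.toComplex_injective
      rw [h, map_one]
    · intro α
      have e3 : (d : ℤ) ∣ (β * α).norm ↔ (d : ℤ) ∣ α.norm := by
        rw [Zsqrtd.norm_mul]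
        exact ⟨fun h => ((cop_iff β d).1 c3).symm.dvd_of_dvd_mul_left h, fun h => Dvd.dvd.mul_left h _⟩
      rw [hFdef]
      simp only [e3, hs.mul, hs'.mul, e1, e2, star_mul']
      by_cases h : (d : ℤ) ∣ α.norm
      · rw [if_pos h, if_pos h, ← map_mul]
        apply congrArg
        ring
      · rw [if_neg h, if_neg h, mul_zero]
  · -- a common prime factor: all terms vanish
    obtain ⟨l, hl, hl1, hl2⟩ := Nat.Prime.not_coprime_iff_dvd.1 hco
    refine Finset.sum_eq_zero fun a _ => Finset.sum_eq_zero fun b _ => ?_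
    rw [hFdef]
    simp only
    by_cases h : (d : ℤ) ∣ (⟨(a : ℤ), (b : ℤ)⟩ : GaussianInt).norm
    · rw [if_pos h]
      have h3 : (l : ℤ) ∣ (⟨(a : ℤ), (b : ℤ)⟩ : GaussianInt).norm :=
        dvd_trans (Int.natCast_dvd_natCast.2 hl2) h
      have hnc : ∀ k : ℕ, l ∣ k → ¬ IsCoprime (⟨(a : ℤ), (b : ℤ)⟩ : GaussianInt) (k : GaussianInt) := by
        intro k hk hcop
        have h4 := (cop_iff _ k).1 hcop
        have h5 := h4.isUnit_of_dvd' h3 (Int.natCast_dvd_natCast.2 hk)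
        have h6 := Int.isUnit_iff_natAbs_eq.1 h5
        rw [Int.natAbs_natCast] at h6
        exact hl.one_lt.ne' h6
      rcases (Nat.Prime.dvd_mul hl).1 hl1 with h4 | h4
      · rw [(hs.zero _).2 (hnc m h4), zero_mul, map_zero]
      · rw [(hs'.zero _).2 (hnc m' h4), star_zero, mul_zero, map_zero]
    · rw [if_neg h]

end Pool.Agent.H685.QR577
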