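import Pool.Agent.H577.QR.Stm2

/-!
# Project QR: the sums over the medium primes (`tail`)
-/

set_option autoImplicit false

namespace Pool.Agent.H221.QR577

open Finset Filter
open Pool.Agent.H577.QR

theorem not_pow {d l l' : ℕ} (hd : 2 ≤ d) (hl : l.Prime) (hl' : l'.Prime) (hne : l ≠ l') :
    ¬ ∃ b : ℕ, l * l' ^ (d - 1) = b ^ d := by
  rintro ⟨b, hb⟩
  have h1 : l ∣ b := hl.dvd_of_dvd_pow (hb ▸ Dvd.intro _ rfl)
  have h2 : l ^ 2 ∣ l * l' ^ (d - 1) := by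
    rw [hb]
    exact (pow_dvd_pow l hd).trans (pow_dvd_pow_of_dvd h1 d)
  rw [sq] at h2
  have h3 : l ∣ l' ^ (d - 1) := Nat.dvd_of_mul_dvd_mul_left hl.pos h2
  have h4 : l ∣ l' := hl.dvd_of_dvd_pow h3
  exact hne ((Nat.prime_dvd_prime_iff_eq hl hl').1 h4)

theorem sum_le (d y z : ℕ) : ∑ n ∈ pq d y z, ‖(1 : ℂ) / n‖ ^ 2 ≤ 2 / ((y : ℝ) + 1) := by
  have h1 : pq d y z ⊆ Ioo y (z + 1) := by
    intro n hn
    have h2 := (mem_filter.1 (mem_filter.1 hn).1).1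
    rw [mem_Ioc] at h2
    rw [mem_Ioo]
    omega
  calc ∑ n ∈ pq d y z, ‖(1 : ℂ) / n‖ ^ 2 ≤ ∑ n ∈ Ioo y (z + 1), ‖(1 : ℂ) / n‖ ^ 2 :=
        sum_le_sum_of_subset_of_nonneg h1 fun _ _ _ => by positivity
    _ = ∑ n ∈ Ioo y (z + 1), ((n : ℝ) ^ 2)⁻¹ := by
        refine sum_congr rfl fun n _ => ?_
        rw [norm_div, norm_one, Complex.norm_natCast, div_pow, one_pow, one_div]
    _ ≤ 2 / ((y : ℝ) + 1) := sum_Ioo_inv_sq_le y (z + 1)

theorem tail {d : ℕ} (hd : 2 ≤ d) (h : S_M d) : S_TAIL d := by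
  classical
  obtain ⟨C, hC, hM⟩ := h
  obtain ⟨x₀, hx₀⟩ := hM 21
  refine ⟨2 * C, by positivity, x₀, fun x hx y z hz η hη χ => ?_⟩
  have hpq : ∀ n ∈ pq d y z, n.Prime ∧ ¬ n ∣ 2 * d ∧ n ≤ z := by
    intro n hn
    have h1 := mem_filter.1 hn
    have h2 := mem_filter.1 h1.1
    exact ⟨h2.2, h1.2, (mem_Ioc.1 h2.1).2⟩
  have hmain := hx₀ x hx (pq d y z)
    (fun n hn => ⟨(Nat.Prime.coprime_iff_not_dvd (hpq n hn).1).2 (hpq n hn).2.1, by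
      have h1 : (n : ℝ) ≤ z := by exact_mod_cast (hpq n hn).2.2
      exact h1.trans hz⟩)
    (fun n hn n' hn' hne => not_pow hd (hpq n hn).1 (hpq n' hn').1 hne)
    (fun n => 1 / (n : ℂ)) χ
  have hx0 : 0 ≤ (x : ℝ) / Real.log x := div_nonneg (Nat.cast_nonneg _) (Real.log_natCast_nonneg x)
  have hy : (0 : ℝ) < (y : ℝ) + 1 := by positivity
  have hbound : C * (x / Real.log x) * ∑ n ∈ pq d y z, ‖(1 : ℂ) / n‖ ^ 2 ≤
      C * (x / Real.log x) * (2 / ((y : ℝ) + 1)) :=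
    mul_le_mul_of_nonneg_left (sum_le d y z) (mul_nonneg hC.le hx0)
  set S := (Icc 1 x).filter (fun p => p.Prime ∧ orderOf (χ p) = d) with hS
  set B := (Icc 1 x).filter (fun p => p.Prime ∧ orderOf (χ p) = d ∧
    η < ‖∑ l ∈ pq d y z, χ p (l : ZMod p) / l‖) with hB
  have hBS : B ⊆ S := by
    intro p hp
    rw [hB, mem_filter] at hp
    rw [hS, mem_filter]
    exact ⟨hp.1, hp.2.1, hp.2.2.1⟩
  have hcheb : (B.card : ℝ) * η ^ 2 ≤
      ∑ p ∈ S, ‖∑ n ∈ pq d y z, (1 / (n : ℂ)) * χ p (n : ZMod p)‖ ^ 2 := by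
    calc (B.card : ℝ) * η ^ 2 = ∑ _p ∈ B, η ^ 2 := by rw [sum_const, nsmul_eq_mul]
      _ ≤ ∑ p ∈ B, ‖∑ n ∈ pq d y z, (1 / (n : ℂ)) * χ p (n : ZMod p)‖ ^ 2 := by
          refine sum_le_sum fun p hp => ?_
          rw [hB, mem_filter] at hp
          have h1 : ∑ n ∈ pq d y z, (1 / (n : ℂ)) * χ p (n : ZMod p) =
              ∑ l ∈ pq d y z, χ p (l : ZMod p) / l :=
            sum_congr rfl fun n _ => by rw [one_div, mul_comm, ← div_eq_mul_inv]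
          rw [h1]
          exact pow_le_pow_left₀ hη.le hp.2.2.2.le 2
      _ ≤ _ := sum_le_sum_of_subset_of_nonneg hBS fun _ _ _ => by positivity
  have hfin : (B.card : ℝ) * η ^ 2 ≤ C * (x / Real.log x) * (2 / ((y : ℝ) + 1)) :=
    hcheb.trans (hmain.trans hbound)
  rw [le_div_iff₀ (by positivity)]
  calc (B.card : ℝ) * (η ^ 2 * ((y : ℝ) + 1)) = (B.card : ℝ) * η ^ 2 * ((y : ℝ) + 1) := by ring
    _ ≤ C * (x / Real.log x) * (2 / ((y : ℝ) + 1)) * ((y : ℝ) + 1) := by gcongr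
    _ = 2 * C * (x / Real.log x) := by field_simp

end Pool.Agent.H221.QR577
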